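import Pool.Agent.R512.P.FurP

/-!
Library R512.P (helper512): sign patterns of three aperiodic functions in all residue classes.
-/

set_option autoImplicit false

namespace Pool.Agent.R512.P

open Finset Filter Topology
open Pool.Agent.Y958.U
open Pool.Agent.Y958.E
open Pool.Agent.R512.G

/-- patterns in residue classes, integer shifts -/
theorem real3Cls : ∃ c : ℝ, 0 < c ∧ c < 1 ∧ ∀ g : Fin 3 → ℕ → ℤ, (∀ i, MS (g i)) →
    (∀ i, NoReal (fun n => (g i n : ℝ))) → ∀ h : Fin 3 → ℤ, Function.Injective h → ∀ s : Fin 3 → ℤ,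
    (∀ i, s i = 1 ∨ s i = -1) → ∀ pat : ℕ → ℝ, (∀ n, 0 ≤ pat n) → (∀ n, pat n ≤ 1) →
    (∀ n : ℕ, (∀ i, 1 ≤ (n : ℤ) + h i) → (∀ i, g i ((n : ℤ) + h i).toNat = s i) → pat n = 1) →
    AllCls pat c := by
  classical
  obtain ⟨c, hc0, hc1, H⟩ := real3
  refine ⟨c / 2, by positivity, by linarith, fun g hg hN h hh s hs pat hp0 hp1 hpat Q r hQ => ?_⟩
  set T : ℕ := ∑ i, (h i).natAbs + 1 with hT
  have hTi : ∀ i, (h i).natAbs + 1 ≤ T := fun i => by
    have := single_le_sum (f := fun i => (h i).natAbs) (fun _ _ => Nat.zero_le _) (mem_univ i)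
    have h3 : (h i).natAbs ≤ ∑ i, (h i).natAbs := this
    omega
  have hTQ : T ≤ Q * T := Nat.le_mul_of_pos_left _ hQ
  set b : Fin 3 → ℕ := fun i => (((r + Q * T : ℕ) : ℤ) + h i).toNat with hb
  have hbi : ∀ i, ((b i : ℕ) : ℤ) = ((r + Q * T : ℕ) : ℤ) + h i := fun i => by
    simp only [hb]
    have := hTi i
    have h4 : (T : ℤ) ≤ ((Q * T : ℕ) : ℤ) := by exact_mod_cast hTQ
    push_cast at h4 ⊢
    omega
  have hbinj : Function.Injective b := by
    intro i j hij
    apply hh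
    have h1 := hbi i
    have h2 := hbi j
    rw [hij] at h1
    omega
  obtain ⟨E, hE, hE2⟩ := H Q b hQ hbinj g hg (hN 0) (hN 1)
  have hE3 := oneQ (hg 2) (hN 2) Q (b 2) hQ c hc0
  obtain ⟨K, hK⟩ := exists_nat_ge (2 * (T : ℝ) / c)
  refine LZ_sub ?_ (LZ_union (LZ_union hE hE3) (LZ_bdd {N | N < K + 1} _ fun n hn => hn))
  intro M hM
  by_contra hcon
  rw [Set.mem_union, Set.mem_union, not_or, not_or] at hcon
  obtain ⟨⟨hM1, hM2⟩, hM3⟩ := hcon
  have hM2 : ¬ (c * M < |∑ n ∈ Icc 1 M, (g 2 (Q * n + b 2) : ℝ)|) := hM2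
  have hM3 : ¬ (M < K + 1) := hM3
  rw [not_lt] at hM2 hM3
  have hTM : 2 * (T : ℝ) ≤ c * M := by
    have h4 : 2 * (T : ℝ) / c ≤ M := hK.trans (by exact_mod_cast (by omega : K ≤ M))
    rw [div_le_iff₀ hc0] at h4
    linarith
  have h1 := hE2 M hM1 hM2 s hs
  have h2 : (((Icc 1 M).filter (fun n => ∀ i, g i (Q * n + b i) = s i)).card : ℝ) ≤
      ∑ m ∈ Icc 1 M, pat (Q * m + (r + Q * T)) := by
    rw [card_filter]
    push_cast
    refine sum_le_sum fun m hm => ?_
    rw [mem_Icc] at hm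
    split_ifs with hp
    · have h5 : ∀ i, (((Q * m + (r + Q * T) : ℕ) : ℤ) + h i) = ((Q * m + b i : ℕ) : ℤ) := fun i => by
        have h6 := hbi i
        push_cast at h6 ⊢
        rw [h6]
        ring
      have h7 : ∀ i, 1 ≤ b i := fun i => by
        have h6 := hbi i
        have h8 := hTi i
        have h4 : (T : ℤ) ≤ ((Q * T : ℕ) : ℤ) := by exact_mod_cast hTQ
        push_cast at h6 h4
        omega
      rw [hpat _ (fun i => by rw [h5 i]; have := h7 i; omega) (fun i => by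
        rw [h5 i, Int.toNat_natCast]
        exact hp i)]
    · exact hp0 _
  have h3 : ∑ m ∈ Icc 1 M, pat (Q * m + (r + Q * T)) ≤ ∑ m ∈ Icc 1 M, pat (Q * m + r) + T := by
    have e1 : ∑ m ∈ Icc 1 M, pat (Q * m + (r + Q * T)) = ∑ m ∈ Ioc T (M + T), pat (Q * m + r) := by
      apply sum_nbij (fun m => m + T)
      · intro m hm
        rw [mem_Icc] at hm
        rw [mem_Ioc]
        omega
      · intro x _ y _ hxy
        have hxy : x + T = y + T := hxy
        omega
      · intro m hm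
        rw [mem_coe, mem_Ioc] at hm
        exact ⟨m - T, by rw [mem_coe, mem_Icc]; omega, by show m - T + T = m; omega⟩
      · intro m _
        congr 1
        ring
    have e2 : Ioc T (M + T) ⊆ Icc 1 M ∪ Ioc M (M + T) := by
      intro m hm
      rw [mem_Ioc] at hm
      rw [mem_union, mem_Icc, mem_Ioc]
      omega
    rw [e1]
    refine (sum_le_sum_of_subset_of_nonneg e2 fun m _ _ => hp0 _).trans ?_
    have e3 : Disjoint (Icc 1 M) (Ioc M (M + T)) := by
      rw [disjoint_left]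
      intro m hm
      rw [mem_Icc] at hm
      rw [mem_Ioc]
      omega
    rw [sum_union e3]
    have e4 : ∑ m ∈ Ioc M (M + T), pat (Q * m + r) ≤ T := by
      refine (sum_le_sum fun m _ => hp1 _).trans (le_of_eq ?_)
      rw [sum_const, Nat.card_Ioc, nsmul_eq_mul, mul_one, Nat.add_sub_cancel_left]
    linarith
  have hM' : ∑ m ∈ Icc 1 M, pat (Q * m + r) < c / 2 * M := hM
  linarith

end Pool.Agent.R512.P
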