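import Pool.Agent.R512.P.Cls3

/-!
Library R512.P (helper512): antipodal pairs of sign patterns of four aperiodic functions.
-/

set_option autoImplicit false

namespace Pool.Agent.R512.P

open Finset Filter Topology
open Pool.Agent.Y958.U
open Pool.Agent.Y958.E
open Pool.Agent.R512.G

lemma anti_id {x y z w s t u v : ℝ} (hx : x = 1 ∨ x = -1) (hy : y = 1 ∨ y = -1) (hz : z = 1 ∨ z = -1)
    (hw : w = 1 ∨ w = -1) (hs : s = 1 ∨ s = -1) (ht : t = 1 ∨ t = -1) (hu : u = 1 ∨ u = -1) (hv : v = 1 ∨ v = -1)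
    [Decidable ((x = s ∧ y = t ∧ z = u ∧ w = v) ∨ (x = -s ∧ y = -t ∧ z = -u ∧ w = -v))] :
    (if (x = s ∧ y = t ∧ z = u ∧ w = v) ∨ (x = -s ∧ y = -t ∧ z = -u ∧ w = -v) then (1 : ℝ) else 0) =
      (1 + s * t * (x * y) + s * u * (x * z) + s * v * (x * w) + t * u * (y * z) + t * v * (y * w) +
        u * v * (z * w) + s * t * u * v * (x * y * z * w)) / 8 := by
  rcases hs with rfl | rfl <;> rcases ht with rfl | rfl <;> rcases hu with rfl | rfl <;>
    rcases hv with rfl | rfl <;> rcases hx with rfl | rfl <;> rcases hy with rfl | rfl <;>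
    rcases hz with rfl | rfl <;> rcases hw with rfl | rfl <;> norm_num

/-- **antipodal pairs of patterns** of four functions -/
theorem anti4 : ∃ c : ℝ, 0 < c ∧ c < 1 ∧ ∀ (q : ℕ) (h : Fin 4 → ℕ), 1 ≤ q → Function.Injective h →
    ∀ g : Fin 4 → ℕ → ℤ, (∀ i, MS (g i)) → (∀ i, NoReal (fun n => (g i n : ℝ))) →
    ∀ s : Fin 4 → ℤ, (∀ i, s i = 1 ∨ s i = -1) →
    LZ {N : ℕ | (((Icc 1 N).filter (fun n => (∀ i, g i (q * n + h i) = s i) ∨
      (∀ i, g i (q * n + h i) = -s i))).card : ℝ) < c * N} := by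
  classical
  obtain ⟨c, hc0, hc1, hR⟩ := finR
  have hc04 := hc0 4
  have hc14 := hc1 4
  set c₀ := c 4 with hc₀
  set ε : ℝ := c₀ / 64 with hε
  have hε0 : 0 < ε := by positivity
  refine ⟨ε, hε0, by linarith, fun q h hq hh g hg hn s hs => ?_⟩
  have hne : ∀ i j : Fin 4, i ≠ j → h i ≠ h j := fun i j hij e => hij (hh e)
  have hP : ∀ i j : Fin 4, i ≠ j → LZ {N : ℕ | ε * N < |∑ n ∈ Icc 1 N, (g i (q * n + h i) : ℝ) *
      (g j (q * n + h j) : ℝ)|} := fun i j hij => pairQ (hg i) (hn i) (hg j) q (h i) (h j) hq (hne i j hij) ε hε0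
  -- the product of the four functions
  set G : Fin 4 → ℕ → ℂ := fun i n => ((z0 (g i) n : ℤ) : ℂ) with hG
  have hbm : ∀ i, BM (G i) := by
    intro i
    refine ⟨fun n => ?_, fun m n hm hn hmn => ?_⟩
    · simp only [hG]
      rw [Complex.norm_intCast]
      exact_mod_cast z0_le (hg i) n
    · simp only [hG]
      rw [z0_pos _ hm, z0_pos _ hn, z0_pos _ (Nat.mul_pos hm hn), (hg i).mul m n hm hn hmn]
      push_cast; ring
  have hadm : Adm (G 0) := by
    refine Or.inl ⟨fun n => (z0 (g 0) n : ℝ), fun n => by simp [hG], ?_⟩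
    intro q χ hq hχ hs
    apply hn 0 q χ hq hχ
    refine hs.congr fun p => ?_
    beta_reduce
    rw [z0_pos _ p.2.pos]
  obtain ⟨E4, hE4, h4⟩ := hR 4 (fun _ => q) h (fun _ => hq) (fun i j hij => by
    intro e
    exact hij (hh (Nat.eq_of_mul_eq_mul_left hq e).symm)) G hbm 0 hadm
  obtain ⟨M4, hM4⟩ := h4 (c₀ / 4) (by positivity)
  refine LZ_sub ?_ (LZ_union (LZ_union (LZ_union (LZ_union (hP 0 1 (by decide)) (hP 0 2 (by decide)))
    (LZ_union (hP 0 3 (by decide)) (hP 1 2 (by decide)))) (LZ_union (hP 1 3 (by decide)) (hP 2 3 (by decide))))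
    (LZ_union hE4 (LZ_bdd {N | N < M4 + 1} _ fun n hn => hn)))
  intro N hN'
  by_contra hN
  simp only [Set.mem_union, not_or] at hN
  obtain ⟨⟨⟨⟨hN1, hN2⟩, hN3, hN4⟩, hN5, hN6⟩, hN7, hN8⟩ := hN
  have hN8 : ¬ (N < M4 + 1) := hN8
  rw [not_lt] at hN8
  have hN0 : (0 : ℝ) < N := by exact_mod_cast (by omega : 0 < N)
  have p1 := not_lt.1 (show ¬ (ε * N < |∑ n ∈ Icc 1 N, (g 0 (q * n + h 0) : ℝ) * (g 1 (q * n + h 1) : ℝ)|) from hN1)
  have p2 := not_lt.1 (show ¬ (ε * N < |∑ n ∈ Icc 1 N, (g 0 (q * n + h 0) : ℝ) * (g 2 (q * n + h 2) : ℝ)|) from hN2)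
  have p3 := not_lt.1 (show ¬ (ε * N < |∑ n ∈ Icc 1 N, (g 0 (q * n + h 0) : ℝ) * (g 3 (q * n + h 3) : ℝ)|) from hN3)
  have p4 := not_lt.1 (show ¬ (ε * N < |∑ n ∈ Icc 1 N, (g 1 (q * n + h 1) : ℝ) * (g 2 (q * n + h 2) : ℝ)|) from hN4)
  have p5 := not_lt.1 (show ¬ (ε * N < |∑ n ∈ Icc 1 N, (g 1 (q * n + h 1) : ℝ) * (g 3 (q * n + h 3) : ℝ)|) from hN5)
  have p6 := not_lt.1 (show ¬ (ε * N < |∑ n ∈ Icc 1 N, (g 2 (q * n + h 2) : ℝ) * (g 3 (q * n + h 3) : ℝ)|) from hN6)
  have p7 : |∑ n ∈ Icc 1 N, (g 0 (q * n + h 0) : ℝ) * (g 1 (q * n + h 1) : ℝ) * (g 2 (q * n + h 2) : ℝ) *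
      (g 3 (q * n + h 3) : ℝ)| ≤ (1 - c₀) * N + c₀ / 4 * N := by
    have h6 := (hM4 N (by omega)).1 hN7
    have e : ∑ n ∈ Icc 1 N, ∏ i, G i (q * n + h i) =
        ((∑ n ∈ Icc 1 N, (g 0 (q * n + h 0) : ℝ) * (g 1 (q * n + h 1) : ℝ) * (g 2 (q * n + h 2) : ℝ) *
          (g 3 (q * n + h 3) : ℝ) : ℝ) : ℂ) := by
      push_cast
      refine sum_congr rfl fun n hn => ?_
      rw [mem_Icc] at hn
      rw [Fin.prod_univ_four]
      simp only [hG]
      have hq1 : 1 ≤ q * n := Nat.mul_pos hq hn.1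
      rw [z0_pos _ (by omega), z0_pos _ (by omega), z0_pos _ (by omega), z0_pos _ (by omega)]
    have e2 : ∑ n ∈ Icc 1 N, ‖G 0 (q * n + h 0)‖ ≤ N := by
      refine (sum_le_sum fun n _ => (hbm 0).1 _).trans (le_of_eq ?_)
      simp
    rw [e, Complex.norm_real, Real.norm_eq_abs] at h6
    refine h6.trans (add_le_add ?_ le_rfl)
    exact mul_le_mul_of_nonneg_left e2 (by linarith)
  have hval : ∀ i n, (g i n : ℤ) = s i ↔ (g i n : ℝ) = (s i : ℝ) := fun i n => by
    exact_mod_cast Iff.rfl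
  have hval' : ∀ i n, (g i n : ℤ) = -s i ↔ (g i n : ℝ) = -(s i : ℝ) := fun i n => by
    exact_mod_cast Iff.rfl
  have hsr : ∀ i, (s i : ℝ) = 1 ∨ (s i : ℝ) = -1 := fun i => by
    rcases hs i with h | h <;> rw [h] <;> norm_num
  have hgr : ∀ i n, 1 ≤ n → (g i n : ℝ) = 1 ∨ (g i n : ℝ) = -1 := fun i n hn => by
    rcases (hg i).val n hn with h | h <;> rw [h] <;> norm_num
  -- the count
  have hcount : (((Icc 1 N).filter (fun n => (∀ i, g i (q * n + h i) = s i) ∨
      (∀ i, g i (q * n + h i) = -s i))).card : ℝ) =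
      (N + s 0 * s 1 * ∑ n ∈ Icc 1 N, (g 0 (q * n + h 0) : ℝ) * (g 1 (q * n + h 1) : ℝ) +
        s 0 * s 2 * ∑ n ∈ Icc 1 N, (g 0 (q * n + h 0) : ℝ) * (g 2 (q * n + h 2) : ℝ) +
        s 0 * s 3 * ∑ n ∈ Icc 1 N, (g 0 (q * n + h 0) : ℝ) * (g 3 (q * n + h 3) : ℝ) +
        s 1 * s 2 * ∑ n ∈ Icc 1 N, (g 1 (q * n + h 1) : ℝ) * (g 2 (q * n + h 2) : ℝ) +
        s 1 * s 3 * ∑ n ∈ Icc 1 N, (g 1 (q * n + h 1) : ℝ) * (g 3 (q * n + h 3) : ℝ) +
        s 2 * s 3 * ∑ n ∈ Icc 1 N, (g 2 (q * n + h 2) : ℝ) * (g 3 (q * n + h 3) : ℝ) +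
        s 0 * s 1 * s 2 * s 3 * ∑ n ∈ Icc 1 N, (g 0 (q * n + h 0) : ℝ) * (g 1 (q * n + h 1) : ℝ) *
          (g 2 (q * n + h 2) : ℝ) * (g 3 (q * n + h 3) : ℝ)) / 8 := by
    rw [card_filter]
    push_cast
    have e : ∀ n ∈ Icc 1 N, (if (∀ i, g i (q * n + h i) = s i) ∨ (∀ i, g i (q * n + h i) = -s i)
        then (1 : ℝ) else 0) =
        (1 + s 0 * s 1 * ((g 0 (q * n + h 0) : ℝ) * (g 1 (q * n + h 1) : ℝ)) +
        s 0 * s 2 * ((g 0 (q * n + h 0) : ℝ) * (g 2 (q * n + h 2) : ℝ)) +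
        s 0 * s 3 * ((g 0 (q * n + h 0) : ℝ) * (g 3 (q * n + h 3) : ℝ)) +
        s 1 * s 2 * ((g 1 (q * n + h 1) : ℝ) * (g 2 (q * n + h 2) : ℝ)) +
        s 1 * s 3 * ((g 1 (q * n + h 1) : ℝ) * (g 3 (q * n + h 3) : ℝ)) +
        s 2 * s 3 * ((g 2 (q * n + h 2) : ℝ) * (g 3 (q * n + h 3) : ℝ)) +
        s 0 * s 1 * s 2 * s 3 * ((g 0 (q * n + h 0) : ℝ) * (g 1 (q * n + h 1) : ℝ) *
          (g 2 (q * n + h 2) : ℝ) * (g 3 (q * n + h 3) : ℝ))) / 8 := by
      intro n hn
      rw [mem_Icc] at hn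
      have hq1 : 1 ≤ q * n := Nat.mul_pos hq hn.1
      have e1 := anti_id (hgr 0 (q * n + h 0) (by omega)) (hgr 1 (q * n + h 1) (by omega))
        (hgr 2 (q * n + h 2) (by omega)) (hgr 3 (q * n + h 3) (by omega)) (hsr 0) (hsr 1) (hsr 2) (hsr 3)
      rw [← e1]
      congr 1
      rw [eq_iff_iff]
      apply or_congr
      · constructor
        · intro a
          exact ⟨(hval 0 _).1 (a 0), (hval 1 _).1 (a 1), (hval 2 _).1 (a 2), (hval 3 _).1 (a 3)⟩
        · rintro ⟨a, b, c, d⟩ i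
          fin_cases i
          · exact (hval 0 _).2 a
          · exact (hval 1 _).2 b
          · exact (hval 2 _).2 c
          · exact (hval 3 _).2 d
      · constructor
        · intro a
          exact ⟨(hval' 0 _).1 (a 0), (hval' 1 _).1 (a 1), (hval' 2 _).1 (a 2), (hval' 3 _).1 (a 3)⟩
        · rintro ⟨a, b, c, d⟩ i
          fin_cases i
          · exact (hval' 0 _).2 a
          · exact (hval' 1 _).2 b
          · exact (hval' 2 _).2 c
          · exact (hval' 3 _).2 d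
    rw [sum_congr rfl e, ← sum_div]
    simp only [sum_add_distrib, ← mul_sum]
    simp
  have hN' : (((Icc 1 N).filter (fun n => (∀ i, g i (q * n + h i) = s i) ∨
      (∀ i, g i (q * n + h i) = -s i))).card : ℝ) < ε * N := hN'
  rw [hcount] at hN'
  have habs : ∀ (r S b : ℝ), (r = 1 ∨ r = -1) → |S| ≤ b → -b ≤ r * S := by
    intro r S b hr hS
    rw [abs_le] at hS
    rcases hr with h | h <;> rw [h] <;> linarith [hS.1, hS.2]
  have hm : ∀ a b : ℝ, (a = 1 ∨ a = -1) → (b = 1 ∨ b = -1) → (a * b = 1 ∨ a * b = -1) := by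
    intro a b ha hb
    rcases ha with rfl | rfl <;> rcases hb with rfl | rfl <;> norm_num
  have q1 := habs _ _ _ (hm _ _ (hsr 0) (hsr 1)) p1
  have q2 := habs _ _ _ (hm _ _ (hsr 0) (hsr 2)) p2
  have q3 := habs _ _ _ (hm _ _ (hsr 0) (hsr 3)) p3
  have q4 := habs _ _ _ (hm _ _ (hsr 1) (hsr 2)) p4
  have q5 := habs _ _ _ (hm _ _ (hsr 1) (hsr 3)) p5
  have q6 := habs _ _ _ (hm _ _ (hsr 2) (hsr 3)) p6
  have q7 := habs _ _ _ (hm _ _ (hm _ _ (hm _ _ (hsr 0) (hsr 1)) (hsr 2)) (hsr 3)) p7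
  have hcε : c₀ = 64 * ε := by rw [hε]; ring
  rw [hcε] at q7
  have : 0 < ε * N := by positivity
  linarith

/-- antipodal pairs of patterns in residue classes, integer shifts -/
theorem anti4Cls : ∃ c : ℝ, 0 < c ∧ c < 1 ∧ ∀ g : Fin 4 → ℕ → ℤ, (∀ i, MS (g i)) →
    (∀ i, NoReal (fun n => (g i n : ℝ))) → ∀ h : Fin 4 → ℤ, Function.Injective h → ∀ s : Fin 4 → ℤ,
    (∀ i, s i = 1 ∨ s i = -1) → ∀ pat : ℕ → ℝ, (∀ n, 0 ≤ pat n) → (∀ n, pat n ≤ 1) →
    (∀ n : ℕ, (∀ i, 1 ≤ (n : ℤ) + h i) → ((∀ i, g i ((n : ℤ) + h i).toNat = s i) ∨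
      (∀ i, g i ((n : ℤ) + h i).toNat = -s i)) → pat n = 1) →
    AllCls pat c := by
  classical
  obtain ⟨c, hc0, hc1, H⟩ := anti4
  refine ⟨c / 2, by positivity, by linarith, fun g hg hN h hh s hs pat hp0 hp1 hpat Q r hQ => ?_⟩
  set T : ℕ := ∑ i, (h i).natAbs + 1 with hT
  have hTi : ∀ i, (h i).natAbs + 1 ≤ T := fun i => by
    have := single_le_sum (f := fun i => (h i).natAbs) (fun _ _ => Nat.zero_le _) (mem_univ i)
    have h3 : (h i).natAbs ≤ ∑ i, (h i).natAbs := this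
    omega
  have hTQ : T ≤ Q * T := Nat.le_mul_of_pos_left _ hQ
  set b : Fin 4 → ℕ := fun i => (((r + Q * T : ℕ) : ℤ) + h i).toNat with hb
  have hbi : ∀ i, ((b i : ℕ) : ℤ) = ((r + Q * T : ℕ) : ℤ) + h i := fun i => by
    simp only [hb]
    have := hTi i
    have h4 : (T : ℤ) ≤ ((Q * T : ℕ) : ℤ) := by exact_mod_cast hTQ
    push_cast at h4 ⊢
    omega
  have hbinj : Function.Injective b := by
    intro i j hij
    apply hh
    have h1 := hbi i
    have h2 := hbi j
    rw [hij] at h1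
    omega
  have hE := H Q b hQ hbinj g hg hN s hs
  obtain ⟨K, hK⟩ := exists_nat_ge (2 * (T : ℝ) / c)
  refine LZ_sub ?_ (LZ_union hE (LZ_bdd {N | N < K + 1} _ fun n hn => hn))
  intro M hM
  by_contra hcon
  rw [Set.mem_union, not_or] at hcon
  obtain ⟨hM1, hM3⟩ := hcon
  have hM3 : ¬ (M < K + 1) := hM3
  rw [not_lt] at hM3
  have h1 := not_lt.1 (show ¬ ((((Icc 1 M).filter (fun n => (∀ i, g i (Q * n + b i) = s i) ∨
      (∀ i, g i (Q * n + b i) = -s i))).card : ℝ) < c * M) from hM1)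
  have hTM : 2 * (T : ℝ) ≤ c * M := by
    have h4 : 2 * (T : ℝ) / c ≤ M := hK.trans (by exact_mod_cast (by omega : K ≤ M))
    rw [div_le_iff₀ hc0] at h4
    linarith
  have h2 : (((Icc 1 M).filter (fun n => (∀ i, g i (Q * n + b i) = s i) ∨
      (∀ i, g i (Q * n + b i) = -s i))).card : ℝ) ≤
      ∑ m ∈ Icc 1 M, pat (Q * m + (r + Q * T)) := by
    rw [card_filter]
    push_cast
    refine sum_le_sum fun m hm => ?_
    rw [mem_Icc] at hm
    split_ifs with hp
    · have h5 : ∀ i, (((Q * m + (r + Q * T) : ℕ) : ℤ) + h i) = ((Q * m + b i : ℕ) : ℤ) := fun i => by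
        have h6 := hbi i
        push_cast at h6 ⊢
        rw [h6]
        ring
      have h7 : ∀ i, 1 ≤ b i := fun i => by
        have h6 := hbi i
        have h8 := hTi i
        have h4 : (T : ℤ) ≤ ((Q * T : ℕ) : ℤ) := by exact_mod_cast hTQ
        push_cast at h6 h4
        omega
      rw [hpat _ (fun i => by rw [h5 i]; have := h7 i; omega) (by
        simp only [h5, Int.toNat_natCast]
        exact hp)]
    · exact hp0 _
  have h3 : ∑ m ∈ Icc 1 M, pat (Q * m + (r + Q * T)) ≤ ∑ m ∈ Icc 1 M, pat (Q * m + r) + T := by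
    have e1 : ∑ m ∈ Icc 1 M, pat (Q * m + (r + Q * T)) = ∑ m ∈ Ioc T (M + T), pat (Q * m + r) := by
      apply sum_nbij (fun m => m + T)
      · intro m hm
        rw [mem_Icc] at hm
        rw [mem_Ioc]
        omega
      · intro x _ y _ hxy
        have hxy : x + T = y + T := hxy
        omega
      · intro m hm
        rw [mem_coe, mem_Ioc] at hm
        exact ⟨m - T, by rw [mem_coe, mem_Icc]; omega, by show m - T + T = m; omega⟩
      · intro m _
        congr 1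
        ring
    have e2 : Ioc T (M + T) ⊆ Icc 1 M ∪ Ioc M (M + T) := by
      intro m hm
      rw [mem_Ioc] at hm
      rw [mem_union, mem_Icc, mem_Ioc]
      omega
    rw [e1]
    refine (sum_le_sum_of_subset_of_nonneg e2 fun m _ _ => hp0 _).trans ?_
    have e3 : Disjoint (Icc 1 M) (Ioc M (M + T)) := by
      rw [disjoint_left]
      intro m hm
      rw [mem_Icc] at hm
      rw [mem_Ioc]
      omega
    rw [sum_union e3]
    have e4 : ∑ m ∈ Ioc M (M + T), pat (Q * m + r) ≤ T := by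
      refine (sum_le_sum fun m _ => hp1 _).trans (le_of_eq ?_)
      rw [sum_const, Nat.card_Ioc, nsmul_eq_mul, mul_one, Nat.add_sub_cancel_left]
    linarith
  have hM' : ∑ m ∈ Icc 1 M, pat (Q * m + r) < c / 2 * M := hM
  linarith

/-! ### the graph on the patterns -/

/-- codes of patterns which differ in exactly one or in all four places -/
def adj (a b : Fin 16) : Bool := (a.val ^^^ b.val) ∈ [1, 2, 4, 8, 15]

/-- bound for the size of independent sets in a list -/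
def al : ℕ → List (Fin 16) → ℕ
  | 0, _ => 0
  | _ + 1, [] => 0
  | k + 1, v :: t => max (al k t) (1 + al k (t.filter fun w => !adj v w))

lemma al_bound : ∀ (k : ℕ) (l : List (Fin 16)), l.length ≤ k → ∀ Z : Finset (Fin 16), (∀ z ∈ Z, z ∈ l) →
    (∀ a ∈ Z, ∀ b ∈ Z, adj a b = false) → Z.card ≤ al k l := by
  intro k
  induction k with
  | zero =>
    intro l hl Z hZ _
    have h1 : l = [] := List.length_eq_zero_iff.1 (by omega)
    subst h1
    have h2 : Z = ∅ := eq_empty_of_forall_notMem fun z hz => by simpa using hZ z hz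
    rw [h2]
    simp
  | succ k ih =>
    intro l hl Z hZ hind
    cases l with
    | nil =>
      have h2 : Z = ∅ := eq_empty_of_forall_notMem fun z hz => by simpa using hZ z hz
      rw [h2]
      simp
    | cons v t =>
      have ht : t.length ≤ k := by simpa using hl
      by_cases hv : v ∈ Z
      · have h1 := ih (t.filter fun w => !adj v w) ((List.length_filter_le _ _).trans ht) (Z.erase v)
          (fun z hz => by
            rw [mem_erase] at hz
            have h2 := hZ z hz.2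
            rw [List.mem_cons] at h2
            rw [List.mem_filter]
            refine ⟨h2.resolve_left hz.1, ?_⟩
            rw [hind v hv z hz.2]
            rfl) (fun a ha b hb => hind a (mem_of_mem_erase ha) b (mem_of_mem_erase hb))
        rw [card_erase_of_mem hv] at h1
        show Z.card ≤ max (al k t) (1 + al k (t.filter fun w => !adj v w))
        apply le_max_of_le_right
        omega
      · have h1 := ih t ht Z (fun z hz => by
          have h2 := hZ z hz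
          rw [List.mem_cons] at h2
          exact h2.resolve_left fun h => hv (h ▸ hz)) hind
        exact le_max_of_le_left h1

lemma clebsch (Z : Finset (Fin 16)) (h : ∀ a ∈ Z, ∀ b ∈ Z, adj a b = false) : Z.card ≤ 5 := by
  have h1 := al_bound 16 (List.finRange 16) (by simp) Z (fun z _ => List.mem_finRange z) h
  have h2 : al 16 (List.finRange 16) = 5 := by decide +kernel
  rw [h2] at h1
  exact h1

/-- the code of a pattern -/
def code (b : Fin 4 → Bool) : Fin 16 :=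
  ⟨(b 0).toNat + 2 * (b 1).toNat + 4 * (b 2).toNat + 8 * (b 3).toNat, by
    have := (b 0).toNat_le; have := (b 1).toNat_le; have := (b 2).toNat_le; have := (b 3).toNat_le; omega⟩

lemma code_adj : ∀ b b' : Fin 4 → Bool, adj (code b) (code b') = true →
    (∃ i, ∀ j, j ≠ i → b j = b' j) ∨ (∀ i, b' i = !(b i)) := by decide +kernel

lemma code_inj : ∀ b b' : Fin 4 → Bool, code b = code b' → b = b' := by decide +kernel

/-- **combinatorial lemma** -/
lemma eleven (P : (Fin 4 → Bool) → Prop) [DecidablePred P]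
    (h1 : ∀ b b' : Fin 4 → Bool, ∀ i, b ≠ b' → (∀ j, j ≠ i → b j = b' j) → P b ∨ P b')
    (h2 : ∀ b : Fin 4 → Bool, P b ∨ P (fun i => !(b i))) :
    11 ≤ (univ.filter P).card := by
  have h3 : (univ.filter (fun b => ¬ P b)).card ≤ 5 := by
    rw [← card_image_of_injOn (f := code) (fun b _ b' _ h => code_inj b b' h)]
    apply clebsch
    intro a ha a' ha'
    rw [mem_image] at ha ha'
    obtain ⟨b, hb, rfl⟩ := ha
    obtain ⟨b', hb', rfl⟩ := ha'
    rw [mem_filter] at hb hb'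
    by_contra hcon
    have h4 : adj (code b) (code b') = true := by
      cases h : adj (code b) (code b')
      · exact absurd h hcon
      · rfl
    have hne : b ≠ b' := by
      rintro rfl
      have : ∀ a : Fin 16, adj a a = false := by decide +kernel
      rw [this] at h4
      exact absurd h4 (by simp)
    rcases code_adj b b' h4 with ⟨i, hi⟩ | hi
    · rcases h1 b b' i hne hi with h | h
      · exact hb.2 h
      · exact hb'.2 h
    · have e : b' = fun i => !(b i) := funext hi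
      rcases h2 b with h | h
      · exact hb.2 h
      · rw [← e] at h
        exact hb'.2 h
  have h4 := card_filter_add_card_filter_not (s := (univ : Finset (Fin 4 → Bool))) P
  have h5 : (univ : Finset (Fin 4 → Bool)).card = 16 := by decide +kernel
  omega

end Pool.Agent.R512.P
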