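import Pool.Agent.R512.P.Four

/-!
Library R512.P (helper512): sign patterns of functions of `Ω` at four points.
-/

set_option autoImplicit false

namespace Pool.Agent.R512.P

open Finset Filter Topology
open Pool.Agent.Y958.U
open Pool.Agent.Y958.E
open Pool.Agent.R512.Q
open Pool.Agent.Y842.QY (mB mB_le csg)
open Pool.Agent.Helper602.MK (ee)
open ArithmeticFunction (cardFactors)

/-- real sign -/
noncomputable def rs (b : Bool) : ℝ := if b then 1 else -1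

lemma rs_pm (b : Bool) : rs b = 1 ∨ rs b = -1 := by
  unfold rs
  split_ifs
  · exact Or.inl rfl
  · exact Or.inr rfl

lemma rs_not (b : Bool) : rs (!b) = - rs b := by
  unfold rs
  cases b <;> simp

/-- a function of `Ω` with values `±1` -/
def OmS (F : ℕ → ℝ) : Prop := ∃ β : ℕ → ℝ, (∀ l, β l = 1 ∨ β l = -1) ∧ ∀ n, F n = β (cardFactors n)

lemma OmS_coa {F : ℕ → ℝ} (h : OmS F) : Coa (fun n => (F n : ℂ)) := by
  obtain ⟨β, hβ, hF⟩ := h
  have h1 := coa_Om (fun l => ((β l : ℝ) : ℂ)) (fun l => by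
    rw [Complex.norm_real]
    rcases hβ l with h | h <;> rw [h] <;> norm_num)
  have e : (fun n => (F n : ℂ)) = fun n => ((β (cardFactors n) : ℝ) : ℂ) := by
    funext n
    rw [hF n]
  rw [e]
  exact h1

lemma OmS_pm {F : ℕ → ℝ} (h : OmS F) (n : ℕ) : F n = 1 ∨ F n = -1 := by
  obtain ⟨β, hβ, hF⟩ := h
  rw [hF n]
  exact hβ _

open Classical in
/-- the number of the `n ≤ N` with the pattern `s` or `-s` -/
lemma anti_count (F : Fin 4 → ℕ → ℝ) (h : Fin 4 → ℕ) (hF : ∀ i n, 1 ≤ n → F i n = 1 ∨ F i n = -1) (s : Fin 4 → ℝ)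
    (hs : ∀ i, s i = 1 ∨ s i = -1) (N : ℕ) :
    (((Icc 1 N).filter (fun n => (∀ i, F i (n + h i) = s i) ∨ (∀ i, F i (n + h i) = -s i))).card : ℝ) =
      (N + s 0 * s 1 * ∑ n ∈ Icc 1 N, F 0 (n + h 0) * F 1 (n + h 1) +
        s 0 * s 2 * ∑ n ∈ Icc 1 N, F 0 (n + h 0) * F 2 (n + h 2) +
        s 0 * s 3 * ∑ n ∈ Icc 1 N, F 0 (n + h 0) * F 3 (n + h 3) +
        s 1 * s 2 * ∑ n ∈ Icc 1 N, F 1 (n + h 1) * F 2 (n + h 2) +
        s 1 * s 3 * ∑ n ∈ Icc 1 N, F 1 (n + h 1) * F 3 (n + h 3) +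
        s 2 * s 3 * ∑ n ∈ Icc 1 N, F 2 (n + h 2) * F 3 (n + h 3) +
        s 0 * s 1 * s 2 * s 3 * ∑ n ∈ Icc 1 N, F 0 (n + h 0) * F 1 (n + h 1) * F 2 (n + h 2) * F 3 (n + h 3)) / 8 := by
  rw [card_filter]
  push_cast
  have e : ∀ n ∈ Icc 1 N, (if (∀ i, F i (n + h i) = s i) ∨ (∀ i, F i (n + h i) = -s i)
      then (1 : ℝ) else 0) =
      (1 + s 0 * s 1 * (F 0 (n + h 0) * F 1 (n + h 1)) + s 0 * s 2 * (F 0 (n + h 0) * F 2 (n + h 2)) +
        s 0 * s 3 * (F 0 (n + h 0) * F 3 (n + h 3)) + s 1 * s 2 * (F 1 (n + h 1) * F 2 (n + h 2)) +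
        s 1 * s 3 * (F 1 (n + h 1) * F 3 (n + h 3)) + s 2 * s 3 * (F 2 (n + h 2) * F 3 (n + h 3)) +
        s 0 * s 1 * s 2 * s 3 * (F 0 (n + h 0) * F 1 (n + h 1) * F 2 (n + h 2) * F 3 (n + h 3))) / 8 := by
    intro n hn
    rw [mem_Icc] at hn
    have e1 := anti_id (hF 0 (n + h 0) (by omega)) (hF 1 (n + h 1) (by omega))
      (hF 2 (n + h 2) (by omega)) (hF 3 (n + h 3) (by omega)) (hs 0) (hs 1) (hs 2) (hs 3)
    rw [← e1]
    congr 1
    rw [eq_iff_iff]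
    apply or_congr
    · constructor
      · intro a
        exact ⟨a 0, a 1, a 2, a 3⟩
      · rintro ⟨a, b, c, d⟩ i
        fin_cases i
        · exact a
        · exact b
        · exact c
        · exact d
    · constructor
      · intro a
        exact ⟨a 0, a 1, a 2, a 3⟩
      · rintro ⟨a, b, c, d⟩ i
        fin_cases i
        · exact a
        · exact b
        · exact c
        · exact d
  rw [sum_congr rfl e, ← sum_div]
  simp only [sum_add_distrib, ← mul_sum]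
  simp

/-- pairs of points -/
lemma pair_mean (F G : ℕ → ℝ) (hF : OmS F) (hG : Coa (fun n => (G n : ℂ))) (a c : ℕ) (hac : a ≠ c) (ε : ℝ)
    (hε : 0 < ε) : ∃ E : Set ℕ, LZ E ∧ ∀ N : ℕ, N ∉ E → 1 ≤ N → |∑ n ∈ Icc 1 N, F n| ≤ ε * N →
      |∑ n ∈ Icc 1 N, F (n + a) * G (n + c)| ≤ 2 * ε * N := by
  obtain ⟨β, hβ, hFe⟩ := hF
  have hb1 : ∀ l, ‖((β l : ℝ) : ℂ)‖ ≤ 1 := fun l => by
    rw [Complex.norm_real]
    rcases hβ l with h | h <;> rw [h] <;> norm_num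
  refine ⟨_, pairS (fun l => ((β l : ℝ) : ℂ)) hb1 _ hG a c hac ε hε, fun N hN hN1 hm => ?_⟩
  have hN0 : (0 : ℝ) < N := by exact_mod_cast hN1
  have hM : ‖mB (fun l => ((β l : ℝ) : ℂ)) N‖ ≤ ε := by
    unfold Pool.Agent.Y842.QY.mB
    rw [norm_div, Complex.norm_natCast, div_le_iff₀ hN0, ← Complex.ofReal_sum, Complex.norm_real, Real.norm_eq_abs]
    refine le_trans (le_of_eq ?_) hm
    simp only [hFe]
  have h6 : ¬ ((ε + ‖mB (fun l => ((β l : ℝ) : ℂ)) N‖) * N < ‖∑ n ∈ Icc 1 N,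
      ((β (cardFactors (n + a)) : ℝ) : ℂ) * ((G (n + c) : ℝ) : ℂ)‖) := hN
  rw [not_lt] at h6
  have e : ∑ n ∈ Icc 1 N, ((β (cardFactors (n + a)) : ℝ) : ℂ) * ((G (n + c) : ℝ) : ℂ) =
      ((∑ n ∈ Icc 1 N, F (n + a) * G (n + c) : ℝ) : ℂ) := by
    push_cast
    refine sum_congr rfl fun n _ => ?_
    rw [hFe]
  rw [e, Complex.norm_real, Real.norm_eq_abs] at h6
  have h7 := mul_le_mul_of_nonneg_right hM hN0.le
  linarith

/-- **antipodal pairs of patterns** for functions of `Ω` -/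
theorem antiO : ∃ c : ℝ, 0 < c ∧ c < 1 ∧ ∀ h : Fin 4 → ℕ, Function.Injective h → ∀ F : Fin 4 → ℕ → ℝ,
    (∀ i, i ≠ 3 → OmS (F i)) → (∀ n, 1 ≤ n → F 3 n = 1 ∨ F 3 n = -1) → Coa (fun n => (F 3 n : ℂ)) →
    ∃ E : Set ℕ, LZ E ∧ ∀ N : ℕ, N ∉ E → (∀ i, |∑ n ∈ Icc 1 N, F i n| ≤ c * N) →
      ∀ s : Fin 4 → ℝ, (∀ i, s i = 1 ∨ s i = -1) →
      c * N ≤ ((Icc 1 N).filter (fun n => (∀ i, F i (n + h i) = s i) ∨ (∀ i, F i (n + h i) = -s i))).card := by
  classical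
  obtain ⟨c₀, hc0, hc1, hR⟩ := finE 4 2 (by norm_num) (1 / 2) (by norm_num)
  refine ⟨c₀ / 64, by positivity, by linarith, fun h hh F hF hg hgC => ?_⟩
  set ε : ℝ := c₀ / 64 with hε
  have hε0 : 0 < ε := by positivity
  have hne : ∀ i j : Fin 4, i ≠ j → h i ≠ h j := fun i j hij e => hij (hh e)
  have hC : ∀ i, Coa (fun n => (F i n : ℂ)) := by
    intro i
    by_cases hi : i = 3
    · rw [hi]; exact hgC
    · exact OmS_coa (hF i hi)
  have hpm : ∀ i n, 1 ≤ n → F i n = 1 ∨ F i n = -1 := by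
    intro i n hn
    by_cases hi : i = 3
    · rw [hi]; exact hg n hn
    · exact OmS_pm (hF i hi) n
  have hPr : ∀ i j : Fin 4, i ≠ 3 → i ≠ j → _ := fun i j hi hij =>
    pair_mean (F i) (F j) (hF i hi) (hC j) (h i) (h j) (hne i j hij) ε hε0
  obtain ⟨E1, hE1, P1⟩ := hPr 0 1 (by decide) (by decide)
  obtain ⟨E2, hE2, P2⟩ := hPr 0 2 (by decide) (by decide)
  obtain ⟨E3, hE3, P3⟩ := hPr 0 3 (by decide) (by decide)
  obtain ⟨E4, hE4, P4⟩ := hPr 1 2 (by decide) (by decide)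
  obtain ⟨E5, hE5, P5⟩ := hPr 1 3 (by decide) (by decide)
  obtain ⟨E6, hE6, P6⟩ := hPr 2 3 (by decide) (by decide)
  obtain ⟨β, hβ, hβF⟩ := hF 0 (by decide)
  obtain ⟨E7, hE7, h7⟩ := (hR h hh 0 (fun l => ((β l : ℝ) : ℂ)) (fun l => by
    rcases hβ l with h | h <;> rw [h] <;> norm_num)
    (fun i n => ((F i n : ℝ) : ℂ)) (by
      intro i _
      obtain ⟨y, B, u, hB, hu, hFe⟩ := hC i
      exact OM_congr y B u hB hu.1 hu.2 rfl hFe)).1
  refine ⟨_, LZ_union (LZ_union (LZ_union (LZ_union hE1 hE2) (LZ_union hE3 hE4)) (LZ_union (LZ_union hE5 hE6) hE7))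
    (LZ_bdd {N | N < 1} _ fun n hn => hn), fun N hN hm s hs => ?_⟩
  simp only [Set.mem_union, not_or] at hN
  obtain ⟨⟨⟨⟨hN1, hN2⟩, hN3, hN4⟩, ⟨hN5, hN6⟩, hN7⟩, hN8⟩ := hN
  have hN8 : 1 ≤ N := not_lt.1 hN8
  have hN0 : (0 : ℝ) < N := by exact_mod_cast hN8
  have p1 := P1 N hN1 hN8 (hm 0)
  have p2 := P2 N hN2 hN8 (hm 0)
  have p3 := P3 N hN3 hN8 (hm 0)
  have p4 := P4 N hN4 hN8 (hm 1)
  have p5 := P5 N hN5 hN8 (hm 1)
  have p6 := P6 N hN6 hN8 (hm 2)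
  have p7 : |∑ n ∈ Icc 1 N, F 0 (n + h 0) * F 1 (n + h 1) * F 2 (n + h 2) * F 3 (n + h 3)| ≤ (1 - c₀) * N := by
    have hM : ‖mB (fun l => ((β l : ℝ) : ℂ)) N‖ ≤ ε := by
      unfold Pool.Agent.Y842.QY.mB
      rw [norm_div, Complex.norm_natCast, div_le_iff₀ hN0, ← Complex.ofReal_sum, Complex.norm_real, Real.norm_eq_abs]
      refine le_trans (le_of_eq ?_) (hm 0)
      simp only [hβF]
    have h6 := h7 N hN7 (by linarith)
    have e : ∑ n ∈ Icc 1 N, ((β (cardFactors (n + h 0)) : ℝ) : ℂ) * ∏ i ∈ (univ : Finset (Fin 4)).erase 0,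
        ((F i (n + h i) : ℝ) : ℂ) =
        ((∑ n ∈ Icc 1 N, F 0 (n + h 0) * F 1 (n + h 1) * F 2 (n + h 2) * F 3 (n + h 3) : ℝ) : ℂ) := by
      push_cast
      refine sum_congr rfl fun n _ => ?_
      have e1 : (univ : Finset (Fin 4)).erase 0 = {1, 2, 3} := by decide
      rw [e1, prod_insert (by decide), prod_insert (by decide), prod_singleton, hβF]
      ring
    rw [e, norm_div, Complex.norm_natCast, Complex.norm_real, Real.norm_eq_abs, div_le_iff₀ hN0] at h6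
    exact h6
  rw [anti_count F h hpm s hs N]
  have habs : ∀ (r S b : ℝ), (r = 1 ∨ r = -1) → |S| ≤ b → -b ≤ r * S := by
    intro r S b hr hS
    rw [abs_le] at hS
    rcases hr with h | h <;> rw [h] <;> linarith [hS.1, hS.2]
  have hmm : ∀ a b : ℝ, (a = 1 ∨ a = -1) → (b = 1 ∨ b = -1) → (a * b = 1 ∨ a * b = -1) := by
    intro a b ha hb
    rcases ha with rfl | rfl <;> rcases hb with rfl | rfl <;> norm_num
  have q1 := habs _ _ _ (hmm _ _ (hs 0) (hs 1)) p1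
  have q2 := habs _ _ _ (hmm _ _ (hs 0) (hs 2)) p2
  have q3 := habs _ _ _ (hmm _ _ (hs 0) (hs 3)) p3
  have q4 := habs _ _ _ (hmm _ _ (hs 1) (hs 2)) p4
  have q5 := habs _ _ _ (hmm _ _ (hs 1) (hs 3)) p5
  have q6 := habs _ _ _ (hmm _ _ (hs 2) (hs 3)) p6
  have q7 := habs _ _ _ (hmm _ _ (hmm _ _ (hmm _ _ (hs 0) (hs 1)) (hs 2)) (hs 3)) p7
  have hcε : c₀ = 64 * ε := by rw [hε]; ring
  rw [hcε] at q7
  have : 0 < ε * N := by positivity
  linarith

/-- the property of `n` to have the pattern `b` -/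
def HasP (F : Fin 4 → ℕ → ℝ) (h : Fin 4 → ℕ) (b : Fin 4 → Bool) (n : ℕ) : Prop := ∀ i, F i (n + h i) = rs (b i)

open Classical in
/-- **four points**: pairs of patterns which differ in one place or in all places -/
theorem fourO : ∃ c : ℝ, 0 < c ∧ c < 1 ∧ ∀ h : Fin 4 → ℕ, Function.Injective h → ∀ F : Fin 4 → ℕ → ℝ,
    (∀ i, i ≠ 3 → OmS (F i)) → (∀ n, 1 ≤ n → F 3 n = 1 ∨ F 3 n = -1) → Coa (fun n => (F 3 n : ℂ)) →
    ∃ E : Set ℕ, LZ E ∧ ∀ N : ℕ, N ∉ E → (∀ i, |∑ n ∈ Icc 1 N, F i n| ≤ c * N) →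
      (∀ b b' : Fin 4 → Bool, ∀ i, b ≠ b' → (∀ j, j ≠ i → b j = b' j) →
        c * N ≤ ((Icc 1 N).filter (fun n => HasP F h b n ∨ HasP F h b' n)).card) ∧
      ∀ b : Fin 4 → Bool, c * N ≤ ((Icc 1 N).filter (fun n => HasP F h b n ∨ HasP F h (fun i => !(b i)) n)).card := by
  obtain ⟨c₁, hc10, hc11, H1⟩ := three
  obtain ⟨c₂, hc20, hc21, H2⟩ := antiO
  refine ⟨min c₁ c₂, lt_min hc10 hc20, (min_le_left _ _).trans_lt hc11, fun h hh F hF hg hgC => ?_⟩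
  have hC : ∀ i, Coa (fun n => (F i n : ℂ)) := by
    intro i
    by_cases hi : i = 3
    · rw [hi]; exact hgC
    · exact OmS_coa (hF i hi)
  have hpm : ∀ i n, 1 ≤ n → F i n = 1 ∨ F i n = -1 := by
    intro i n hn
    by_cases hi : i = 3
    · rw [hi]; exact hg n hn
    · exact OmS_pm (hF i hi) n
  have s0 : ∀ i : Fin 4, i.succAbove 0 ≠ 3 := by decide
  have s1 : ∀ i : Fin 4, i.succAbove 1 ≠ 3 := by decide
  have h3 : ∀ i : Fin 4, ∃ E : Set ℕ, LZ E ∧ ∀ N : ℕ, N ∉ E → (∀ i, |∑ n ∈ Icc 1 N, F i n| ≤ c₁ * N) →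
      ∀ s t u : ℝ, (s = 1 ∨ s = -1) → (t = 1 ∨ t = -1) → (u = 1 ∨ u = -1) →
      c₁ * N ≤ ((Icc 1 N).filter (fun n => F (i.succAbove 0) (n + h (i.succAbove 0)) = s ∧
        F (i.succAbove 1) (n + h (i.succAbove 1)) = t ∧ F (i.succAbove 2) (n + h (i.succAbove 2)) = u)).card := by
    intro i
    obtain ⟨β₁, hβ₁, e1⟩ := hF _ (s0 i)
    obtain ⟨β₂, hβ₂, e2⟩ := hF _ (s1 i)
    obtain ⟨E, hE, h4⟩ := H1 (fun k => h (i.succAbove k)) (fun a a' haa => Fin.succAbove_right_injective (hh haa))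
      β₁ β₂ hβ₁ hβ₂ (F (i.succAbove 2)) (hpm _) (hC _)
    refine ⟨E, hE, fun N hN hm s t u hs ht hu => ?_⟩
    have m1 := hm (i.succAbove 0)
    have m2 := hm (i.succAbove 1)
    simp only [e1] at m1
    simp only [e2] at m2
    have h5 := h4 N hN m1 m2 (hm _) s t u hs ht hu
    refine h5.trans (le_of_eq ?_)
    simp only [e1, e2]
  choose E hE h4 using h3
  obtain ⟨E', hE', h5⟩ := H2 h hh F hF hg hgC
  have hEE : LZ {N | ∃ r ∈ range 4, N ∈ E (Fin.ofNat 4 r)} := LZ_fin _ _ fun r _ => hE _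
  refine ⟨_, LZ_union hEE hE', fun N hN hm => ?_⟩
  rw [Set.mem_union, not_or] at hN
  have hN0 : (0 : ℝ) ≤ N := Nat.cast_nonneg N
  have hm1 : ∀ i, |∑ n ∈ Icc 1 N, F i n| ≤ c₁ * N := fun i =>
    (hm i).trans (mul_le_mul_of_nonneg_right (min_le_left _ _) hN0)
  have hm2 : ∀ i, |∑ n ∈ Icc 1 N, F i n| ≤ c₂ * N := fun i =>
    (hm i).trans (mul_le_mul_of_nonneg_right (min_le_right _ _) hN0)
  have hNE : ∀ i, N ∉ E i := by
    intro i hi
    apply hN.1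
    refine ⟨i.val, mem_range.2 i.isLt, ?_⟩
    have : Fin.ofNat 4 i.val = i := by
      apply Fin.ext
      simp [Fin.ofNat, Nat.mod_eq_of_lt i.isLt]
    rw [this]
    exact hi
  constructor
  · intro b b' i hne hbb
    have hi : b' i = !(b i) := by
      have h1 : b i ≠ b' i := fun h2 => hne (funext fun k => by
        by_cases hk : k = i
        · rw [hk]; exact h2
        · exact hbb k hk)
      revert h1
      cases b i <;> cases b' i <;> simp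
    have h6 := h4 i N (hNE i) hm1 (rs (b (i.succAbove 0))) (rs (b (i.succAbove 1))) (rs (b (i.succAbove 2)))
      (rs_pm _) (rs_pm _) (rs_pm _)
    refine (mul_le_mul_of_nonneg_right (min_le_left _ _) hN0).trans (h6.trans ?_)
    rw [Nat.cast_le]
    apply card_le_card
    intro n hn
    rw [mem_filter] at hn ⊢
    obtain ⟨hn1, g0, g1, g2⟩ := hn
    refine ⟨hn1, ?_⟩
    have hn2 : 1 ≤ n := (mem_Icc.1 hn1).1
    have hoth : ∀ k, k ≠ i → F k (n + h k) = rs (b k) := by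
      intro k hk
      obtain ⟨k', rfl⟩ := Fin.exists_succAbove_eq hk
      fin_cases k'
      · exact g0
      · exact g1
      · exact g2
    by_cases hxb : F i (n + h i) = rs (b i)
    · left
      intro k
      by_cases hk : k = i
      · rw [hk]; exact hxb
      · exact hoth k hk
    · right
      intro k
      by_cases hk : k = i
      · rw [hk, hi, rs_not]
        rcases hpm i (n + h i) (by omega) with h7 | h7 <;> rcases rs_pm (b i) with h8 | h8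
        · exact absurd (h7.trans h8.symm) hxb
        · rw [h7, h8]; norm_num
        · rw [h7, h8]
        · exact absurd (h7.trans h8.symm) hxb
      · rw [hoth k hk, hbb k hk]
  · intro b
    have h6 := h5 N hN.2 hm2 (fun i => rs (b i)) (fun i => rs_pm _)
    refine (mul_le_mul_of_nonneg_right (min_le_right _ _) hN0).trans (h6.trans (le_of_eq ?_))
    congr 2
    ext n
    rw [mem_filter, mem_filter]
    unfold HasP
    simp only [rs_not]

end Pool.Agent.R512.P
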