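import Pool.Agent.R512.P.NearPer

/-!
Library R512.P (helper512): nearly periodic sequences from continuous functions on the sequence space, and
patterns in all residue classes.
-/

set_option autoImplicit false

namespace Pool.Agent.R512.P

open Finset Filter Topology
open Pool.Agent.Y958.U
open Pool.Agent.Y958.E
open Pool.Agent.R512.G

/-- the space of two-sided sequences of points with `l` coordinates in the closed unit disc -/
abbrev XS (l : ℕ) : Type := ℤ → Fin l → Metric.closedBall (0 : ℂ) 1

/-- modulus of continuity -/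
lemma modulus {l : ℕ} (P : Fin l → Prop) (Φ : XS l → ℝ) (hΦ : Continuous Φ)
    (hP : ∀ x y : XS l, (∀ (k : ℤ) (j : Fin l), P j → x k j = y k j) → Φ x = Φ y) (ε : ℝ) (hε : 0 < ε) :
    ∃ K : ℕ, ∃ δ : ℝ, 0 < δ ∧ ∀ x y : XS l, (∀ k : ℤ, |k| ≤ K → ∀ j, P j → ‖(x k j : ℂ) - y k j‖ ≤ δ) →
      |Φ x - Φ y| ≤ ε := by
  by_contra hcon
  push Not at hcon
  have h1 : ∀ K : ℕ, ∃ x y : XS l, (∀ k : ℤ, |k| ≤ K → ∀ j, P j → ‖(x k j : ℂ) - y k j‖ ≤ 1 / ((K : ℝ) + 1)) ∧
      ε < |Φ x - Φ y| := fun K => hcon K _ (by positivity)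
  choose x y hxy hd using h1
  set 𝓤 : Ultrafilter ℕ := hyperfilter ℕ with h𝓤
  have hU : (𝓤 : Filter ℕ) ≤ atTop := Nat.hyperfilter_le_atTop
  obtain ⟨a, -, ha⟩ := (isCompact_univ (X := XS l)).ultrafilter_le_nhds (𝓤.map x) (by simp)
  obtain ⟨b, -, hb⟩ := (isCompact_univ (X := XS l)).ultrafilter_le_nhds (𝓤.map y) (by simp)
  have ha : Tendsto x 𝓤 (𝓝 a) := ha
  have hb : Tendsto y 𝓤 (𝓝 b) := hb
  have hab : Φ a = Φ b := by
    apply hP
    intro k j hj
    have c1 : Continuous (fun z : XS l => (z k j : ℂ)) := by fun_prop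
    have t1 := ((c1.tendsto a).comp ha).sub ((c1.tendsto b).comp hb)
    have t2 := t1.norm
    have t3 : Tendsto (fun K : ℕ => 1 / ((K : ℝ) + 1)) 𝓤 (𝓝 0) :=
      tendsto_one_div_add_atTop_nhds_zero_nat.mono_left hU
    have t4 : ‖(a k j : ℂ) - b k j‖ ≤ 0 := by
      refine le_of_tendsto_of_tendsto t2 t3 ?_
      have h2 : ∀ᶠ K : ℕ in (𝓤 : Filter ℕ), k.natAbs ≤ K := hU (eventually_ge_atTop k.natAbs)
      filter_upwards [h2] with K hK
      have h3 : |k| ≤ (K : ℤ) := by
        rw [Int.abs_eq_natAbs]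
        exact_mod_cast hK
      exact hxy K k h3 j hj
    have t5 := norm_le_zero_iff.1 t4
    exact Subtype.ext (sub_eq_zero.1 t5)
  have t6 := (((hΦ.tendsto a).comp ha).sub ((hΦ.tendsto b).comp hb)).abs
  have t7 : ε ≤ |Φ a - Φ b| := ge_of_tendsto t6 (Eventually.of_forall fun K => (hd K).le)
  rw [hab, sub_self, abs_zero] at t7
  linarith

lemma per_mul {w : ℕ → ℂ} {Q : ℕ} (h : ∀ n, w (n + Q) = w n) {Q' : ℕ} (hd : Q ∣ Q') (n : ℕ) : w (n + Q') = w n := by
  obtain ⟨k, rfl⟩ := hd
  induction k with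
  | zero => simp
  | succ k ih => rw [mul_add, mul_one, ← add_assoc, h, ih]

/-- **near periodicity** of continuous functions of nearly periodic coordinates -/
theorem nper_of {l : ℕ} (F : XS l) (P : Fin l → Prop)
    (hAP : ∀ j, P j → AP (fun n => if n = 0 then 0 else ((F (n : ℤ) j : Metric.closedBall (0 : ℂ) 1) : ℂ)))
    (Φ : XS l → ℝ) (hΦ : Continuous Φ) (h0 : ∀ x, 0 ≤ Φ x) (h1 : ∀ x, Φ x ≤ 1)
    (hP : ∀ x y : XS l, (∀ (k : ℤ) (j : Fin l), P j → x k j = y k j) → Φ x = Φ y) :
    NPer (fun n => Φ (fun k => F (k + (n : ℤ)))) := by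
  classical
  intro ε hε
  obtain ⟨K, δ, hδ, hmod⟩ := modulus P Φ hΦ hP (ε / 4) (by positivity)
  set L : ℝ := (2 * (K : ℝ) + 1) * ((l : ℝ) + 1) with hL
  have hL0 : 0 < L := by positivity
  set η : ℝ := ε * δ / (8 * L) with hη
  have hη0 : 0 < η := by positivity
  set f : Fin l → ℕ → ℂ := fun j n => if n = 0 then 0 else ((F (n : ℤ) j : Metric.closedBall (0 : ℂ) 1) : ℂ) with hf
  have h2 : ∀ j, ∃ (Q : ℕ) (w : ℕ → ℂ) (N₀ : ℕ), 1 ≤ Q ∧ (∀ n, ‖w n‖ ≤ 1) ∧ (∀ n, w (n + Q) = w n) ∧
      ∀ N : ℕ, N₀ ≤ N → ∃ u : ℂ, ‖u‖ = 1 ∧ (P j → ∑ n ∈ range N, ‖f j n - u * w n‖ ≤ η * N) := by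
    intro j
    by_cases hj : P j
    · obtain ⟨Q, w, hQ, hw1, hwQ, N₀, hN₀⟩ := hAP j hj η hη0
      refine ⟨Q, w, N₀, hQ, hw1, hwQ, fun N hN => ?_⟩
      obtain ⟨u, hu, h3⟩ := hN₀ N hN
      exact ⟨u, hu, fun _ => h3⟩
    · exact ⟨1, fun _ => 0, 0, le_rfl, fun _ => by simp, fun _ => rfl, fun N _ => ⟨1, by simp, fun h => absurd h hj⟩⟩
  choose Q w N₀ hQ hw1 hwQ hap using h2
  set QQ : ℕ := ∏ j, Q j with hQQ
  have hQQ1 : 1 ≤ QQ := Nat.one_le_iff_ne_zero.2 (prod_ne_zero_iff.2 fun j _ => by have := hQ j; omega)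
  have hdvd : ∀ j, Q j ∣ QQ := fun j => dvd_prod_of_mem Q (mem_univ j)
  obtain ⟨K', hK'⟩ := exists_nat_ge (4 * ((K : ℝ) + 1) / ε)
  refine ⟨QQ, hQQ1, ∑ j, N₀ j + K' + K + 1, fun N hN => ?_⟩
  have hNj : ∀ j, N₀ j ≤ N + K + 1 := fun j => by
    have h3 := single_le_sum (f := fun j => N₀ j) (fun _ _ => Nat.zero_le _) (mem_univ j)
    have h4 : N₀ j ≤ ∑ j, N₀ j := h3
    omega
  choose u hu hsum using fun j => hap j (N + K + 1) (hNj j)
  have hN0 : (0 : ℝ) < N := by exact_mod_cast (by omega : 0 < N)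
  have hKN : 4 * ((K : ℝ) + 1) ≤ ε * N := by
    have h4 : 4 * ((K : ℝ) + 1) / ε ≤ N := hK'.trans (by exact_mod_cast (by omega : K' ≤ N))
    rw [div_le_iff₀ hε] at h4
    linarith
  have hmem : ∀ j m, u j * w j m ∈ Metric.closedBall (0 : ℂ) 1 := fun j m => by
    rw [mem_closedBall_zero_iff, norm_mul, hu j, one_mul]
    exact hw1 j m
  set V : ℕ → XS l := fun n k j => ⟨u j * w j (n + (k + K * QQ).toNat), hmem j _⟩ with hV
  refine ⟨fun n => Φ (V n), fun n => h0 _, fun n => h1 _, fun n => ?_, ?_⟩
  · have e1 : V (n + QQ) = V n := by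
      funext k j
      simp only [hV]
      apply Subtype.ext
      show u j * w j (n + QQ + (k + K * QQ).toNat) = u j * w j (n + (k + K * QQ).toNat)
      rw [show n + QQ + (k + K * QQ).toNat = n + (k + K * QQ).toNat + QQ by ring, per_mul (hwQ j) (hdvd j)]
    show Φ (V (n + QQ)) = Φ (V n)
    rw [e1]
  · -- the differences
    set D : ℕ → ℝ := fun n => ∑ t ∈ range (2 * K + 1), ∑ j : Fin l, if P j then ‖f j (n + t) - u j * w j (n + t)‖ else 0
      with hD
    have hD0 : ∀ n, 0 ≤ D n := fun n => sum_nonneg fun t _ => sum_nonneg fun j _ => by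
      split_ifs
      · exact norm_nonneg _
      · exact le_rfl
    have hkey : ∀ n, K < n → |Φ (fun k => F (k + (n : ℤ))) - Φ (V n)| ≤ ε / 4 + D (n - K) / δ := by
      intro n hn
      by_cases hall : ∀ k : ℤ, |k| ≤ K → ∀ j, P j → ‖((F (k + (n : ℤ)) j : Metric.closedBall (0 : ℂ) 1) : ℂ) - V n k j‖ ≤ δ
      · have h5 := hmod (fun k => F (k + (n : ℤ))) (V n) hall
        have h6 : 0 ≤ D (n - K) / δ := div_nonneg (hD0 _) hδ.le
        linarith
      · push Not at hall
        obtain ⟨k, hk, j, hj, hlt⟩ := hall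
        have h5 : |Φ (fun k => F (k + (n : ℤ))) - Φ (V n)| ≤ 1 := by
          rw [abs_le]
          have a1 := h0 (fun k => F (k + (n : ℤ)))
          have a2 := h1 (fun k => F (k + (n : ℤ)))
          have a3 := h0 (V n)
          have a4 := h1 (V n)
          constructor <;> linarith
        have h6 : 1 ≤ D (n - K) / δ := by
          rw [le_div_iff₀ hδ, one_mul]
          refine hlt.le.trans ?_
          have hkK := abs_le.1 hk
          set t : ℕ := (k + K).toNat with ht
          have htm : t ∈ range (2 * K + 1) := by rw [mem_range]; omega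
          have h7 : (if P j then ‖f j (n - K + t) - u j * w j (n - K + t)‖ else 0) ≤ D (n - K) := by
            refine le_trans ?_ (single_le_sum (f := fun t => ∑ j : Fin l, if P j then
              ‖f j (n - K + t) - u j * w j (n - K + t)‖ else 0) (fun t _ => sum_nonneg fun j _ => by
                split_ifs
                · exact norm_nonneg _
                · exact le_rfl) htm)
            exact single_le_sum (f := fun j : Fin l => if P j then
              ‖f j (n - K + t) - u j * w j (n - K + t)‖ else 0) (fun j _ => by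
                split_ifs
                · exact norm_nonneg _
                · exact le_rfl) (mem_univ j)
          rw [if_pos hj] at h7
          refine le_trans (le_of_eq ?_) h7
          have e1 : (((n - K + t : ℕ) : ℕ) : ℤ) = k + (n : ℤ) := by omega
          have e2 : n - K + t ≠ 0 := by omega
          have e3 : w j (n + (k + K * QQ).toNat) = w j (n - K + t) := by
            have h8 : K ≤ K * QQ := Nat.le_mul_of_pos_right K hQQ1
            have h9 : n + (k + K * QQ).toNat = (n - K + t) + K * QQ := by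
              push_cast
              have : ((K * QQ : ℕ) : ℤ) = (K : ℤ) * (QQ : ℤ) := by push_cast; rfl
              omega
            rw [h9, per_mul (hwQ j) ((hdvd j).trans (dvd_mul_left _ _))]
          simp only [hf, hV]
          rw [if_neg e2, e1, e3]
        linarith
    have hsplit : Icc 1 N = (Icc 1 N).filter (fun n => n ≤ K) ∪ (Icc 1 N).filter (fun n => ¬ n ≤ K) :=
      (filter_union_filter_not_eq _ _).symm
    rw [hsplit, sum_union (disjoint_filter_filter_not _ _ _)]
    have hpart1 : ∑ n ∈ (Icc 1 N).filter (fun n => n ≤ K), |Φ (fun k => F (k + (n : ℤ))) - Φ (V n)| ≤ K := by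
      calc ∑ n ∈ (Icc 1 N).filter (fun n => n ≤ K), |Φ (fun k => F (k + (n : ℤ))) - Φ (V n)| ≤
            ∑ n ∈ (Icc 1 N).filter (fun n => n ≤ K), (1 : ℝ) := by
            refine sum_le_sum fun n _ => ?_
            rw [abs_le]
            have a1 := h0 (fun k => F (k + (n : ℤ)))
            have a2 := h1 (fun k => F (k + (n : ℤ)))
            have a3 := h0 (V n)
            have a4 := h1 (V n)
            constructor <;> linarith
        _ ≤ K := by
            rw [sum_const, nsmul_eq_mul, mul_one]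
            have : ((Icc 1 N).filter (fun n => n ≤ K)).card ≤ (Icc 1 K).card := card_le_card (fun n hn => by
              rw [mem_filter, mem_Icc] at hn
              exact mem_Icc.2 ⟨hn.1.1, hn.2⟩)
            rw [Nat.card_Icc, Nat.add_sub_cancel] at this
            exact_mod_cast this
    have hpart2 : ∑ n ∈ (Icc 1 N).filter (fun n => ¬ n ≤ K), |Φ (fun k => F (k + (n : ℤ))) - Φ (V n)| ≤
        ε / 4 * N + L * (η * ((N + K + 1 : ℕ) : ℝ)) / δ := by
      have h5 : ∑ n ∈ (Icc 1 N).filter (fun n => ¬ n ≤ K), |Φ (fun k => F (k + (n : ℤ))) - Φ (V n)| ≤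
          ∑ n ∈ (Icc 1 N).filter (fun n => ¬ n ≤ K), (ε / 4 + D (n - K) / δ) := by
        refine sum_le_sum fun n hn => ?_
        rw [mem_filter, not_le] at hn
        exact hkey n hn.2
      refine h5.trans ?_
      rw [sum_add_distrib]
      apply add_le_add
      · rw [sum_const, nsmul_eq_mul, mul_comm]
        apply mul_le_mul_of_nonneg_left _ (by positivity)
        have := card_filter_le (Icc 1 N) (fun n => ¬ n ≤ K)
        rw [Nat.card_Icc, Nat.add_sub_cancel] at this
        exact_mod_cast this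
      · rw [← sum_div]
        apply div_le_div_of_nonneg_right _ hδ.le
        simp only [hD]
        rw [sum_comm]
        have h6 : ∀ t ∈ range (2 * K + 1), ∑ n ∈ (Icc 1 N).filter (fun n => ¬ n ≤ K), ∑ j : Fin l,
            (if P j then ‖f j (n - K + t) - u j * w j (n - K + t)‖ else 0) ≤ ((l : ℝ) + 1) * (η * ((N + K + 1 : ℕ) : ℝ)) := by
          intro t ht
          rw [mem_range] at ht
          rw [sum_comm]
          have h7 : ∀ j : Fin l, ∑ n ∈ (Icc 1 N).filter (fun n => ¬ n ≤ K),
              (if P j then ‖f j (n - K + t) - u j * w j (n - K + t)‖ else 0) ≤ η * ((N + K + 1 : ℕ) : ℝ) := by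
            intro j
            by_cases hj : P j
            · simp only [if_pos hj]
              refine le_trans ?_ (hsum j hj)
              have h8 : ∑ n ∈ (Icc 1 N).filter (fun n => ¬ n ≤ K), ‖f j (n - K + t) - u j * w j (n - K + t)‖ =
                  ∑ m ∈ ((Icc 1 N).filter (fun n => ¬ n ≤ K)).image (fun n => n - K + t), ‖f j m - u j * w j m‖ := by
                rw [sum_image]
                intro x hx y hy hxy
                rw [mem_coe, mem_filter, not_le] at hx hy
                have hxy : x - K + t = y - K + t := hxy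
                omega
              rw [h8]
              apply sum_le_sum_of_subset_of_nonneg
              · intro m hm
                rw [mem_image] at hm
                obtain ⟨n, hn, rfl⟩ := hm
                rw [mem_filter, mem_Icc, not_le] at hn
                rw [mem_range]
                omega
              · intro m _ _
                exact norm_nonneg _
            · simp only [if_neg hj, sum_const_zero]
              positivity
          refine (sum_le_sum fun j _ => h7 j).trans ?_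
          rw [sum_const, card_univ, Fintype.card_fin, nsmul_eq_mul]
          apply mul_le_mul_of_nonneg_right _ (by positivity)
          linarith
        refine (sum_le_sum h6).trans (le_of_eq ?_)
        rw [sum_const, card_range, nsmul_eq_mul, hL]
        push_cast
        ring
    have h10 : ((N + K + 1 : ℕ) : ℝ) ≤ 2 * N := by exact_mod_cast (by omega : N + K + 1 ≤ 2 * N)
    have h11 : L * (η * ((N + K + 1 : ℕ) : ℝ)) / δ ≤ ε / 4 * N := by
      rw [div_le_iff₀ hδ]
      have h12 : L * (η * ((N + K + 1 : ℕ) : ℝ)) ≤ L * (η * (2 * N)) := by gcongr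
      refine h12.trans (le_of_eq ?_)
      rw [hη]
      field_simp
      ring
    linarith

end Pool.Agent.R512.P
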