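import Pool.Agent.R512.P.TwoFG

/-!
Library R512.P (helper512): correlations with negative shifts `- p h`, for most primes `p` of a scale.
-/

set_option autoImplicit false

namespace Pool.Agent.R512.P

open Finset Filter Topology
open Pool.Agent.TH112.BL (Bd QD win)
open Pool.Agent.TH823.MRS (ExpoSmall gen Sm nu nu_eq pp_family)
open Pool.Agent.Helper602.MK (PP)
open Pool.Agent.H373R2.T7 (exI energy)
open Pool.Agent.Y958.TC

/-- the function shifted to the right -/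
def fm (f : ℕ → ℤ) (n t : ℕ) : ℤ := if t < n then f (n - t) else 0

lemma fm_le {f : ℕ → ℤ} (hb : ∀ n, |f n| ≤ 1) (n t : ℕ) : |fm f n t| ≤ 1 := by
  unfold fm
  split_ifs
  · exact hb _
  · simp

/-- for all but few primes `p` the correlations of `f` at the shift `p h` with `L` weights are small -/
lemma mrsN (f : ℕ → ℤ) (hb : ∀ n, |f n| ≤ 1) (hE : ExpoSmall (fun n => (f n : ℂ))) (h : ℕ) (hh : 1 ≤ h)
    (L : ℕ) (ε : ℝ) (hε : 0 < ε) :
    ∃ k₀ : ℕ, ∀ k : ℕ, k₀ ≤ k → ∃ N₀ : ℕ, ∀ N : ℕ, N₀ ≤ N → ∀ g : Fin L → ℕ → ℝ, (∀ l n, |g l n| ≤ 1) →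
      ∀ (Bad : ℕ → Prop) [DecidablePred Bad], (∀ p, Bad p → ∃ l, ∃ X ≤ N,
        ε * N < |∑ n ∈ Icc 1 X, g l n * fm f n (p * h)|) →
        (((PP k).filter Bad).card : ℝ) ≤ ε * (PP k).card := by
  classical
  obtain ⟨C, hC, k0, hk0, hfam⟩ := pp_family
  have hbC : ∀ n, ‖((f n : ℤ) : ℂ)‖ ≤ 1 := by
    intro n
    rw [Complex.norm_intCast]
    exact_mod_cast hb n
  obtain ⟨H₀, N₀, h1⟩ := gen (fun n => (f n : ℂ)) hbC hE 1 L ε hε 2 (C * h)
  refine ⟨H₀ + k0, fun k hk => ⟨N₀ + h * k, fun N hN g hg Bad _ hBad => ?_⟩⟩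
  obtain ⟨s, hs1, hs2, hs3, hs4⟩ := hfam k (by omega)
  have hhr : (1 : ℝ) ≤ h := by exact_mod_cast hh
  have hle : k ≤ h * k := Nat.le_mul_of_pos_left _ (by omega)
  have h2 := h1 N (h * k) (by omega) (by omega) (by omega) (PP k).card (fun m => (-(h : ℤ)) * s m) (by
      intro m hm
      rw [abs_mul, abs_neg]
      push_cast
      rw [abs_of_nonneg (by positivity : (0 : ℤ) ≤ h)]
      exact mul_le_mul_of_nonneg_left (hs1 m hm) (by positivity)) (by
      rw [energy_mul _ s (-(h : ℤ)) (by omega)]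
      push_cast
      calc (energy 2 (PP k).card s : ℝ) * (h * k) = h * ((energy 2 (PP k).card s : ℝ) * k) := by ring
        _ ≤ h * (C * ((PP k).card : ℝ) ^ (2 * 2)) := mul_le_mul_of_nonneg_left hs2 (by linarith)
        _ = _ := by ring) (fun _ => 1) (fun _ => 0) (fun l n => ((g l n : ℝ) : ℂ)) (fun _ => le_rfl)
      (fun _ => by positivity) (fun l n => by
        rw [Complex.norm_real, Real.norm_eq_abs]; exact hg l n)
  rw [hs3 Bad]
  rw [nu_eq] at h2
  refine le_trans ?_ h2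
  apply Nat.cast_le.2
  apply card_le_card
  intro m hm
  rw [mem_filter] at hm ⊢
  refine ⟨hm.1, fun hSm => ?_⟩
  obtain ⟨l, X, hX, hlt⟩ := hBad _ hm.2
  have h3 := hSm l X (by simpa using hX)
  have e1 : ∑ n ∈ Icc 1 X, ((g l n : ℝ) : ℂ) * exI (fun n => (f n : ℂ)) (((1 : ℕ) : ℤ) * n + 0 + (-(h : ℤ)) * s m) =
      ((∑ n ∈ Icc 1 X, g l n * fm f n ((s m).toNat * h) : ℝ) : ℂ) := by
    rw [Complex.ofReal_sum]
    apply sum_congr rfl
    intro n hn
    rw [mem_Icc] at hn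
    rw [Complex.ofReal_mul]
    congr 1
    have h4 := hs4 m hm.1
    unfold exI fm
    have h6 : (h : ℤ) * s m = (((s m).toNat * h : ℕ) : ℤ) := by
      push_cast
      rw [Int.toNat_of_nonneg h4]
      ring
    have h7 : ((1 : ℕ) : ℤ) * n + 0 + (-(h : ℤ)) * s m = (n : ℤ) - (((s m).toNat * h : ℕ) : ℤ) := by
      rw [← h6]; push_cast; ring
    rw [h7]
    by_cases hlt' : (s m).toNat * h < n
    · rw [if_pos hlt', if_pos (by omega)]
      have h8 : ((n : ℤ) - (((s m).toNat * h : ℕ) : ℤ)).toNat = n - (s m).toNat * h := by omega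
      rw [h8]
      simp
    · rw [if_neg hlt', if_neg (by omega)]
      simp
  have h3 : ‖∑ n ∈ Icc 1 X, ((g l n : ℝ) : ℂ) * exI (fun n => (f n : ℂ)) (((1 : ℕ) : ℤ) * n + 0 + (-(h : ℤ)) * s m)‖ ≤ ε * N := h3
  rw [e1, Complex.norm_real, Real.norm_eq_abs] at h3
  linarith

/-- the weighted sum over the primes of a scale of the averages at a fixed large `M` -/
lemma mrs2N (f : ℕ → ℤ) (hb : ∀ n, |f n| ≤ 1) (hE : ExpoSmall (fun n => (f n : ℂ))) (h : ℕ) (hh : 1 ≤ h)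
    (L : ℕ) (ε : ℝ) (hε : 0 < ε) :
    ∃ I₀ : ℕ, ∀ i : ℕ, I₀ ≤ i → ∃ N₀ : ℕ, ∀ M : ℕ, N₀ ≤ M → ∀ g : Fin L → ℕ → ℝ, (∀ l n, |g l n| ≤ 1) →
      ∀ l : ℕ → Fin L, ∑ p ∈ QD i (i + 1), Real.log p / 2 ^ i *
        |Av M (fun n => g (l p) n * fm f n (p * h))| ≤ 20 * ε := by
  classical
  obtain ⟨k₀, h1⟩ := mrsN f hb hE h hh L ε hε
  refine ⟨k₀ + 1, fun i hi => ?_⟩
  have hk : k₀ ≤ 2 ^ (i + 1) := by
    have : i + 1 < 2 ^ (i + 1) := Nat.lt_two_pow_self
    omega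
  obtain ⟨N₀, h2⟩ := h1 (2 ^ (i + 1)) hk
  refine ⟨N₀ + ⌈1 / ε⌉₊ + 1, fun M hM g hg l => ?_⟩
  have hM0 : (0 : ℝ) < M := by exact_mod_cast (by omega : 0 < M)
  have h5 : (0 : ℝ) < 2 ^ i := by positivity
  have h2M : 1 / (M : ℝ) ≤ ε := by
    have h6 : 1 / ε ≤ M := (Nat.le_ceil _).trans (by exact_mod_cast (by omega : ⌈1 / ε⌉₊ ≤ M))
    rw [div_le_iff₀ hε] at h6
    rw [div_le_iff₀ hM0]
    linarith
  set Bad : ℕ → Prop := fun p => 2 * ε < |Av M (fun n => g (l p) n * fm f n (p * h))| with hBad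
  have hfr : ∀ n t, |(fm f n t : ℝ)| ≤ 1 := by
    intro n t; exact_mod_cast fm_le hb n t
  have hgf : ∀ l' n p, |g l' n * fm f n (p * h)| ≤ 1 := by
    intro l' n p
    rw [abs_mul]
    calc |g l' n| * |(fm f n (p * h) : ℝ)| ≤ 1 * 1 := mul_le_mul (hg _ _) (hfr _ _) (abs_nonneg _) zero_le_one
      _ = 1 := one_mul 1
  have h3 := h2 M (by omega) g hg Bad (by
    intro p hp
    refine ⟨l p, M - 1, by omega, ?_⟩
    have hp : 2 * ε < |Av M (fun n => g (l p) n * fm f n (p * h))| := hp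
    unfold Av at hp
    rw [abs_div, abs_of_pos hM0, lt_div_iff₀ hM0] at hp
    have h4 : ∑ n ∈ range M, g (l p) n * (fm f n (p * h) : ℝ) =
        g (l p) 0 * fm f 0 (p * h) + ∑ n ∈ Icc 1 (M - 1), g (l p) n * (fm f n (p * h) : ℝ) := by
      rw [← sum_erase_add (range M) _ (mem_range.2 (by omega : 0 < M)), add_comm]
      congr 1
      apply sum_congr _ (fun _ _ => rfl)
      ext n
      simp only [mem_erase, mem_range, mem_Icc]
      omega
    rw [h4] at hp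
    have h6 := abs_add_le (g (l p) 0 * (fm f 0 (p * h) : ℝ)) (∑ n ∈ Icc 1 (M - 1), g (l p) n * (fm f n (p * h) : ℝ))
    have h7 := hgf (l p) 0 p
    have h8 : 1 ≤ ε * M := by
      rw [div_le_iff₀ hM0] at h2M
      linarith
    linarith)
  have hsub : (QD i (i + 1)).filter Bad ⊆ (PP (2 ^ (i + 1))).filter Bad := by
    intro p hp
    rw [mem_filter] at hp ⊢
    refine ⟨?_, hp.2⟩
    have h4 := hp.1
    unfold QD at h4
    rw [mem_filter, mem_Ioc] at h4
    unfold PP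
    rw [mem_filter, mem_Icc]
    refine ⟨⟨h4.2.one_lt.le, h4.1.2⟩, h4.2, ?_⟩
    have h6 : 2 ^ i < p := h4.1.1
    have h7 : 2 ≤ p := h4.2.two_le
    calc 2 ^ (i + 1) = 2 ^ i * 2 := pow_succ 2 i
      _ < p * p := Nat.mul_lt_mul_of_lt_of_le h6 h7 (by omega)
      _ = p ^ 2 := (sq p).symm
  have hw : ∀ p ∈ QD i (i + 1), Real.log p / 2 ^ i ≤ ((i : ℝ) + 1) * Real.log 2 / 2 ^ i := by
    intro p hp
    have h4 := hp
    unfold QD at h4
    rw [mem_filter, mem_Ioc] at h4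
    apply div_le_div_of_nonneg_right _ h5.le
    have h6 : (p : ℝ) ≤ 2 ^ (i + 1) := by exact_mod_cast h4.1.2
    have h7 := Real.log_le_log (by exact_mod_cast h4.2.pos) h6
    rw [Real.log_pow] at h7
    push_cast at h7
    exact h7
  have hw0 : ∀ p ∈ QD i (i + 1), 0 ≤ Real.log (p : ℝ) / 2 ^ i := fun p _ =>
    div_nonneg (Real.log_natCast_nonneg _) h5.le
  have hA : ∀ p, |Av M (fun n => g (l p) n * fm f n (p * h))| ≤ 1 := fun p =>
    Av_bd zero_le_one (fun n => hgf _ _ _) M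
  have h10 : ∑ p ∈ QD i (i + 1), Real.log (p : ℝ) / 2 ^ i ≤ 3 := by
    rw [← sum_div, div_le_iff₀ h5]
    exact Pool.Agent.TH575.CW.theta_QD i
  rw [← sum_filter_add_sum_filter_not (QD i (i + 1)) Bad]
  have h11 : ∑ p ∈ (QD i (i + 1)).filter Bad, Real.log p / 2 ^ i *
      |Av M (fun n => g (l p) n * fm f n (p * h))| ≤ 12 * ε := by
    calc ∑ p ∈ (QD i (i + 1)).filter Bad, Real.log p / 2 ^ i *
          |Av M (fun n => g (l p) n * fm f n (p * h))| ≤
          ∑ p ∈ (QD i (i + 1)).filter Bad, ((i : ℝ) + 1) * Real.log 2 / 2 ^ i := by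
          apply sum_le_sum
          intro p hp
          rw [mem_filter] at hp
          calc Real.log p / 2 ^ i * |Av M (fun n => g (l p) n * fm f n (p * h))| ≤
                Real.log p / 2 ^ i * 1 := mul_le_mul_of_nonneg_left (hA p) (hw0 p hp.1)
            _ ≤ _ := by rw [mul_one]; exact hw p hp.1
      _ = ((QD i (i + 1)).filter Bad).card * (((i : ℝ) + 1) * Real.log 2 / 2 ^ i) := by
          rw [sum_const, nsmul_eq_mul]
      _ ≤ (ε * (PP (2 ^ (i + 1))).card) * (((i : ℝ) + 1) * Real.log 2 / 2 ^ i) := by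
          apply mul_le_mul_of_nonneg_right _ (by positivity)
          refine le_trans ?_ h3
          exact_mod_cast card_le_card hsub
      _ = ε * (((PP (2 ^ (i + 1))).card * Real.log ((2 ^ (i + 1) : ℕ) : ℝ)) / 2 ^ i) := by
          push_cast
          rw [Real.log_pow]
          push_cast
          ring
      _ ≤ ε * ((6 * ((2 ^ (i + 1) : ℕ) : ℝ)) / 2 ^ i) := by
          apply mul_le_mul_of_nonneg_left _ hε.le
          apply div_le_div_of_nonneg_right _ h5.le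
          apply PP_card_le
          calc 2 = 2 ^ 1 := rfl
            _ ≤ 2 ^ (i + 1) := Nat.pow_le_pow_right (by norm_num) (by omega)
      _ = 12 * ε := by
          push_cast
          rw [pow_succ]
          field_simp
          ring
  have h12 : ∑ p ∈ (QD i (i + 1)).filter (fun p => ¬ Bad p), Real.log p / 2 ^ i *
      |Av M (fun n => g (l p) n * fm f n (p * h))| ≤ 6 * ε := by
    calc ∑ p ∈ (QD i (i + 1)).filter (fun p => ¬ Bad p), Real.log p / 2 ^ i *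
          |Av M (fun n => g (l p) n * fm f n (p * h))| ≤
          ∑ p ∈ (QD i (i + 1)).filter (fun p => ¬ Bad p), Real.log p / 2 ^ i * (2 * ε) := by
          apply sum_le_sum
          intro p hp
          rw [mem_filter] at hp
          apply mul_le_mul_of_nonneg_left _ (hw0 p hp.1)
          exact not_lt.1 hp.2
      _ ≤ ∑ p ∈ QD i (i + 1), Real.log p / 2 ^ i * (2 * ε) := by
          apply sum_le_sum_of_subset_of_nonneg (filter_subset _ _)
          intro p hp _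
          exact mul_nonneg (hw0 p hp) (by linarith)
      _ = (∑ p ∈ QD i (i + 1), Real.log (p : ℝ) / 2 ^ i) * (2 * ε) := by rw [sum_mul]
      _ ≤ 3 * (2 * ε) := mul_le_mul_of_nonneg_right h10 (by linarith)
      _ = 6 * ε := by ring
  linarith

/-- the same for the natural means along an ultrafilter -/
lemma mrs3N (f : ℕ → ℤ) (hb : ∀ n, |f n| ≤ 1) (hE : ExpoSmall (fun n => (f n : ℂ))) (h : ℕ) (hh : 1 ≤ h)
    (L : ℕ) (ε : ℝ) (hε : 0 < ε) :
    ∃ I₀ : ℕ, ∀ i : ℕ, I₀ ≤ i → ∀ (𝓤 : Ultrafilter ℕ) (hU : (𝓤 : Filter ℕ) ≤ atTop)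
      (g : Fin L → ℕ → ℝ), (∀ l n, |g l n| ≤ 1) →
      ∀ l : ℕ → Fin L, ∑ p ∈ QD i (i + 1), Real.log p / 2 ^ i *
        |(um 𝓤 hU).m (fun n => g (l p) n * fm f n (p * h))| ≤ 20 * ε := by
  obtain ⟨I₀, h1⟩ := mrs2N f hb hE h hh L ε hε
  refine ⟨I₀, fun i hi 𝓤 hU g hg l => ?_⟩
  obtain ⟨N₀, h2⟩ := h1 i hi
  have hfr : ∀ n t, |(fm f n t : ℝ)| ≤ 1 := by
    intro n t; exact_mod_cast fm_le hb n t
  have h3 : Tendsto (fun M => ∑ p ∈ QD i (i + 1), Real.log p / 2 ^ i *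
      |Av M (fun n => g (l p) n * fm f n (p * h))|) 𝓤 (𝓝 (∑ p ∈ QD i (i + 1), Real.log p / 2 ^ i *
        |(um 𝓤 hU).m (fun n => g (l p) n * fm f n (p * h))|)) := by
    apply tendsto_finsetSum
    intro p _
    apply Tendsto.const_mul
    apply Tendsto.abs
    apply um_tendsto
    refine ⟨1, fun n => ?_⟩
    rw [abs_mul]
    calc |g (l p) n| * |(fm f n (p * h) : ℝ)| ≤ 1 * 1 := mul_le_mul (hg _ _) (hfr _ _) (abs_nonneg _) zero_le_one
      _ = 1 := one_mul 1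
  apply le_of_tendsto h3
  filter_upwards [hU (eventually_ge_atTop N₀)] with M hM
  exact h2 M hM g hg l


end Pool.Agent.R512.P
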