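import Pool.Agent.R512.P.Real3

/-!
Library R512.P (helper512): patterns with positive density in all residue classes against nearly periodic
sequences.
-/

set_option autoImplicit false

namespace Pool.Agent.R512.P

open Finset Filter Topology
open Pool.Agent.Y958.U
open Pool.Agent.Y958.E
open Pool.Agent.R512.G

/-- logarithmic averages of nearly nonnegative sums -/
lemma log_nonneg (a : ℕ → ℝ) (ha : ∀ n, |a n| ≤ 1)
    (h : ∀ ε : ℝ, 0 < ε → LZ {N : ℕ | ∑ n ∈ Icc 1 N, a n < -(ε * N)}) (ε : ℝ) (hε : 0 < ε) :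
    ∃ X₀ : ℕ, ∀ X : ℕ, X₀ ≤ X → -(ε * Real.log X) ≤ ∑ n ∈ Icc 1 X, a n / n := by
  have hψ0 : ∀ n, 0 ≤ (1 - a n) / 2 := fun n => by have := (abs_le.1 (ha n)).2; linarith
  have hcast : ∀ (N : ℕ) (w : ℕ → ℝ), ∑ n ∈ Icc 1 N, (((1 - a n) / 2 : ℝ) : ℂ) * ((w n : ℝ) : ℂ) =
      ((∑ n ∈ Icc 1 N, (1 - a n) / 2 * w n : ℝ) : ℂ) := by
    intro N w; push_cast; rfl
  obtain ⟨X₀, hX₀⟩ := logC (fun n => (((1 - a n) / 2 : ℝ) : ℂ)) (fun _ => 1) (fun n => by
    rw [Complex.norm_real, Real.norm_eq_abs, abs_of_nonneg (hψ0 n)]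
    have := (abs_le.1 (ha n)).1
    linarith) (fun _ => zero_le_one) (1 / 2) (ε / 16) (by norm_num) (by positivity) (by
    refine LZ_sub ?_ (h (ε / 8) (by positivity))
    intro N hN
    have hN : (1 - 1 / 2) * ∑ n ∈ Icc 1 N, (1 : ℝ) + ε / 16 * N < ‖∑ n ∈ Icc 1 N, (((1 - a n) / 2 : ℝ) : ℂ)‖ := hN
    have h1 := hcast N (fun _ => 1)
    simp only [Complex.ofReal_one, mul_one] at h1
    rw [h1, Complex.norm_real, Real.norm_eq_abs, abs_of_nonneg (sum_nonneg fun n _ => hψ0 n)] at hN
    show ∑ n ∈ Icc 1 N, a n < -(ε / 8 * N)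
    have h2 : ∑ n ∈ Icc 1 N, (1 - a n) / 2 = (N - ∑ n ∈ Icc 1 N, a n) / 2 := by
      rw [← sum_div, sum_sub_distrib]
      simp
    rw [h2] at hN
    simp only [sum_const, Nat.card_Icc, Nat.add_sub_cancel, nsmul_eq_mul, mul_one] at hN
    linarith)
  refine ⟨X₀ + 2, fun X hX => ?_⟩
  have h1 := hX₀ X (by omega)
  have h2 := hcast X (fun n => 1 / (n : ℝ))
  have e : ∑ n ∈ Icc 1 X, (((1 - a n) / 2 : ℝ) : ℂ) / (n : ℂ) =
      ∑ n ∈ Icc 1 X, (((1 - a n) / 2 : ℝ) : ℂ) * (((1 / (n : ℝ) : ℝ)) : ℂ) := by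
    refine sum_congr rfl fun n _ => ?_
    push_cast
    ring
  rw [e, h2, Complex.norm_real, Real.norm_eq_abs, abs_of_nonneg (sum_nonneg fun n _ =>
    mul_nonneg (hψ0 n) (by positivity))] at h1
  have h3 : ∑ n ∈ Icc 1 X, (1 - a n) / 2 * (1 / (n : ℝ)) = (∑ n ∈ Icc 1 X, (1 : ℝ) / n - ∑ n ∈ Icc 1 X, a n / n) / 2 := by
    rw [← sum_sub_distrib, sum_div]
    refine sum_congr rfl fun n _ => ?_
    ring
  rw [h3] at h1
  have h5 : 0 ≤ Real.log X := Real.log_natCast_nonneg X
  nlinarith

open Classical in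
/-- pull back by division -/
lemma LZ_div {E : Set ℕ} (hE : LZ E) (Q : ℕ) (hQ : 1 ≤ Q) : LZ {N | N / Q ∈ E} := by
  rw [LZ_iff] at hE ⊢
  intro ε hε
  obtain ⟨X₀, h1⟩ := hE (ε / 2) (by positivity)
  have hlog : Tendsto (fun X : ℕ => Real.log X) atTop atTop :=
    Real.tendsto_log_atTop.comp tendsto_natCast_atTop_atTop
  obtain ⟨X₁, hX₁⟩ := eventually_atTop.1 (hlog.eventually_ge_atTop ((Q : ℝ) / (ε / 2)))
  refine ⟨X₀ * Q + X₁ + Q + 1, fun X hX => ?_⟩
  have h2 := hX₁ X (by omega)
  rw [div_le_iff₀ (by positivity)] at h2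
  have hXQ : X₀ ≤ X / Q := by
    rw [Nat.le_div_iff_mul_le (by omega)]
    omega
  have h3 := h1 (X / Q) hXQ
  have h4 : Real.log ((X / Q : ℕ) : ℝ) ≤ Real.log X := by
    have h5 : 1 ≤ X / Q := by
      rw [Nat.le_div_iff_mul_le (by omega)]
      omega
    apply Real.log_le_log (by exact_mod_cast h5)
    exact_mod_cast Nat.div_le_self X Q
  have key : ls {N | N / Q ∈ E} X ≤ Q + ls E (X / Q) := by
    unfold ls
    have hsplit : Icc 1 X = (Icc 1 X).filter (fun n => n < Q) ∪ (Icc 1 X).filter (fun n => ¬ n < Q) :=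
      (filter_union_filter_not_eq _ _).symm
    rw [hsplit, sum_union (disjoint_filter_filter_not _ _ _)]
    apply add_le_add
    · calc ∑ N ∈ (Icc 1 X).filter (fun n => n < Q), (if N ∈ {N | N / Q ∈ E} then (1 : ℝ) / N else 0) ≤
            ∑ N ∈ (Icc 1 X).filter (fun n => n < Q), (1 : ℝ) := by
            refine sum_le_sum fun N hN => ?_
            rw [mem_filter, mem_Icc] at hN
            split_ifs
            · rw [div_le_one (by exact_mod_cast hN.1.1)]
              exact_mod_cast hN.1.1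
            · exact zero_le_one
        _ ≤ Q := by
            rw [sum_const, nsmul_eq_mul, mul_one]
            have : ((Icc 1 X).filter (fun n => n < Q)).card ≤ (range Q).card := card_le_card (fun n hn => by
              rw [mem_filter] at hn
              exact mem_range.2 hn.2)
            rw [card_range] at this
            exact_mod_cast this
    · have hmap : ∀ N ∈ (Icc 1 X).filter (fun n => ¬ n < Q), N / Q ∈ Icc 1 (X / Q) := by
        intro N hN
        rw [mem_filter, mem_Icc, not_lt] at hN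
        rw [mem_Icc]
        exact ⟨(Nat.one_le_div_iff (by omega)).2 hN.2, Nat.div_le_div_right hN.1.2⟩
      rw [← sum_fiberwise_of_maps_to hmap]
      refine sum_le_sum fun M hM => ?_
      rw [mem_Icc] at hM
      have hQ0 : (0 : ℝ) < Q := by exact_mod_cast hQ
      have hM0 : (0 : ℝ) < M := by exact_mod_cast hM.1
      calc ∑ N ∈ ((Icc 1 X).filter (fun n => ¬ n < Q)).filter (fun N => N / Q = M),
            (if N ∈ {N | N / Q ∈ E} then (1 : ℝ) / N else 0) ≤
            ∑ N ∈ ((Icc 1 X).filter (fun n => ¬ n < Q)).filter (fun N => N / Q = M),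
              (if M ∈ E then (1 : ℝ) / (Q * M) else 0) := by
            refine sum_le_sum fun N hN => ?_
            rw [mem_filter] at hN
            have h5 : (N ∈ {N | N / Q ∈ E}) ↔ M ∈ E := by
              show N / Q ∈ E ↔ M ∈ E
              rw [hN.2]
            by_cases h6 : M ∈ E
            · rw [if_pos h6, if_pos (h5.2 h6)]
              apply one_div_le_one_div_of_le (by positivity)
              have h7 : Q * (N / Q) ≤ N := Nat.mul_div_le N Q
              rw [hN.2] at h7
              exact_mod_cast h7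
            · rw [if_neg h6, if_neg (fun h => h6 (h5.1 h))]
        _ = (((Icc 1 X).filter (fun n => ¬ n < Q)).filter (fun N => N / Q = M)).card *
              (if M ∈ E then (1 : ℝ) / (Q * M) else 0) := by
            rw [sum_const, nsmul_eq_mul]
        _ ≤ Q * (if M ∈ E then (1 : ℝ) / (Q * M) else 0) := by
            apply mul_le_mul_of_nonneg_right _ (by split_ifs <;> positivity)
            have h8 : (((Icc 1 X).filter (fun n => ¬ n < Q)).filter (fun N => N / Q = M)).card ≤
                (Ico (Q * M) (Q * M + Q)).card := by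
              apply card_le_card
              intro N hN
              rw [mem_filter] at hN
              rw [mem_Ico]
              have h9 := Nat.div_add_mod N Q
              have h10 := Nat.mod_lt N (by omega : 0 < Q)
              rw [hN.2] at h9
              omega
            rw [Nat.card_Ico, Nat.add_sub_cancel_left] at h8
            exact_mod_cast h8
        _ = (if M ∈ E then (1 : ℝ) / M else 0) := by
            split_ifs
            · field_simp
            · simp
  nlinarith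

open Classical in
/-- shifts to the left -/
lemma LZ_sub_shift {E : Set ℕ} (hE : LZ E) (r : ℕ) : LZ {N | N - r ∈ E} := by
  rw [LZ_iff] at hE ⊢
  intro ε hε
  obtain ⟨X₀, h1⟩ := hE (ε / 2) (by positivity)
  have hlog : Tendsto (fun X : ℕ => Real.log X) atTop atTop :=
    Real.tendsto_log_atTop.comp tendsto_natCast_atTop_atTop
  obtain ⟨X₁, hX₁⟩ := eventually_atTop.1 (hlog.eventually_ge_atTop ((r : ℝ) / (ε / 2)))
  refine ⟨X₀ + X₁ + 1, fun X hX => ?_⟩
  have h2 := hX₁ X (by omega)
  rw [div_le_iff₀ (by positivity)] at h2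
  have h3 := h1 X (by omega)
  have key : ls {N | N - r ∈ E} X ≤ r + ls E X := by
    unfold ls
    have hsplit : Icc 1 X = (Icc 1 X).filter (fun n => n ≤ r) ∪ (Icc 1 X).filter (fun n => ¬ n ≤ r) :=
      (filter_union_filter_not_eq _ _).symm
    nth_rewrite 1 [hsplit]
    rw [sum_union (disjoint_filter_filter_not _ _ _)]
    apply add_le_add
    · calc ∑ N ∈ (Icc 1 X).filter (fun n => n ≤ r), (if N ∈ {N | N - r ∈ E} then (1 : ℝ) / N else 0) ≤
            ∑ N ∈ (Icc 1 X).filter (fun n => n ≤ r), (1 : ℝ) := by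
            refine sum_le_sum fun N hN => ?_
            rw [mem_filter, mem_Icc] at hN
            split_ifs
            · rw [div_le_one (by exact_mod_cast hN.1.1)]
              exact_mod_cast hN.1.1
            · exact zero_le_one
        _ ≤ r := by
            rw [sum_const, nsmul_eq_mul, mul_one]
            have : ((Icc 1 X).filter (fun n => n ≤ r)).card ≤ (Icc 1 r).card := card_le_card (fun n hn => by
              rw [mem_filter, mem_Icc] at hn
              exact mem_Icc.2 ⟨hn.1.1, hn.2⟩)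
            rw [Nat.card_Icc, Nat.add_sub_cancel] at this
            exact_mod_cast this
    · have h5 : ∑ N ∈ (Icc 1 X).filter (fun n => ¬ n ≤ r), (if N ∈ {N | N - r ∈ E} then (1 : ℝ) / N else 0) ≤
          ∑ N ∈ (Icc 1 X).filter (fun n => ¬ n ≤ r), (if N - r ∈ E then (1 : ℝ) / ((N - r : ℕ) : ℝ) else 0) := by
        refine sum_le_sum fun N hN => ?_
        rw [mem_filter, mem_Icc, not_le] at hN
        by_cases h6 : N - r ∈ E
        · rw [if_pos h6, if_pos (show N ∈ {N | N - r ∈ E} from h6)]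
          apply one_div_le_one_div_of_le (by exact_mod_cast (by omega : 0 < N - r))
          exact_mod_cast Nat.sub_le N r
        · rw [if_neg h6, if_neg (show ¬ N ∈ {N | N - r ∈ E} from h6)]
      refine h5.trans ?_
      have h7 : ∑ N ∈ (Icc 1 X).filter (fun n => ¬ n ≤ r), (if N - r ∈ E then (1 : ℝ) / ((N - r : ℕ) : ℝ) else 0) =
          ∑ M ∈ ((Icc 1 X).filter (fun n => ¬ n ≤ r)).image (fun N => N - r), (if M ∈ E then (1 : ℝ) / M else 0) := by
        rw [sum_image]
        intro x hx y hy hxy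
        rw [mem_coe, mem_filter, mem_Icc, not_le] at hx hy
        have hxy : x - r = y - r := hxy
        omega
      rw [h7]
      apply sum_le_sum_of_subset_of_nonneg
      · intro M hM
        rw [mem_image] at hM
        obtain ⟨N, hN, rfl⟩ := hM
        rw [mem_filter, mem_Icc, not_le] at hN
        rw [mem_Icc]
        omega
      · intro M _ _
        split_ifs <;> positivity
  nlinarith

/-- nearly periodic sequences with values in `[0, 1]`, with approximations depending on the scale -/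
def NPer (φ : ℕ → ℝ) : Prop := ∀ ε : ℝ, 0 < ε → ∃ (Q : ℕ), 1 ≤ Q ∧ ∃ N₀ : ℕ, ∀ N : ℕ, N₀ ≤ N →
  ∃ v : ℕ → ℝ, (∀ n, 0 ≤ v n) ∧ (∀ n, v n ≤ 1) ∧ (∀ n, v (n + Q) = v n) ∧
    ∑ n ∈ Icc 1 N, |φ n - v n| ≤ ε * N

/-- positive density in all residue classes -/
def AllCls (pat : ℕ → ℝ) (c : ℝ) : Prop := ∀ Q r : ℕ, 1 ≤ Q →
  LZ {M : ℕ | ∑ m ∈ Icc 1 M, pat (Q * m + r) < c * M}

open Classical in
lemma near_core {pat φ : ℕ → ℝ} {c : ℝ} (hp0 : ∀ n, 0 ≤ pat n) (hp1 : ∀ n, pat n ≤ 1) (hc0 : 0 ≤ c) (hc1 : c ≤ 1)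
    (hpat : AllCls pat c) (hφ : NPer φ) (ε : ℝ) (hε : 0 < ε) :
    LZ {N : ℕ | ∑ n ∈ Icc 1 N, φ n * (pat n - c) < -(ε * N)} := by
  obtain ⟨Q, hQ, N₀, hN₀⟩ := hφ (ε / 2) (by positivity)
  obtain ⟨K, hK⟩ := exists_nat_ge (4 * (Q : ℝ) / ε)
  have hE : LZ {N | ∃ r ∈ range Q, N ∈ {N | (N - r) / Q ∈ {M : ℕ | ∑ m ∈ Icc 1 M, pat (Q * m + r) < c * M}}} := by
    apply LZ_fin
    intro r _
    have h1 := LZ_div (hpat Q r hQ) Q hQ
    have h2 := Pool.Agent.R512.P.LZ_sub_shift h1 r
    exact h2
  refine LZ_sub ?_ (LZ_union hE (LZ_bdd {N | N < N₀ + K + Q + 1} _ fun n hn => hn))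
  intro N hN
  by_contra hcon
  rw [Set.mem_union, not_or] at hcon
  have h2 : ¬ (N < N₀ + K + Q + 1) := hcon.2
  rw [not_lt] at h2
  have hNr : ∀ r < Q, c * (((N - r) / Q : ℕ) : ℝ) ≤ ∑ m ∈ Icc 1 ((N - r) / Q), pat (Q * m + r) := by
    intro r hr
    by_contra h3
    exact hcon.1 ⟨r, mem_range.2 hr, not_le.1 h3⟩
  have hN0 : (0 : ℝ) < N := by exact_mod_cast (by omega : 0 < N)
  have hQN : 4 * (Q : ℝ) ≤ ε * N := by
    have h4 : 4 * (Q : ℝ) / ε ≤ N := hK.trans (by exact_mod_cast (by omega : K ≤ N))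
    rw [div_le_iff₀ hε] at h4
    linarith
  obtain ⟨v, hv0, hv1, hvQ, hv⟩ := hN₀ N (by omega)
  have habs : ∀ n, |pat n - c| ≤ 1 := fun n => by
    rw [abs_le]
    constructor <;> linarith [hp0 n, hp1 n]
  -- periodic part
  have hper : ∀ n, v n = v (n % Q) := by
    intro n
    have h1 : ∀ k m, v (m + Q * k) = v m := by
      intro k
      induction k with
      | zero => intro m; simp
      | succ k ih => intro m; rw [mul_add, mul_one, ← add_assoc, hvQ, ih]
    have h2 := h1 (n / Q) (n % Q)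
    rwa [Nat.mod_add_div] at h2
  have e1 : ∑ n ∈ Icc 1 N, v n * (pat n - c) =
      ∑ r ∈ range Q, v r * ∑ n ∈ (Icc 1 N).filter (fun n => n % Q = r), (pat n - c) := by
    rw [← sum_fiberwise_of_maps_to (g := fun n => n % Q) (t := range Q)
      (fun n _ => mem_range.2 (Nat.mod_lt n hQ))]
    refine sum_congr rfl fun r _ => ?_
    rw [mul_sum]
    refine sum_congr rfl fun n hn => ?_
    rw [mem_filter] at hn
    rw [hper n, hn.2]
  have e2 : ∀ r < Q, -1 ≤ ∑ n ∈ (Icc 1 N).filter (fun n => n % Q = r), (pat n - c) := by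
    intro r hr
    have e3 : ∑ n ∈ (Icc 1 N).filter (fun n => n % Q = r), (pat n - c) =
        ∑ m ∈ Icc (if r = 0 then 1 else 0) ((N - r) / Q), (pat (Q * m + r) - c) := by
      symm
      apply sum_nbij (fun m => Q * m + r)
      · intro m hm
        rw [mem_Icc] at hm
        rw [mem_filter, mem_Icc]
        have h5 : Q * m ≤ N - r := by
          have := Nat.mul_le_mul_left Q hm.2
          exact this.trans (Nat.mul_div_le _ _)
        refine ⟨⟨?_, by omega⟩, ?_⟩
        · by_cases hr0 : r = 0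
          · rw [if_pos hr0] at hm
            have : 1 ≤ Q * m := Nat.mul_pos hQ hm.1
            omega
          · omega
        · rw [Nat.mul_add_mod, Nat.mod_eq_of_lt hr]
      · intro x _ y _ hxy
        have hxy : Q * x + r = Q * y + r := hxy
        exact Nat.eq_of_mul_eq_mul_left hQ (by omega)
      · intro n hn
        rw [mem_coe, mem_filter, mem_Icc] at hn
        have h5 := Nat.div_add_mod n Q
        refine ⟨n / Q, ?_, by show Q * (n / Q) + r = n; omega⟩
        rw [mem_coe, mem_Icc]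
        constructor
        · by_cases hr0 : r = 0
          · rw [if_pos hr0, Nat.one_le_div_iff hQ]
            by_contra h6
            have := Nat.mod_eq_of_lt (not_le.1 h6)
            omega
          · rw [if_neg hr0]; exact Nat.zero_le _
        · rw [Nat.le_div_iff_mul_le hQ, mul_comm]
          omega
      · intro m _
        rfl
    have h6 := hNr r hr
    have h7 : ∑ m ∈ Icc 1 ((N - r) / Q), (pat (Q * m + r) - c) =
        ∑ m ∈ Icc 1 ((N - r) / Q), pat (Q * m + r) - c * (((N - r) / Q : ℕ) : ℝ) := by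
      rw [sum_sub_distrib]
      simp only [sum_const, Nat.card_Icc, Nat.add_sub_cancel, nsmul_eq_mul]
      ring
    rw [e3]
    split_ifs with hr0
    · rw [h7]; linarith
    · have h8 : Icc 0 ((N - r) / Q) = insert 0 (Icc 1 ((N - r) / Q)) := by
        generalize (N - r) / Q = t
        ext m; simp only [mem_Icc, mem_insert]; omega
      rw [h8, sum_insert (by simp), h7]
      have := (abs_le.1 (habs (Q * 0 + r))).1
      linarith
  have e4 : -(Q : ℝ) ≤ ∑ n ∈ Icc 1 N, v n * (pat n - c) := by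
    rw [e1]
    have h9 : ∑ r ∈ range Q, (-1 : ℝ) ≤ ∑ r ∈ range Q, v r *
        ∑ n ∈ (Icc 1 N).filter (fun n => n % Q = r), (pat n - c) := by
      refine sum_le_sum fun r hr => ?_
      have h10 := e2 r (mem_range.1 hr)
      have h11 := hv0 r
      have h12 := hv1 r
      nlinarith
    refine le_trans (le_of_eq ?_) h9
    simp
  have e5 : |∑ n ∈ Icc 1 N, φ n * (pat n - c) - ∑ n ∈ Icc 1 N, v n * (pat n - c)| ≤ ε / 2 * N := by
    rw [← sum_sub_distrib]
    refine (abs_sum_le_sum_abs _ _).trans (le_trans (sum_le_sum fun n _ => ?_) hv)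
    rw [← sub_mul, abs_mul]
    exact mul_le_of_le_one_right (abs_nonneg _) (habs n)
  have e6 := (abs_le.1 e5).1
  have hN' : ∑ n ∈ Icc 1 N, φ n * (pat n - c) < -(ε * N) := hN
  linarith

end Pool.Agent.R512.P
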