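import Pool.Agent.R512.P.TwoGF
import Pool.Agent.R512.G.Fin
import Pool.Agent.Y842.EL.Dens

/-!
Library R512.P (helper512): two point correlations of two multiplicative functions with values `±1`, one of
which pretends to be no real character.
-/

set_option autoImplicit false

namespace Pool.Agent.R512.P

open Finset Filter Topology
open Pool.Agent.Y872.L (CM NonPret cm_abs)
open Pool.Agent.Y868.VR (MB NP mz gg)
open Pool.Agent.Y958.U
open Pool.Agent.Y958.E
open Pool.Agent.Y958.TC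
open Pool.Agent.R512.G

/-- multiplicative with values `±1` -/
structure MS (g : ℕ → ℤ) : Prop where
  val : ∀ n, 1 ≤ n → g n = 1 ∨ g n = -1
  mul : ∀ m n, 1 ≤ m → 1 ≤ n → Nat.Coprime m n → g (m * n) = g m * g n

/-- removing the value at zero -/
def z0 (g : ℕ → ℤ) (n : ℕ) : ℤ := if n = 0 then 0 else g n

lemma z0_pos (g : ℕ → ℤ) {n : ℕ} (hn : 1 ≤ n) : z0 g n = g n := by
  unfold z0
  rw [if_neg (by omega)]

lemma z0_le {g : ℕ → ℤ} (hg : MS g) (n : ℕ) : |z0 g n| ≤ 1 := by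
  unfold z0
  split_ifs with h
  · simp
  · rcases hg.val n (by omega) with h1 | h1 <;> rw [h1] <;> simp

lemma z0_dil {g : ℕ → ℤ} (hg : MS g) (p n : ℕ) (hp : p.Prime) (hpn : ¬ p ∣ n) :
    z0 g (p * n) = (if p = 0 then 1 else g p) * z0 g n := by
  have hn : n ≠ 0 := fun h => hpn (h ▸ dvd_zero p)
  rw [if_neg hp.ne_zero]
  unfold z0
  rw [if_neg (Nat.mul_ne_zero hp.ne_zero hn), if_neg hn]
  exact hg.mul p n hp.pos (Nat.pos_of_ne_zero hn) ((Nat.Prime.coprime_iff_not_dvd hp).2 hpn)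

lemma ms_v {g : ℕ → ℤ} (hg : MS g) (p : ℕ) : (if p = 0 then 1 else g p) = 1 ∨ (if p = 0 then 1 else g p) = -1 := by
  split_ifs with h
  · left; rfl
  · exact hg.val p (by omega)

lemma cm_ms {f : ℕ → ℤ} (hf : CM f) : MS f :=
  ⟨fun n hn => hf.val n hn, fun m n _ _ _ => hf.mul m n⟩

lemma z0_cm {f : ℕ → ℤ} (hf : CM f) (n : ℕ) : z0 f n = f n := by
  unfold z0
  split_ifs with h
  · rw [h, hf.zero]
  · rfl

/-- the two orders together -/
lemma pair0 {f g : ℕ → ℤ} (hf : CM f) (hn : NonPret f) (hg : MS g) (a c : ℕ) (hac : a ≠ c) (q : ℕ) (hq : 1 ≤ q)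
    (w : ℕ → ℝ) (hw1 : ∀ n, |w n| ≤ 1) (hwq : ∀ n, w (n + q) = w n) (δ : ℝ) (hδ : 0 < δ) :
    LZ {N | δ * N < |∑ n ∈ Icc 1 N, w (n + min a c) * f (n + a) * g (n + c)|} := by
  -- the function on all of `ℕ`
  set t : ℕ := min a c with ht
  set φ : ℕ → ℝ := fun n => w n * (z0 f (n + (a - t)) : ℝ) * (z0 g (n + (c - t)) : ℝ) with hφ
  have hta : t ≤ a := min_le_left _ _
  have htc : t ≤ c := min_le_right _ _
  have hφ1 : ∀ n, |φ n| ≤ 1 := by
    intro n
    simp only [hφ]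
    rw [abs_mul, abs_mul]
    have h1 : |(z0 f (n + (a - t)) : ℝ)| ≤ 1 := by exact_mod_cast z0_le (cm_ms hf) _
    have h2 : |(z0 g (n + (c - t)) : ℝ)| ≤ 1 := by exact_mod_cast z0_le hg _
    calc |w n| * |(z0 f (n + (a - t)) : ℝ)| * |(z0 g (n + (c - t)) : ℝ)| ≤ 1 * 1 * 1 := by
          gcongr
          exact hw1 n
      _ = 1 := by norm_num
  have key : LZ {N | δ / 2 < |Av N φ|} := by
    rcases lt_or_gt_of_ne hac with h | h
    · have ht' : t = a := min_eq_left h.le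
      have h1 := twoGF (nullLZ s_avc) (z0 g) (z0 f) (z0_le hg) (z0_le (cm_ms hf))
        (fun p => if p = 0 then 1 else g p) (fun p => if p = 0 then 1 else f p) (ms_v hg) (ms_v (cm_ms hf))
        (z0_dil hg) (z0_dil (cm_ms hf)) (by
          have e : (fun n => ((z0 f n : ℤ) : ℂ)) = fun n => ((f n : ℤ) : ℂ) := by
            funext n; rw [z0_cm hf]
          rw [e]
          exact expoS hf hn) (by simp [z0]) (c - a) (by omega) q hq w hw1 hwq (δ / 2) (by positivity)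
      have e : φ = fun n => w n * (z0 f n : ℝ) * (z0 g (n + (c - a)) : ℝ) := by
        funext n
        simp only [hφ]
        rw [ht', Nat.sub_self, add_zero]
      rw [e]
      exact h1
    · have ht' : t = c := min_eq_right h.le
      have h1 := twoFG (nullLZ s_avc) (z0 g) (z0 f) (z0_le hg) (z0_le (cm_ms hf))
        (fun p => if p = 0 then 1 else g p) (fun p => if p = 0 then 1 else f p) (ms_v hg) (ms_v (cm_ms hf))
        (z0_dil hg) (z0_dil (cm_ms hf)) (by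
          have e : (fun n => ((z0 f n : ℤ) : ℂ)) = fun n => ((f n : ℤ) : ℂ) := by
            funext n; rw [z0_cm hf]
          rw [e]
          exact expoS hf hn) (a - c) (by omega) q hq w hw1 hwq (δ / 2) (by positivity)
      have e : φ = fun n => w n * (z0 g n : ℝ) * (z0 f (n + (a - c)) : ℝ) := by
        funext n
        simp only [hφ]
        rw [ht', Nat.sub_self, add_zero]
        ring
      rw [e]
      exact h1
  obtain ⟨K, hK⟩ := exists_nat_ge (4 * ((t : ℝ) + 1) / δ)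
  refine LZ_sub ?_ (LZ_union key (LZ_bdd {N | N < K + 1} _ fun n hn => hn))
  intro N hN
  by_contra hcon
  rw [Set.mem_union, not_or] at hcon
  have h1 : ¬ (δ / 2 < |Av N φ|) := hcon.1
  have h2 : ¬ (N < K + 1) := hcon.2
  rw [not_lt] at h1 h2
  have hN0 : (0 : ℝ) < N := by exact_mod_cast (by omega : 0 < N)
  have h3 : 4 * ((t : ℝ) + 1) ≤ δ * N := by
    have h4 : 4 * ((t : ℝ) + 1) / δ ≤ N := hK.trans (by exact_mod_cast (by omega : K ≤ N))
    rw [div_le_iff₀ hδ] at h4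
    linarith
  have hN' : δ * N < |∑ n ∈ Icc 1 N, w (n + t) * f (n + a) * g (n + c)| := hN
  have e1 : ∑ n ∈ Icc 1 N, w (n + t) * (f (n + a) : ℝ) * (g (n + c) : ℝ) = ∑ n ∈ Icc 1 N, φ (n + t) := by
    refine sum_congr rfl fun n hn => ?_
    rw [mem_Icc] at hn
    simp only [hφ]
    rw [show n + t + (a - t) = n + a by omega, show n + t + (c - t) = n + c by omega,
      z0_pos f (by omega), z0_pos g (by omega)]
  have e2 : ∑ n ∈ Icc 1 N, φ (n + t) = ∑ n ∈ range (N + t + 1), φ n - ∑ n ∈ range (t + 1), φ n := by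
    have h5 : ∑ n ∈ Icc 1 N, φ (n + t) = ∑ n ∈ Ico (t + 1) (N + t + 1), φ n := by
      have h6 : Icc 1 N = Ico 1 (N + 1) := by
        ext n; simp only [mem_Icc, mem_Ico]; omega
      rw [h6, sum_Ico_add' φ 1 (N + 1) t]
      congr 1
      ext n
      simp only [mem_Ico]
      omega
    rw [h5, sum_Ico_eq_sub _ (by omega)]
  have e3 : ∑ n ∈ range (N + t + 1), φ n = ∑ n ∈ range N, φ n + ∑ n ∈ Ico N (N + t + 1), φ n :=
    (sum_range_add_sum_Ico φ (by omega)).symm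
  have h6 : |∑ n ∈ Ico N (N + t + 1), φ n| ≤ t + 1 := by
    refine (abs_sum_le_sum_abs _ _).trans ((sum_le_sum fun n _ => hφ1 n).trans (le_of_eq ?_))
    rw [sum_const, Nat.card_Ico, nsmul_eq_mul, mul_one, show N + t + 1 - N = t + 1 by omega]
    push_cast; ring
  have h7 : |∑ n ∈ range (t + 1), φ n| ≤ t + 1 := by
    refine (abs_sum_le_sum_abs _ _).trans ((sum_le_sum fun n _ => hφ1 n).trans (le_of_eq ?_))
    rw [sum_const, card_range, nsmul_eq_mul, mul_one]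
    push_cast; ring
  have h8 : |∑ n ∈ range N, φ n| ≤ δ / 2 * N := by
    unfold Av at h1
    rw [abs_div, abs_of_pos hN0, div_le_iff₀ hN0] at h1
    exact h1
  rw [e1, e2, e3] at hN'
  have h9 := abs_sub (∑ n ∈ range N, φ n + ∑ n ∈ Ico N (N + t + 1), φ n) (∑ n ∈ range (t + 1), φ n)
  have h10 := abs_add_le (∑ n ∈ range N, φ n) (∑ n ∈ Ico N (N + t + 1), φ n)
  linarith

open Classical in
/-- all periodic weights at once -/
lemma pairW {f g : ℕ → ℤ} (hf : CM f) (hn : NonPret f) (hg : MS g) (a c : ℕ) (hac : a ≠ c) (Q : ℕ) (hQ : 1 ≤ Q)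
    (ε : ℝ) (hε : 0 < ε) : ∃ E : Set ℕ, LZ E ∧ ∀ N : ℕ, N ∉ E → ∀ w : ℕ → ℂ, (∀ n, ‖w n‖ ≤ 1) →
      (∀ n, w (n + Q) = w n) →
      ‖∑ n ∈ Icc 1 N, w (n + min a c) * ((f (n + a) : ℤ) : ℂ) * ((g (n + c) : ℤ) : ℂ)‖ ≤ ε * N := by
  have hQ0 : (0 : ℝ) < Q := by exact_mod_cast hQ
  obtain ⟨E, hE⟩ : ∃ E : ℕ → Set ℕ, ∀ r N, N ∈ E r ↔ ε / Q * N < |∑ n ∈ Icc 1 N,
    (if (n + min a c) % Q = r then (1 : ℝ) else 0) * f (n + a) * g (n + c)| :=
    ⟨fun r => {N | ε / Q * N < |∑ n ∈ Icc 1 N,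
      (if (n + min a c) % Q = r then (1 : ℝ) else 0) * f (n + a) * g (n + c)|}, fun r N => Iff.rfl⟩
  have hEL : ∀ r ∈ range Q, LZ (E r) := by
    intro r _
    have h1 := pair0 hf hn hg a c hac Q hQ (fun m => if m % Q = r then (1 : ℝ) else 0) (fun n => by
      beta_reduce
      split_ifs <;> simp) (fun n => by
      beta_reduce
      rw [Nat.add_mod_right]) (ε / Q) (by positivity)
    refine LZ_sub (fun N hN => ?_) h1
    exact (hE r N).1 hN
  refine ⟨{n | ∃ r ∈ range Q, n ∈ E r}, LZ_fin (range Q) E hEL, ?_⟩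
  · intro N hN w hw1 hwQ
    have hN' : ∀ r < Q, |∑ n ∈ Icc 1 N, (if (n + min a c) % Q = r then (1 : ℝ) else 0) * f (n + a) * g (n + c)| ≤
        ε / Q * N := by
      intro r hr
      by_contra hcon
      apply hN
      exact ⟨r, mem_range.2 hr, (hE r N).2 (not_le.1 hcon)⟩
    have hper : ∀ n, w n = w (n % Q) := by
      intro n
      have h1 : ∀ k m, w (m + Q * k) = w m := by
        intro k
        induction k with
        | zero => intro m; simp
        | succ k ih => intro m; rw [mul_add, mul_one, ← add_assoc, hwQ, ih]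
      have h2 := h1 (n / Q) (n % Q)
      rwa [Nat.mod_add_div] at h2
    have e : ∑ n ∈ Icc 1 N, w (n + min a c) * ((f (n + a) : ℤ) : ℂ) * ((g (n + c) : ℤ) : ℂ) =
        ∑ r ∈ range Q, w r * ((∑ n ∈ Icc 1 N, (if (n + min a c) % Q = r then (1 : ℝ) else 0) * f (n + a) *
          g (n + c) : ℝ) : ℂ) := by
      push_cast
      simp_rw [mul_sum]
      rw [sum_comm]
      refine sum_congr rfl fun n _ => ?_
      rw [sum_eq_single ((n + min a c) % Q)]
      · rw [if_pos rfl, ← hper]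
        push_cast
        ring
      · intro r _ hr
        rw [if_neg (fun h => hr h.symm)]
        simp
      · intro h
        exact absurd (mem_range.2 (Nat.mod_lt _ hQ)) h
    rw [e]
    refine (norm_sum_le _ _).trans ?_
    calc ∑ r ∈ range Q, ‖w r * ((∑ n ∈ Icc 1 N, (if (n + min a c) % Q = r then (1 : ℝ) else 0) * f (n + a) *
          g (n + c) : ℝ) : ℂ)‖ ≤ ∑ r ∈ range Q, ε / Q * N := by
          refine sum_le_sum fun r hr => ?_
          rw [norm_mul, Complex.norm_real, Real.norm_eq_abs]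
          calc ‖w r‖ * |∑ n ∈ Icc 1 N, (if (n + min a c) % Q = r then (1 : ℝ) else 0) * f (n + a) * g (n + c)| ≤
                1 * (ε / Q * N) := mul_le_mul (hw1 r) (hN' r (mem_range.1 hr)) (abs_nonneg _) zero_le_one
            _ = _ := one_mul _
      _ = ε * N := by
          rw [sum_const, card_range, nsmul_eq_mul]
          field_simp

/-- the completely multiplicative function with the same values at the primes -/
noncomputable def cmp (g : ℕ → ℤ) : ℕ → ℤ := cmOf (fun p => if p = 0 then 1 else g p)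

lemma cmp_cm {g : ℕ → ℤ} (hg : MS g) : CM (cmp g) := cmOf_cm _ (ms_v hg)

lemma cmp_prime (g : ℕ → ℤ) {p : ℕ} (hp : p.Prime) : cmp g p = g p := by
  unfold cmp
  rw [cmOf_prime _ hp, if_neg hp.ne_zero]

lemma cmp_np {g : ℕ → ℤ} (hg : MS g) (h : NoReal (fun n => (g n : ℝ))) : NonPret (cmp g) := by
  apply nonPret_of (cmp_cm hg)
  intro q χ hq hχ hs
  apply h q χ hq hχ
  refine hs.congr fun p => ?_
  beta_reduce
  rw [cmp_prime g p.2]

lemma ms_one {g : ℕ → ℤ} (hg : MS g) : g 1 = 1 := by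
  have h := hg.mul 1 1 le_rfl le_rfl (Nat.coprime_one_left 1)
  rw [mul_one] at h
  rcases hg.val 1 le_rfl with h1 | h1 <;> rw [h1] at h ⊢ <;> omega

/-- **two points** with a periodic weight -/
theorem pairMW {g₁ g₂ : ℕ → ℤ} (h₁ : MS g₁) (hN : NoReal (fun n => (g₁ n : ℝ))) (h₂ : MS g₂) (a c : ℕ)
    (hac : a ≠ c) (q : ℕ) (hq : 1 ≤ q) (v : ℕ → ℝ) (hv1 : ∀ n, |v n| ≤ 1) (hvq : ∀ n, v (n + q) = v n)
    (ε : ℝ) (hε : 0 < ε) :
    LZ {N : ℕ | ε * N < |∑ n ∈ Icc 1 N, v n * (g₁ (n + a) : ℝ) * (g₂ (n + c) : ℝ)|} := by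
  have hf := cmp_cm h₁
  have hnp := cmp_np h₁ hN
  set f := cmp g₁ with hfd
  set H : ℕ → ℂ := fun n => ((f n : ℤ) : ℂ) * ((z0 g₁ n : ℤ) : ℂ) with hH
  have hbm : BM (fun n => ((z0 g₁ n : ℤ) : ℂ)) := by
    refine ⟨fun n => ?_, fun m n hm hn hmn => ?_⟩
    · rw [Complex.norm_intCast]
      exact_mod_cast z0_le h₁ n
    · show ((z0 g₁ (m * n) : ℤ) : ℂ) = ((z0 g₁ m : ℤ) : ℂ) * ((z0 g₁ n : ℤ) : ℂ)
      rw [z0_pos _ hm, z0_pos _ hn, z0_pos _ (Nat.mul_pos hm hn), h₁.mul m n hm hn hmn]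
      push_cast; ring
  have hAP : AP H := by
    apply Pool.Agent.Y681.E.Apx2.apx2 1 le_rfl 1 H (bm_cm hf hbm)
    have e : (fun p : Nat.Primes => (1 - (H p * (starRingEnd ℂ) ((1 : DirichletCharacter ℂ 1)
        ((p : ℕ) : ZMod 1))).re) / ((p : ℕ) : ℝ)) = fun _ => 0 := by
      funext p
      have e1 : ((1 : DirichletCharacter ℂ 1) ((p : ℕ) : ZMod 1)) = 1 := by
        rw [MulChar.one_apply]
        exact isUnit_of_subsingleton _
      have e2 : H p = 1 := by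
        simp only [hH]
        rw [z0_pos _ p.2.pos, ← cmp_prime g₁ p.2, ← hfd]
        exact cm_sqC hf p.2.ne_zero
      rw [e1, e2]
      simp
    rw [e]
    exact summable_zero
  obtain ⟨Q, w, hQ, hw1, hwQ, N₀, hN₀⟩ := hAP (ε / 4) (by positivity)
  obtain ⟨E, hE, hE2⟩ := pairW hf hnp h₂ a c hac (Q * q) (Nat.mul_pos hQ hq) (ε / 4) (by positivity)
  refine LZ_sub ?_ (LZ_union hE (LZ_bdd {N | N < N₀ + a + 2} _ fun n hn => hn))
  intro N hN'
  by_contra hcon
  rw [Set.mem_union, not_or] at hcon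
  have h1 := hcon.1
  have h2 : ¬ (N < N₀ + a + 2) := hcon.2
  rw [not_lt] at h2
  have hN0 : (0 : ℝ) < N := by exact_mod_cast (by omega : 0 < N)
  obtain ⟨u, hu, h3⟩ := hN₀ (N + a + 1) (by omega)
  have hwQ' : ∀ k n, w (n + Q * k) = w n := by
    intro k
    induction k with
    | zero => intro n; simp
    | succ k ih => intro n; rw [mul_add, mul_one, ← add_assoc, hwQ, ih]
  have hvq' : ∀ k n, v (n + q * k) = v n := by
    intro k
    induction k with
    | zero => intro n; simp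
    | succ k ih => intro n; rw [mul_add, mul_one, ← add_assoc, hvq, ih]
  -- the shifted weight
  set w' : ℕ → ℂ := fun n => w (n + (a - min a c)) * ((v (n + (q * min a c - min a c)) : ℝ) : ℂ) with hw'
  have h4 := hE2 N h1 w' (fun n => by
    simp only [hw']
    rw [norm_mul, Complex.norm_real, Real.norm_eq_abs]
    exact mul_le_one₀ (hw1 _) (abs_nonneg _) (hv1 _)) (fun n => by
    simp only [hw']
    rw [show n + Q * q + (a - min a c) = n + (a - min a c) + Q * q by ring, hwQ',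
      show n + Q * q + (q * min a c - min a c) = n + (q * min a c - min a c) + q * Q by ring, hvq'])
  have hma : min a c ≤ a := min_le_left _ _
  have e1 : ((∑ n ∈ Icc 1 N, v n * (g₁ (n + a) : ℝ) * (g₂ (n + c) : ℝ) : ℝ) : ℂ) =
      u * ∑ n ∈ Icc 1 N, w' (n + min a c) * ((f (n + a) : ℤ) : ℂ) * ((g₂ (n + c) : ℤ) : ℂ) +
      ∑ n ∈ Icc 1 N, (H (n + a) - u * w (n + a)) *
        (((v n : ℝ) : ℂ) * (((f (n + a) : ℤ) : ℂ) * ((g₂ (n + c) : ℤ) : ℂ))) := by
    rw [mul_sum, ← sum_add_distrib]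
    push_cast
    refine sum_congr rfl fun n hn => ?_
    rw [mem_Icc] at hn
    have e2 : w' (n + min a c) = w (n + a) * ((v n : ℝ) : ℂ) := by
      simp only [hw']
      have h5 : min a c ≤ q * min a c := Nat.le_mul_of_pos_left _ (by omega)
      rw [show n + min a c + (a - min a c) = n + a by omega,
        show n + min a c + (q * min a c - min a c) = n + q * min a c by omega, hvq']
    rw [e2]
    simp only [hH]
    rw [z0_pos _ (by omega : 1 ≤ n + a)]
    have e3 := cm_sqC hf (by omega : n + a ≠ 0)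
    linear_combination (-(((v n : ℝ) : ℂ) * ((g₁ (n + a) : ℤ) : ℂ) * ((g₂ (n + c) : ℤ) : ℂ))) * e3
  have h5 : ‖((∑ n ∈ Icc 1 N, v n * (g₁ (n + a) : ℝ) * (g₂ (n + c) : ℝ) : ℝ) : ℂ)‖ ≤
      ε / 4 * N + ε / 4 * ((N + a + 1 : ℕ) : ℝ) := by
    rw [e1]
    refine (norm_add_le _ _).trans (add_le_add ?_ ?_)
    · rw [norm_mul, hu, one_mul]
      exact h4
    · refine (norm_sum_le _ _).trans (le_trans ?_ h3)
      have h6 : ∑ n ∈ Icc 1 N, ‖(H (n + a) - u * w (n + a)) *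
          (((v n : ℝ) : ℂ) * (((f (n + a) : ℤ) : ℂ) * ((g₂ (n + c) : ℤ) : ℂ)))‖ ≤
          ∑ n ∈ Icc 1 N, ‖H (n + a) - u * w (n + a)‖ := by
        refine sum_le_sum fun n hn => ?_
        rw [mem_Icc] at hn
        rw [norm_mul, norm_mul, norm_mul, Complex.norm_real, Real.norm_eq_abs]
        have h7 : ‖((g₂ (n + c) : ℤ) : ℂ)‖ ≤ 1 := by
          rcases h₂.val (n + c) (by omega) with h | h <;> rw [h] <;> simp
        have h8 : |v n| * (‖((f (n + a) : ℤ) : ℂ)‖ * ‖((g₂ (n + c) : ℤ) : ℂ)‖) ≤ 1 :=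
          mul_le_one₀ (hv1 n) (by positivity) (mul_le_one₀ (cm_le hf _) (norm_nonneg _) h7)
        exact mul_le_of_le_one_right (norm_nonneg _) h8
      refine h6.trans ?_
      have h8 : ∑ n ∈ Icc 1 N, ‖H (n + a) - u * w (n + a)‖ = ∑ m ∈ Ico (a + 1) (N + a + 1), ‖H m - u * w m‖ := by
        have h9 : Icc 1 N = Ico 1 (N + 1) := by
          ext n; simp only [mem_Icc, mem_Ico]; omega
        rw [h9, sum_Ico_add' (fun m => ‖H m - u * w m‖) 1 (N + 1) a]
        congr 1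
        ext n
        simp only [mem_Ico]
        omega
      rw [h8, range_eq_Ico]
      exact sum_le_sum_of_subset_of_nonneg (Ico_subset_Ico_left (by omega)) fun _ _ _ => norm_nonneg _
  rw [Complex.norm_real, Real.norm_eq_abs] at h5
  have hN'' : ε * N < |∑ n ∈ Icc 1 N, v n * (g₁ (n + a) : ℝ) * (g₂ (n + c) : ℝ)| := hN'
  have h10 : ((N + a + 1 : ℕ) : ℝ) ≤ 2 * N := by exact_mod_cast (by omega : N + a + 1 ≤ 2 * N)
  have h11 : ε / 4 * ((N + a + 1 : ℕ) : ℝ) ≤ ε / 4 * (2 * N) := mul_le_mul_of_nonneg_left h10 (by positivity)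
  have : 0 < ε * N := by positivity
  linarith

/-- **two points** in arithmetic progressions -/
theorem pairQ {g₁ g₂ : ℕ → ℤ} (h₁ : MS g₁) (hN : NoReal (fun n => (g₁ n : ℝ))) (h₂ : MS g₂) (q a c : ℕ)
    (hq : 1 ≤ q) (hac : a ≠ c) (ε : ℝ) (hε : 0 < ε) :
    LZ {N : ℕ | ε * N < |∑ n ∈ Icc 1 N, (g₁ (q * n + a) : ℝ) * (g₂ (q * n + c) : ℝ)|} := by
  classical
  have hq0 : (0 : ℝ) < q := by exact_mod_cast hq
  have h1 := pairMW h₁ hN h₂ a c hac q hq (fun n => if n % q = 0 then 1 else 0) (fun n => by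
    split_ifs <;> simp) (fun n => by rw [Nat.add_mod_right]) (ε / q) (by positivity)
  have h2 := Pool.Agent.Y842.EL.LZ_pull (E := {N : ℕ | ε / q * N < |∑ n ∈ Icc 1 N,
    (if n % q = 0 then (1 : ℝ) else 0) * (g₁ (n + a) : ℝ) * (g₂ (n + c) : ℝ)|}) h1 q 0 hq
  refine LZ_sub (fun N hN => ?_) h2
  have hN : ε * N < |∑ n ∈ Icc 1 N, (g₁ (q * n + a) : ℝ) * (g₂ (q * n + c) : ℝ)| := hN
  show ε / q * ((q * N + 0 : ℕ) : ℝ) < |∑ n ∈ Icc 1 (q * N + 0),
    (if n % q = 0 then (1 : ℝ) else 0) * (g₁ (n + a) : ℝ) * (g₂ (n + c) : ℝ)|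
  have e1 : ε / q * ((q * N + 0 : ℕ) : ℝ) = ε * N := by
    push_cast
    field_simp
    ring
  have e2 : ∑ n ∈ Icc 1 (q * N + 0), (if n % q = 0 then (1 : ℝ) else 0) * (g₁ (n + a) : ℝ) * (g₂ (n + c) : ℝ) =
      ∑ n ∈ Icc 1 N, (g₁ (q * n + a) : ℝ) * (g₂ (q * n + c) : ℝ) := by
    have e3 : ∀ n, (if n % q = 0 then (1 : ℝ) else 0) * (g₁ (n + a) : ℝ) * (g₂ (n + c) : ℝ) =
        if n % q = 0 then (g₁ (n + a) : ℝ) * (g₂ (n + c) : ℝ) else 0 := by
      intro n
      split_ifs <;> ring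
    simp only [e3]
    rw [← sum_filter]
    symm
    apply sum_nbij (fun n => q * n)
    · intro n hn
      rw [mem_Icc] at hn
      rw [mem_filter, mem_Icc]
      refine ⟨⟨Nat.mul_pos hq hn.1, Nat.mul_le_mul_left q hn.2⟩, Nat.mul_mod_right q n⟩
    · intro x _ y _ hxy
      exact Nat.eq_of_mul_eq_mul_left hq hxy
    · intro m hm
      rw [mem_coe, mem_filter, mem_Icc] at hm
      obtain ⟨k, hk⟩ := Nat.dvd_of_mod_eq_zero hm.2
      refine ⟨k, ?_, hk.symm⟩
      rw [mem_coe, mem_Icc]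
      subst hk
      exact ⟨Nat.pos_of_mul_pos_left hm.1.1, Nat.le_of_mul_le_mul_left (by simpa using hm.1.2) hq⟩
    · intro n _
      rfl
  rw [e1, e2]
  exact hN

/-- **one point** in arithmetic progressions, almost all scales -/
theorem oneQ {g : ℕ → ℤ} (hg : MS g) (hN : NoReal (fun n => (g n : ℝ))) (q a : ℕ) (hq : 1 ≤ q) (ε : ℝ)
    (hε : 0 < ε) : LZ {N : ℕ | ε * N < |∑ n ∈ Icc 1 N, (g (q * n + a) : ℝ)|} := by
  have h1 : MS (fun _ => (1 : ℤ)) := ⟨fun _ _ => Or.inl rfl, fun _ _ _ _ _ => by norm_num⟩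
  have h2 := pairQ hg hN h1 q a (a + 1) hq (by omega) ε hε
  refine LZ_sub (fun N hN => ?_) h2
  have hN : ε * N < |∑ n ∈ Icc 1 N, (g (q * n + a) : ℝ)| := hN
  show ε * N < |∑ n ∈ Icc 1 N, (g (q * n + a) : ℝ) * (((fun _ => (1 : ℤ)) (q * n + (a + 1)) : ℤ) : ℝ)|
  simpa using hN

/-- **one point** -/
theorem oneM {g : ℕ → ℤ} (hg : MS g) (hN : NoReal (fun n => (g n : ℝ))) (ε : ℝ) (hε : 0 < ε) :
    ∃ N₀ : ℕ, ∀ N : ℕ, N₀ ≤ N → |∑ n ∈ Icc 1 N, (g n : ℝ)| ≤ ε * N := by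
  have hf := cmp_cm hg
  have hnp := cmp_np hg hN
  set B : ArithmeticFunction ℂ := ⟨fun n => ((z0 g n : ℤ) : ℂ), by simp [z0]⟩ with hB
  have hBn : ∀ n, B n = ((z0 g n : ℤ) : ℂ) := fun n => rfl
  have hmb : MB B := by
    refine ⟨⟨?_, fun {m n} hmn => ?_⟩, fun n => ?_⟩
    · rw [hBn, z0_pos _ le_rfl, ms_one hg]; simp
    · by_cases hm : m = 0
      · subst hm; simp
      by_cases hn : n = 0
      · subst hn; simp
      have hm' : 1 ≤ m := Nat.one_le_iff_ne_zero.2 hm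
      have hn' : 1 ≤ n := Nat.one_le_iff_ne_zero.2 hn
      rw [hBn, hBn, hBn, z0_pos _ hm', z0_pos _ hn', z0_pos _ (Nat.mul_pos hm' hn'), hg.mul m n hm' hn' hmn]
      push_cast
      rfl
    · rw [hBn, Complex.norm_intCast]
      exact_mod_cast z0_le hg n
  have hnpB : NP B := by
    intro y hy
    apply fchi_np hf hnp (q := 1) one_pos (1 : DirichletCharacter ℂ 1) y
    refine hy.congr fun p => ?_
    unfold gg
    have e1 : ((1 : DirichletCharacter ℂ 1) ((p : ℕ) : ZMod 1)) = 1 := by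
      rw [MulChar.one_apply]
      exact isUnit_of_subsingleton _
    have e2 : B p = (fun n : ℕ => ((cmp g n : ℤ) : ℂ) * (1 : DirichletCharacter ℂ 1) ((n : ℕ) : ZMod 1)) p := by
      show ((z0 g p : ℤ) : ℂ) = ((cmp g p : ℤ) : ℂ) * (1 : DirichletCharacter ℂ 1) ((p : ℕ) : ZMod 1)
      rw [z0_pos _ p.2.pos, e1, mul_one, cmp_prime g p.2]
    rw [e2]
  have hm := mz hmb hnpB
  rw [Metric.tendsto_atTop] at hm
  obtain ⟨N₀, hN₀⟩ := hm ε hε
  refine ⟨N₀ + 1, fun N hN1 => ?_⟩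
  have h1 := hN₀ N (by omega)
  have hN0 : (0 : ℝ) < N := by exact_mod_cast (by omega : 0 < N)
  have h2 : ∑ n ∈ Ioc 0 N, B n = ((∑ n ∈ Icc 1 N, (g n : ℝ) : ℝ) : ℂ) := by
    push_cast
    have h3 : Ioc 0 N = Icc 1 N := by
      ext n; simp only [mem_Ioc, mem_Icc]; omega
    rw [h3]
    refine sum_congr rfl fun n hn => ?_
    rw [mem_Icc] at hn
    rw [hBn, z0_pos _ hn.1]
  rw [dist_zero_right, h2, norm_div, Complex.norm_real, Complex.norm_natCast, Real.norm_eq_abs,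
    div_lt_iff₀ hN0] at h1
  exact h1.le

end Pool.Agent.R512.P
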