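import Pool.Agent.R512.Q.FinE

/-!
Library R512.P (helper512): sign patterns at three points.
-/

set_option autoImplicit false

namespace Pool.Agent.R512.P

open Finset Filter Topology
open Pool.Agent.Y958.U
open Pool.Agent.Y958.E
open Pool.Agent.R512.Q
open Pool.Agent.Y842.QY (mB mB_le csg)
open Pool.Agent.Helper602.MK (ee)
open ArithmeticFunction (cardFactors)

/-- the colouring which separates the primes up to `y` -/
def col (y : ℕ) (p : ℕ) : Fin (y + 1) := if h : p ≤ y then ⟨p, by omega⟩ else 0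

/-- the contribution of one prime to the smooth part -/
def dec {y : ℕ} (x : Fin (y + 1) × ℕ) : ℕ := if (x.1 : ℕ) = 0 then 1 else (x.1 : ℕ) ^ x.2

lemma sm_dec (y n : ℕ) : sm y n = ((csg (col y) n).map dec).prod := by
  unfold sm Pool.Agent.Y842.QY.csg
  rw [prod_filter, Multiset.map_map]
  unfold Finset.prod
  congr 1
  refine Multiset.map_congr rfl fun p hp => ?_
  have hp' : p ∈ n.primeFactors := hp
  have hpp := Nat.prime_of_mem_primeFactors hp'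
  show (if p ≤ y then p ^ n.factorization p else 1) = dec (col y p, n.factorization p)
  unfold dec col
  split_ifs with h1 h2 h2
  · exact absurd h2 hpp.ne_zero
  · rfl
  · rfl
  · exact absurd rfl h2

lemma sig_dec (y n : ℕ) : sig n = (csg (col y) n).map Prod.snd := by
  unfold sig Pool.Agent.Y842.QY.csg
  rw [Multiset.map_map]
  rfl

/-- coarse functions -/
def Coa (F : ℕ → ℂ) : Prop := ∃ (y : ℕ) (B : ℕ → Multiset ℕ → ℂ) (u : ℕ → ℂ), (∀ s t, ‖B s t‖ ≤ 1) ∧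
  ((∀ n, 1 ≤ n → ‖u n‖ ≤ 1) ∧ ∀ m n : ℕ, 1 ≤ m → 1 ≤ n → Nat.Coprime m n → u (m * n) = u m * u n) ∧
  ∀ n : ℕ, 1 ≤ n → F n = B (sm y n) (sig n) * u n

lemma coa_norm {F : ℕ → ℂ} (hF : Coa F) {n : ℕ} (hn : 1 ≤ n) : ‖F n‖ ≤ 1 := by
  obtain ⟨y, B, u, hB, hu, h⟩ := hF
  rw [h n hn, norm_mul]
  exact mul_le_one₀ (hB _ _) (norm_nonneg _) (hu.1 n hn)

lemma coa_Om (β : ℕ → ℂ) (hβ : ∀ l, ‖β l‖ ≤ 1) : Coa (fun n => β (cardFactors n)) := by
  refine ⟨0, fun _ t => β t.sum, fun _ => 1, fun s t => hβ _, ⟨fun n _ => by simp, fun _ _ _ _ _ => by simp⟩,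
    fun n _ => ?_⟩
  show β (cardFactors n) = β (sig n).sum * 1
  rw [mul_one, ArithmeticFunction.cardFactors_eq_sum_factorization]
  rfl

/-- two points: a function of `Ω` and a coarse function -/
lemma pairS (β : ℕ → ℂ) (hβ : ∀ l, ‖β l‖ ≤ 1) (F : ℕ → ℂ) (hF : Coa F) (a c : ℕ) (hac : a ≠ c) (ε : ℝ)
    (hε : 0 < ε) : LZ {N : ℕ | (ε + ‖mB β N‖) * N < ‖∑ n ∈ Icc 1 N, β (cardFactors (n + a)) * F (n + c)‖} := by
  have hF' := hF
  obtain ⟨y, B, u, hB, hu, hFe⟩ := hF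
  obtain ⟨E, hE, h1⟩ := Pool.Agent.Y842.QY.excW (col y) (fun s => B ((s.map dec).prod) (s.map Prod.snd))
    (fun s => hB _ _) u hu.1 hu.2 β hβ
  obtain ⟨N₀, h2⟩ := h1 a c hac ε hε
  refine LZ_sub ?_ (LZ_union hE (LZ_bdd {N | N < N₀} N₀ fun n hn => hn))
  intro N hN
  by_contra hcon
  rw [Set.mem_union, not_or] at hcon
  have hNN : N₀ ≤ N := not_lt.1 hcon.2
  have h3 := h2 N hNN hcon.1 0 N le_rfl
  have h4 : Pool.Agent.Y842.QY.Lc (fun n => B (((csg (col y) (n + c)).map dec).prod)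
      ((csg (col y) (n + c)).map Prod.snd) * u (n + c) * ee (0 * n)) a N N β =
      ∑ n ∈ Icc 1 N, β (cardFactors (n + a)) * F (n + c) - mB β N * ∑ n ∈ Icc 1 N, F (n + c) := by
    unfold Pool.Agent.Y842.QY.Lc
    rw [mul_sum, ← sum_sub_distrib]
    refine sum_congr rfl fun n hn => ?_
    rw [mem_Icc] at hn
    beta_reduce
    rw [← sm_dec, ← sig_dec, ← hFe (n + c) (by omega)]
    have e : ee (0 * (n : ℝ)) = 1 := by
      unfold Pool.Agent.Helper602.MK.ee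
      simp
    rw [e]
    ring
  rw [h4] at h3
  have h5 : ‖mB β N * ∑ n ∈ Icc 1 N, F (n + c)‖ ≤ ‖mB β N‖ * N := by
    rw [norm_mul]
    apply mul_le_mul_of_nonneg_left _ (norm_nonneg _)
    refine (norm_sum_le _ _).trans ((sum_le_sum fun n hn => coa_norm hF' (n := n + c) ?_).trans (le_of_eq ?_))
    · rw [mem_Icc] at hn
      omega
    · simp
  have hN' : (ε + ‖mB β N‖) * N < ‖∑ n ∈ Icc 1 N, β (cardFactors (n + a)) * F (n + c)‖ := hN
  have h6 := norm_sub_norm_le (∑ n ∈ Icc 1 N, β (cardFactors (n + a)) * F (n + c))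
    (mB β N * ∑ n ∈ Icc 1 N, F (n + c))
  nlinarith

/-- one point -/
lemma shiftS (F : ℕ → ℝ) (hF : ∀ n, 1 ≤ n → |F n| ≤ 1) (a N : ℕ) :
    |∑ n ∈ Icc 1 N, F (n + a)| ≤ |∑ n ∈ Icc 1 N, F n| + 2 * a := by
  induction a with
  | zero => simp
  | succ a ih =>
    have e : ∑ n ∈ Icc 1 N, F (n + (a + 1)) = ∑ n ∈ Icc 1 N, F (n + a) + F (N + (a + 1)) - F (1 + a) := by
      have h1 : ∑ n ∈ Icc 1 (N + 1), F (n + a) = ∑ n ∈ Icc 1 N, F (n + a) + F (N + 1 + a) :=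
        sum_Icc_succ_top (by omega) _
      have h2 : ∑ n ∈ Icc 1 (N + 1), F (n + a) = F (1 + a) + ∑ n ∈ Icc 1 N, F (n + (a + 1)) := by
        have e1 : Icc 1 (N + 1) = insert 1 ((Icc 1 N).image (· + 1)) := by
          ext n
          simp only [mem_Icc, mem_insert, mem_image]
          constructor
          · intro h
            by_cases h1 : n = 1
            · exact Or.inl h1
            · exact Or.inr ⟨n - 1, by omega, by omega⟩
          · rintro (h | ⟨m, hm, rfl⟩) <;> omega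
        rw [e1, sum_insert, sum_image]
        · congr 1
          refine sum_congr rfl fun n _ => ?_
          congr 1
          ring
        · intro x _ y _ hxy
          have : x + 1 = y + 1 := hxy
          omega
        · simp only [mem_image, mem_Icc, not_exists, not_and]
          intro m hm
          omega
      rw [show N + (a + 1) = N + 1 + a by ring]
      linarith
    rw [e]
    have h1 := abs_le.1 (hF (N + (a + 1)) (by omega))
    have h2 := abs_le.1 (hF (1 + a) (by omega))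
    have h3 := abs_le.1 ih
    rw [abs_le]
    push_cast
    constructor <;> linarith [h3.1, h3.2, h1.1, h1.2, h2.1, h2.2]

/-- the indicator of a pattern -/
lemma pat_id {x y z s t u : ℝ} (hx : x = 1 ∨ x = -1) (hy : y = 1 ∨ y = -1) (hz : z = 1 ∨ z = -1)
    (hs : s = 1 ∨ s = -1) (ht : t = 1 ∨ t = -1) (hu : u = 1 ∨ u = -1) [Decidable (x = s ∧ y = t ∧ z = u)] :
    (if x = s ∧ y = t ∧ z = u then (1 : ℝ) else 0) = (1 + s * x + t * y + u * z + s * t * (x * y) + s * u * (x * z) +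
      t * u * (y * z) + s * t * u * (x * y * z)) / 8 := by
  rcases hx with rfl | rfl <;> rcases hy with rfl | rfl <;> rcases hz with rfl | rfl <;>
    rcases hs with rfl | rfl <;> rcases ht with rfl | rfl <;> rcases hu with rfl | rfl <;> norm_num

/-- **three points** -/
theorem three : ∃ c : ℝ, 0 < c ∧ c < 1 ∧ ∀ h : Fin 3 → ℕ, Function.Injective h → ∀ β₁ β₂ : ℕ → ℝ,
    (∀ l, β₁ l = 1 ∨ β₁ l = -1) → (∀ l, β₂ l = 1 ∨ β₂ l = -1) → ∀ g : ℕ → ℝ, (∀ n, 1 ≤ n → g n = 1 ∨ g n = -1) →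
    Coa (fun n => (g n : ℂ)) →
    ∃ E : Set ℕ, LZ E ∧ ∀ N : ℕ, N ∉ E → |∑ n ∈ Icc 1 N, β₁ (cardFactors n)| ≤ c * N →
      |∑ n ∈ Icc 1 N, β₂ (cardFactors n)| ≤ c * N → |∑ n ∈ Icc 1 N, g n| ≤ c * N →
      ∀ s t u : ℝ, (s = 1 ∨ s = -1) → (t = 1 ∨ t = -1) → (u = 1 ∨ u = -1) →
      c * N ≤ ((Icc 1 N).filter (fun n => β₁ (cardFactors (n + h 0)) = s ∧ β₂ (cardFactors (n + h 1)) = t ∧
        g (n + h 2) = u)).card := by
  classical
  obtain ⟨c₀, hc0, hc1, hR⟩ := finE 3 2 (by norm_num) (1 / 2) (by norm_num)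
  refine ⟨c₀ / 64, by positivity, by linarith, fun h hh β₁ β₂ hβ₁ hβ₂ g hg hgC => ?_⟩
  have hb1 : ∀ l, ‖((β₁ l : ℝ) : ℂ)‖ ≤ 1 := fun l => by
    rw [Complex.norm_real]
    rcases hβ₁ l with h | h <;> rw [h] <;> norm_num
  have hb2 : ∀ l, ‖((β₂ l : ℝ) : ℂ)‖ ≤ 1 := fun l => by
    rw [Complex.norm_real]
    rcases hβ₂ l with h | h <;> rw [h] <;> norm_num
  have h01 : h 0 ≠ h 1 := fun e => absurd (hh e) (by decide)
  have h02 : h 0 ≠ h 2 := fun e => absurd (hh e) (by decide)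
  have h12 : h 1 ≠ h 2 := fun e => absurd (hh e) (by decide)
  set ε : ℝ := c₀ / 64 with hε
  have hε0 : 0 < ε := by positivity
  have hC2 : Coa (fun n => ((β₂ (cardFactors n) : ℝ) : ℂ)) := coa_Om (fun l => ((β₂ l : ℝ) : ℂ)) hb2
  have hE1 := pairS (fun l => ((β₁ l : ℝ) : ℂ)) hb1 _ hC2 (h 0) (h 1) h01 ε hε0
  have hE2 := pairS (fun l => ((β₁ l : ℝ) : ℂ)) hb1 _ hgC (h 0) (h 2) h02 ε hε0
  have hE3 := pairS (fun l => ((β₂ l : ℝ) : ℂ)) hb2 _ hgC (h 1) (h 2) h12 ε hε0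
  obtain ⟨E4, hE4, h4⟩ := (hR h hh 0 (fun l => ((β₁ l : ℝ) : ℂ)) (fun l => by
    rcases hβ₁ l with h | h <;> rw [h] <;> norm_num)
    (fun i => if i = 1 then fun n => ((β₂ (cardFactors n) : ℝ) : ℂ) else fun n => (g n : ℂ)) (by
      intro i hi
      by_cases hi1 : i = 1
      · rw [if_pos hi1]
        obtain ⟨y, B, u, hB, hu, hFe⟩ := hC2
        exact OM_congr y B u hB hu.1 hu.2 rfl hFe
      · rw [if_neg hi1]
        obtain ⟨y, B, u, hB, hu, hFe⟩ := hgC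
        exact OM_congr y B u hB hu.1 hu.2 rfl hFe)).1
  have hH : 0 ≤ (h 0 + h 1 + h 2 : ℕ) := Nat.zero_le _
  refine ⟨_, LZ_union (LZ_union (LZ_union hE1 hE2) (LZ_union hE3 hE4))
    (LZ_bdd {N | N < ⌈2 * (h 0 + h 1 + h 2 : ℕ) / ε⌉₊ + 1} _ fun n hn => hn),
    fun N hN hm1 hm2 hm3 s t u hs ht hu => ?_⟩
  simp only [Set.mem_union, not_or] at hN
  obtain ⟨⟨⟨hN1, hN2⟩, hN3, hN4⟩, hN5⟩ := hN
  have hN5 : ⌈2 * (h 0 + h 1 + h 2 : ℕ) / ε⌉₊ + 1 ≤ N := not_lt.1 hN5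
  have hN0 : (0 : ℝ) < N := by exact_mod_cast (by omega : 0 < N)
  have hbig : 2 * ((h 0 : ℝ) + h 1 + h 2) ≤ ε * N := by
    have h5' : ⌈2 * (h 0 + h 1 + h 2 : ℕ) / ε⌉₊ ≤ N := by omega
    have h5 : 2 * (h 0 + h 1 + h 2 : ℕ) / ε ≤ N := (Nat.le_ceil _).trans (by exact_mod_cast h5')
    rw [div_le_iff₀ hε0] at h5
    push_cast at h5
    linarith
  -- the means
  have hmean : ∀ β : ℕ → ℝ, |∑ n ∈ Icc 1 N, β (cardFactors n)| ≤ ε * N →
      ‖mB (fun l => ((β l : ℝ) : ℂ)) N‖ ≤ ε := by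
    intro β hb
    unfold Pool.Agent.Y842.QY.mB
    rw [norm_div, Complex.norm_natCast, div_le_iff₀ hN0, ← Complex.ofReal_sum, Complex.norm_real, Real.norm_eq_abs]
    exact hb
  have hM1 := hmean β₁ hm1
  have hM2 := hmean β₂ hm2
  have hb : ∀ n, 1 ≤ n → |g n| ≤ 1 := fun n hn => by
    rcases hg n hn with h | h <;> rw [h] <;> norm_num
  have hb1' : ∀ n, |β₁ n| ≤ 1 := fun n => by
    rcases hβ₁ n with h | h <;> rw [h] <;> norm_num
  have hb2' : ∀ n, |β₂ n| ≤ 1 := fun n => by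
    rcases hβ₂ n with h | h <;> rw [h] <;> norm_num
  have ha0 : (0 : ℝ) ≤ h 0 := Nat.cast_nonneg _
  have ha1 : (0 : ℝ) ≤ h 1 := Nat.cast_nonneg _
  have ha2 : (0 : ℝ) ≤ h 2 := Nat.cast_nonneg _
  have s1 := shiftS (fun n => β₁ (cardFactors n)) (fun n _ => hb1' _) (h 0) N
  have s2 := shiftS (fun n => β₂ (cardFactors n)) (fun n _ => hb2' _) (h 1) N
  have s3 := shiftS g hb (h 2) N
  have p1 : |∑ n ∈ Icc 1 N, β₁ (cardFactors (n + h 0)) * β₂ (cardFactors (n + h 1))| ≤ 2 * ε * N := by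
    have h6 : ¬ ((ε + ‖mB (fun l => ((β₁ l : ℝ) : ℂ)) N‖) * N < ‖∑ n ∈ Icc 1 N,
        ((β₁ (cardFactors (n + h 0)) : ℝ) : ℂ) * ((β₂ (cardFactors (n + h 1)) : ℝ) : ℂ)‖) := hN1
    rw [not_lt] at h6
    have e : ∑ n ∈ Icc 1 N, ((β₁ (cardFactors (n + h 0)) : ℝ) : ℂ) * ((β₂ (cardFactors (n + h 1)) : ℝ) : ℂ) =
        ((∑ n ∈ Icc 1 N, β₁ (cardFactors (n + h 0)) * β₂ (cardFactors (n + h 1)) : ℝ) : ℂ) := by
      push_cast; rfl
    rw [e, Complex.norm_real, Real.norm_eq_abs] at h6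
    have h7 := mul_le_mul_of_nonneg_right hM1 hN0.le
    linarith
  have p2 : |∑ n ∈ Icc 1 N, β₁ (cardFactors (n + h 0)) * g (n + h 2)| ≤ 2 * ε * N := by
    have h6 : ¬ ((ε + ‖mB (fun l => ((β₁ l : ℝ) : ℂ)) N‖) * N < ‖∑ n ∈ Icc 1 N,
        ((β₁ (cardFactors (n + h 0)) : ℝ) : ℂ) * ((g (n + h 2) : ℝ) : ℂ)‖) := hN2
    rw [not_lt] at h6
    have e : ∑ n ∈ Icc 1 N, ((β₁ (cardFactors (n + h 0)) : ℝ) : ℂ) * ((g (n + h 2) : ℝ) : ℂ) =
        ((∑ n ∈ Icc 1 N, β₁ (cardFactors (n + h 0)) * g (n + h 2) : ℝ) : ℂ) := by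
      push_cast; rfl
    rw [e, Complex.norm_real, Real.norm_eq_abs] at h6
    have h7 := mul_le_mul_of_nonneg_right hM1 hN0.le
    linarith
  have p3 : |∑ n ∈ Icc 1 N, β₂ (cardFactors (n + h 1)) * g (n + h 2)| ≤ 2 * ε * N := by
    have h6 : ¬ ((ε + ‖mB (fun l => ((β₂ l : ℝ) : ℂ)) N‖) * N < ‖∑ n ∈ Icc 1 N,
        ((β₂ (cardFactors (n + h 1)) : ℝ) : ℂ) * ((g (n + h 2) : ℝ) : ℂ)‖) := hN3
    rw [not_lt] at h6
    have e : ∑ n ∈ Icc 1 N, ((β₂ (cardFactors (n + h 1)) : ℝ) : ℂ) * ((g (n + h 2) : ℝ) : ℂ) =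
        ((∑ n ∈ Icc 1 N, β₂ (cardFactors (n + h 1)) * g (n + h 2) : ℝ) : ℂ) := by
      push_cast; rfl
    rw [e, Complex.norm_real, Real.norm_eq_abs] at h6
    have h7 := mul_le_mul_of_nonneg_right hM2 hN0.le
    linarith
  have p4 : |∑ n ∈ Icc 1 N, β₁ (cardFactors (n + h 0)) * β₂ (cardFactors (n + h 1)) * g (n + h 2)| ≤
      (1 - c₀) * N := by
    have h6 := h4 N hN4 (by linarith)
    have e : ∑ n ∈ Icc 1 N, ((β₁ (cardFactors (n + h 0)) : ℝ) : ℂ) * ∏ i ∈ (univ : Finset (Fin 3)).erase 0,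
        (if i = 1 then fun n => ((β₂ (cardFactors n) : ℝ) : ℂ) else fun n => ((g n : ℝ) : ℂ)) (n + h i) =
        ((∑ n ∈ Icc 1 N, β₁ (cardFactors (n + h 0)) * β₂ (cardFactors (n + h 1)) * g (n + h 2) : ℝ) : ℂ) := by
      push_cast
      refine sum_congr rfl fun n _ => ?_
      have e1 : (univ : Finset (Fin 3)).erase 0 = {1, 2} := by decide
      rw [e1, prod_insert (by decide), prod_singleton, if_pos rfl, if_neg (by decide)]
      ring
    rw [e, norm_div, Complex.norm_natCast, Complex.norm_real, Real.norm_eq_abs, div_le_iff₀ hN0] at h6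
    exact h6
  -- the count
  have hcount : (((Icc 1 N).filter (fun n => β₁ (cardFactors (n + h 0)) = s ∧ β₂ (cardFactors (n + h 1)) = t ∧
        g (n + h 2) = u)).card : ℝ) = (N + s * ∑ n ∈ Icc 1 N, β₁ (cardFactors (n + h 0)) +
        t * ∑ n ∈ Icc 1 N, β₂ (cardFactors (n + h 1)) + u * ∑ n ∈ Icc 1 N, g (n + h 2) +
        s * t * ∑ n ∈ Icc 1 N, β₁ (cardFactors (n + h 0)) * β₂ (cardFactors (n + h 1)) +
        s * u * ∑ n ∈ Icc 1 N, β₁ (cardFactors (n + h 0)) * g (n + h 2) +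
        t * u * ∑ n ∈ Icc 1 N, β₂ (cardFactors (n + h 1)) * g (n + h 2) +
        s * t * u * ∑ n ∈ Icc 1 N, β₁ (cardFactors (n + h 0)) * β₂ (cardFactors (n + h 1)) * g (n + h 2)) / 8 := by
    rw [card_filter]
    push_cast
    have e : ∀ n ∈ Icc 1 N, (if β₁ (cardFactors (n + h 0)) = s ∧ β₂ (cardFactors (n + h 1)) = t ∧ g (n + h 2) = u
        then (1 : ℝ) else 0) = (1 + s * β₁ (cardFactors (n + h 0)) + t * β₂ (cardFactors (n + h 1)) + u * g (n + h 2) +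
        s * t * (β₁ (cardFactors (n + h 0)) * β₂ (cardFactors (n + h 1))) +
        s * u * (β₁ (cardFactors (n + h 0)) * g (n + h 2)) +
        t * u * (β₂ (cardFactors (n + h 1)) * g (n + h 2)) +
        s * t * u * (β₁ (cardFactors (n + h 0)) * β₂ (cardFactors (n + h 1)) * g (n + h 2))) / 8 := by
      intro n hn
      rw [mem_Icc] at hn
      exact pat_id (hβ₁ _) (hβ₂ _) (hg _ (by omega)) hs ht hu
    rw [sum_congr rfl e, ← sum_div]
    simp only [sum_add_distrib, ← mul_sum]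
    simp
  rw [hcount]
  have habs : ∀ (r S b : ℝ), (r = 1 ∨ r = -1) → |S| ≤ b → -b ≤ r * S := by
    intro r S b hr hS
    rw [abs_le] at hS
    rcases hr with h | h <;> rw [h] <;> linarith [hS.1, hS.2]
  have hst : s * t = 1 ∨ s * t = -1 := by rcases hs with h | h <;> rcases ht with h' | h' <;> rw [h, h'] <;> norm_num
  have hsu : s * u = 1 ∨ s * u = -1 := by rcases hs with h | h <;> rcases hu with h' | h' <;> rw [h, h'] <;> norm_num
  have htu : t * u = 1 ∨ t * u = -1 := by rcases ht with h | h <;> rcases hu with h' | h' <;> rw [h, h'] <;> norm_num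
  have hstu : s * t * u = 1 ∨ s * t * u = -1 := by
    rcases hst with h | h <;> rcases hu with h' | h' <;> rw [h, h'] <;> norm_num
  have q1 := habs s _ _ hs s1
  have q2 := habs t _ _ ht s2
  have q3 := habs u _ _ hu s3
  have q4 := habs (s * t) _ _ hst p1
  have q5 := habs (s * u) _ _ hsu p2
  have q6 := habs (t * u) _ _ htu p3
  have q7 := habs (s * t * u) _ _ hstu p4
  have hcε : c₀ = 64 * ε := by rw [hε]; ring
  rw [hcε] at q7
  have : 0 < ε * N := by positivity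
  linarith

/-- from almost all scales to logarithmic densities -/
lemma log_low (S : ℕ → Prop) [DecidablePred S] (c : ℝ) (hc0 : 0 < c) (hc1 : c < 1)
    (hE : LZ {N : ℕ | ¬ (c * N ≤ ((Icc 1 N).filter S).card)}) :
    ∃ X₀ : ℕ, ∀ X : ℕ, X₀ ≤ X → c / 2 * Real.log X ≤ ∑ n ∈ (Icc 1 X).filter S, (1 : ℝ) / n := by
  set ψ : ℕ → ℂ := fun n => if S n then 0 else 1 with hψ
  have hψ1 : ∀ n, ‖ψ n‖ ≤ 1 := by
    intro n
    simp only [hψ]
    split_ifs <;> simp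
  have hreal : ∀ (N : ℕ) (w : ℕ → ℝ), ∑ n ∈ Icc 1 N, ψ n * ((w n : ℝ) : ℂ) =
      ((∑ n ∈ Icc 1 N, w n - ∑ n ∈ (Icc 1 N).filter S, w n : ℝ) : ℂ) := by
    intro N w
    rw [sum_filter, ← sum_sub_distrib]
    push_cast
    refine sum_congr rfl fun n _ => ?_
    simp only [hψ]
    split_ifs <;> simp
  obtain ⟨X₀, hX₀⟩ := logC ψ (fun _ => 1) hψ1 (fun _ => zero_le_one) c (c / 16) hc1 (by positivity) (by
    refine LZ_sub ?_ hE
    intro N hN hcon
    have hN : (1 - c) * ∑ n ∈ Icc 1 N, (1 : ℝ) + (c / 16) * N < ‖∑ n ∈ Icc 1 N, ψ n‖ := hN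
    have h1 := hreal N (fun _ => 1)
    simp only [Complex.ofReal_one, mul_one] at h1
    have h2 : (((Icc 1 N).filter S).card : ℝ) ≤ N := by
      have := card_filter_le (Icc 1 N) S
      rw [Nat.card_Icc, Nat.add_sub_cancel] at this
      exact_mod_cast this
    rw [h1, Complex.norm_real, Real.norm_eq_abs] at hN
    simp only [sum_const, Nat.card_Icc, Nat.add_sub_cancel, nsmul_eq_mul, mul_one] at hN
    rw [abs_of_nonneg (by linarith)] at hN
    have h3 : 0 ≤ (c / 16) * (N : ℝ) := by positivity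
    linarith)
  refine ⟨X₀ + 1, fun X hX => ?_⟩
  have h1 := hX₀ X (by omega)
  have h2 := hreal X (fun n => 1 / (n : ℝ))
  have e : ∑ n ∈ Icc 1 X, ψ n / (n : ℂ) = ∑ n ∈ Icc 1 X, ψ n * (((1 / (n : ℝ) : ℝ)) : ℂ) := by
    refine sum_congr rfl fun n _ => ?_
    push_cast
    ring
  rw [e, h2, Complex.norm_real, Real.norm_eq_abs] at h1
  have h3 := (abs_le.1 h1).2
  have h4 : Real.log X ≤ ∑ n ∈ Icc 1 X, (1 : ℝ) / n := by
    have h5 := log_add_one_le_harmonic X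
    have h9 : ∑ i ∈ Icc 1 X, (1 : ℝ) / i = ((harmonic X : ℚ) : ℝ) := by
      rw [harmonic_eq_sum_Icc]
      push_cast
      apply sum_congr rfl
      intro i _
      rw [one_div]
    rw [h9]
    refine le_trans ?_ h5
    have hX0 : (0 : ℝ) < X := by exact_mod_cast (by omega : 0 < X)
    apply Real.log_le_log hX0
    push_cast
    linarith
  have h5 : 0 ≤ Real.log X := Real.log_natCast_nonneg X
  nlinarith

end Pool.Agent.R512.P
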