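import Pool.Agent.R512.P.PairM
import Pool.Agent.R512.P.Three

/-!
Library R512.P (helper512): sign patterns of three real multiplicative functions.
-/

set_option autoImplicit false

namespace Pool.Agent.R512.P

open Finset Filter Topology
open Pool.Agent.Y958.U
open Pool.Agent.Y958.E
open Pool.Agent.R512.G

/-- **three points**, three functions -/
theorem real3 : ∃ c : ℝ, 0 < c ∧ c < 1 ∧ ∀ (q : ℕ) (h : Fin 3 → ℕ), 1 ≤ q → Function.Injective h →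
    ∀ g : Fin 3 → ℕ → ℤ,
    (∀ i, MS (g i)) → NoReal (fun n => (g 0 n : ℝ)) → NoReal (fun n => (g 1 n : ℝ)) →
    ∃ E : Set ℕ, LZ E ∧ ∀ N : ℕ, N ∉ E → |∑ n ∈ Icc 1 N, (g 2 (q * n + h 2) : ℝ)| ≤ c * N →
      ∀ s : Fin 3 → ℤ, (∀ i, s i = 1 ∨ s i = -1) →
      c * N ≤ ((Icc 1 N).filter (fun n => ∀ i, g i (q * n + h i) = s i)).card := by
  classical
  obtain ⟨c, hc0, hc1, hR⟩ := finR
  have hc03 := hc0 3
  have hc13 := hc1 3
  set c₀ := c 3 with hc₀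
  set ε : ℝ := c₀ / 64 with hε
  have hε0 : 0 < ε := by positivity
  refine ⟨ε, hε0, by linarith, fun q h hq hh g hg h0 h1 => ?_⟩
  have h01 : h 0 ≠ h 1 := fun e => absurd (hh e) (by decide)
  have h02 : h 0 ≠ h 2 := fun e => absurd (hh e) (by decide)
  have h12 : h 1 ≠ h 2 := fun e => absurd (hh e) (by decide)
  have hE1 := pairQ (hg 0) h0 (hg 1) q (h 0) (h 1) hq h01 ε hε0
  have hE2 := pairQ (hg 0) h0 (hg 2) q (h 0) (h 2) hq h02 ε hε0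
  have hE3 := pairQ (hg 1) h1 (hg 2) q (h 1) (h 2) hq h12 ε hε0
  have hE5 := oneQ (hg 0) h0 q (h 0) hq ε hε0
  have hE6 := oneQ (hg 1) h1 q (h 1) hq ε hε0
  -- the triple product
  set G : Fin 3 → ℕ → ℂ := fun i n => ((z0 (g i) n : ℤ) : ℂ) with hG
  have hbm : ∀ i, BM (G i) := by
    intro i
    refine ⟨fun n => ?_, fun m n hm hn hmn => ?_⟩
    · simp only [hG]
      rw [Complex.norm_intCast]
      exact_mod_cast z0_le (hg i) n
    · simp only [hG]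
      rw [z0_pos _ hm, z0_pos _ hn, z0_pos _ (Nat.mul_pos hm hn), (hg i).mul m n hm hn hmn]
      push_cast; ring
  have hadm : Adm (G 0) := by
    refine Or.inl ⟨fun n => (z0 (g 0) n : ℝ), fun n => by simp [hG], ?_⟩
    intro q χ hq hχ hs
    apply h0 q χ hq hχ
    refine hs.congr fun p => ?_
    beta_reduce
    rw [z0_pos _ p.2.pos]
  obtain ⟨E4, hE4, h4⟩ := hR 3 (fun _ => q) h (fun _ => hq) (fun i j hij => by
    intro e
    exact hij (hh (Nat.eq_of_mul_eq_mul_left hq e).symm)) G hbm 0 hadm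
  obtain ⟨M4, hM4⟩ := h4 (c₀ / 4) (by positivity)
  refine ⟨_, LZ_union (LZ_union (LZ_union (LZ_union hE1 hE2) (LZ_union hE3 hE4)) (LZ_union hE5 hE6))
    (LZ_bdd {N | N < M4 + 1} _ fun n hn => hn), fun N hN hm3 s hs => ?_⟩
  simp only [Set.mem_union, not_or] at hN
  obtain ⟨⟨⟨⟨hN1, hN2⟩, hN3, hN4⟩, hN6, hN7⟩, hN5⟩ := hN
  have hN5 : ¬ (N < M4 + 1) := hN5
  rw [not_lt] at hN5
  have hN0 : (0 : ℝ) < N := by exact_mod_cast (by omega : 0 < N)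
  have o1 : |∑ n ∈ Icc 1 N, (g 0 (q * n + h 0) : ℝ)| ≤ ε * N := by
    have h6 : ¬ (ε * N < |∑ n ∈ Icc 1 N, (g 0 (q * n + h 0) : ℝ)|) := hN6
    exact not_lt.1 h6
  have o2 : |∑ n ∈ Icc 1 N, (g 1 (q * n + h 1) : ℝ)| ≤ ε * N := by
    have h6 : ¬ (ε * N < |∑ n ∈ Icc 1 N, (g 1 (q * n + h 1) : ℝ)|) := hN7
    exact not_lt.1 h6
  have p1 : |∑ n ∈ Icc 1 N, (g 0 (q * n + h 0) : ℝ) * (g 1 (q * n + h 1) : ℝ)| ≤ ε * N := by
    have h6 : ¬ (ε * N < |∑ n ∈ Icc 1 N, (g 0 (q * n + h 0) : ℝ) * (g 1 (q * n + h 1) : ℝ)|) := hN1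
    exact not_lt.1 h6
  have p2 : |∑ n ∈ Icc 1 N, (g 0 (q * n + h 0) : ℝ) * (g 2 (q * n + h 2) : ℝ)| ≤ ε * N := by
    have h6 : ¬ (ε * N < |∑ n ∈ Icc 1 N, (g 0 (q * n + h 0) : ℝ) * (g 2 (q * n + h 2) : ℝ)|) := hN2
    exact not_lt.1 h6
  have p3 : |∑ n ∈ Icc 1 N, (g 1 (q * n + h 1) : ℝ) * (g 2 (q * n + h 2) : ℝ)| ≤ ε * N := by
    have h6 : ¬ (ε * N < |∑ n ∈ Icc 1 N, (g 1 (q * n + h 1) : ℝ) * (g 2 (q * n + h 2) : ℝ)|) := hN3
    exact not_lt.1 h6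
  have p4 : |∑ n ∈ Icc 1 N, (g 0 (q * n + h 0) : ℝ) * (g 1 (q * n + h 1) : ℝ) * (g 2 (q * n + h 2) : ℝ)| ≤
      (1 - c₀) * N + c₀ / 4 * N := by
    have h6 := (hM4 N (by omega)).1 hN4
    have e : ∑ n ∈ Icc 1 N, ∏ i, G i (q * n + h i) =
        ((∑ n ∈ Icc 1 N, (g 0 (q * n + h 0) : ℝ) * (g 1 (q * n + h 1) : ℝ) * (g 2 (q * n + h 2) : ℝ) : ℝ) : ℂ) := by
      push_cast
      refine sum_congr rfl fun n hn => ?_
      rw [mem_Icc] at hn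
      rw [Fin.prod_univ_three]
      simp only [hG]
      have hq1 : 1 ≤ q * n := Nat.mul_pos hq hn.1
      rw [z0_pos _ (by omega), z0_pos _ (by omega), z0_pos _ (by omega)]
    have e2 : ∑ n ∈ Icc 1 N, ‖G 0 (q * n + h 0)‖ ≤ N := by
      refine (sum_le_sum fun n _ => (hbm 0).1 _).trans (le_of_eq ?_)
      simp
    rw [e, Complex.norm_real, Real.norm_eq_abs] at h6
    refine h6.trans (add_le_add ?_ le_rfl)
    exact mul_le_mul_of_nonneg_left e2 (by linarith)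
  have hval : ∀ i n, (g i n : ℤ) = s i ↔ (g i n : ℝ) = (s i : ℝ) := fun i n => by
    exact_mod_cast Iff.rfl
  have hsr : ∀ i, (s i : ℝ) = 1 ∨ (s i : ℝ) = -1 := fun i => by
    rcases hs i with h | h <;> rw [h] <;> norm_num
  have hgr : ∀ i n, 1 ≤ n → (g i n : ℝ) = 1 ∨ (g i n : ℝ) = -1 := fun i n hn => by
    rcases (hg i).val n hn with h | h <;> rw [h] <;> norm_num
  -- the count
  have hcount : (((Icc 1 N).filter (fun n => ∀ i, g i (q * n + h i) = s i)).card : ℝ) =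
      (N + s 0 * ∑ n ∈ Icc 1 N, (g 0 (q * n + h 0) : ℝ) +
        s 1 * ∑ n ∈ Icc 1 N, (g 1 (q * n + h 1) : ℝ) + s 2 * ∑ n ∈ Icc 1 N, (g 2 (q * n + h 2) : ℝ) +
        s 0 * s 1 * ∑ n ∈ Icc 1 N, (g 0 (q * n + h 0) : ℝ) * (g 1 (q * n + h 1) : ℝ) +
        s 0 * s 2 * ∑ n ∈ Icc 1 N, (g 0 (q * n + h 0) : ℝ) * (g 2 (q * n + h 2) : ℝ) +
        s 1 * s 2 * ∑ n ∈ Icc 1 N, (g 1 (q * n + h 1) : ℝ) * (g 2 (q * n + h 2) : ℝ) +
        s 0 * s 1 * s 2 * ∑ n ∈ Icc 1 N, (g 0 (q * n + h 0) : ℝ) * (g 1 (q * n + h 1) : ℝ) * (g 2 (q * n + h 2) : ℝ)) / 8 := by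
    rw [card_filter]
    push_cast
    have e : ∀ n ∈ Icc 1 N, (if ∀ i, g i (q * n + h i) = s i then (1 : ℝ) else 0) =
        (1 + s 0 * g 0 (q * n + h 0) + s 1 * g 1 (q * n + h 1) + s 2 * g 2 (q * n + h 2) +
        s 0 * s 1 * ((g 0 (q * n + h 0) : ℝ) * (g 1 (q * n + h 1) : ℝ)) +
        s 0 * s 2 * ((g 0 (q * n + h 0) : ℝ) * (g 2 (q * n + h 2) : ℝ)) +
        s 1 * s 2 * ((g 1 (q * n + h 1) : ℝ) * (g 2 (q * n + h 2) : ℝ)) +
        s 0 * s 1 * s 2 * ((g 0 (q * n + h 0) : ℝ) * (g 1 (q * n + h 1) : ℝ) * (g 2 (q * n + h 2) : ℝ))) / 8 := by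
      intro n hn
      rw [mem_Icc] at hn
      have hq1 : 1 ≤ q * n := Nat.mul_pos hq hn.1
      have e1 := pat_id (hgr 0 (q * n + h 0) (by omega)) (hgr 1 (q * n + h 1) (by omega))
        (hgr 2 (q * n + h 2) (by omega)) (hsr 0) (hsr 1) (hsr 2)
      rw [← e1]
      congr 1
      rw [Fin.forall_fin_succ, Fin.forall_fin_two]
      rw [eq_iff_iff]
      constructor
      · rintro ⟨a, b, c⟩
        exact ⟨(hval 0 _).1 a, (hval 1 _).1 b, (hval 2 _).1 c⟩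
      · rintro ⟨a, b, c⟩
        exact ⟨(hval 0 _).2 a, (hval 1 _).2 b, (hval 2 _).2 c⟩
    rw [sum_congr rfl e, ← sum_div]
    simp only [sum_add_distrib, ← mul_sum]
    simp
  rw [hcount]
  have habs : ∀ (r S b : ℝ), (r = 1 ∨ r = -1) → |S| ≤ b → -b ≤ r * S := by
    intro r S b hr hS
    rw [abs_le] at hS
    rcases hr with h | h <;> rw [h] <;> linarith [hS.1, hS.2]
  have hst : ((s 0 : ℝ)) * s 1 = 1 ∨ ((s 0 : ℝ)) * s 1 = -1 := by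
    rcases hsr 0 with h | h <;> rcases hsr 1 with h' | h' <;> rw [h, h'] <;> norm_num
  have hsu : ((s 0 : ℝ)) * s 2 = 1 ∨ ((s 0 : ℝ)) * s 2 = -1 := by
    rcases hsr 0 with h | h <;> rcases hsr 2 with h' | h' <;> rw [h, h'] <;> norm_num
  have htu : ((s 1 : ℝ)) * s 2 = 1 ∨ ((s 1 : ℝ)) * s 2 = -1 := by
    rcases hsr 1 with h | h <;> rcases hsr 2 with h' | h' <;> rw [h, h'] <;> norm_num
  have hstu : ((s 0 : ℝ)) * s 1 * s 2 = 1 ∨ ((s 0 : ℝ)) * s 1 * s 2 = -1 := by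
    rcases hst with h | h <;> rcases hsr 2 with h' | h' <;> rw [h, h'] <;> norm_num
  have q1 := habs _ _ _ (hsr 0) o1
  have q2 := habs _ _ _ (hsr 1) o2
  have q3 := habs _ _ _ (hsr 2) hm3
  have q4 := habs _ _ _ hst p1
  have q5 := habs _ _ _ hsu p2
  have q6 := habs _ _ _ htu p3
  have q7 := habs _ _ _ hstu p4
  have hcε : c₀ = 64 * ε := by rw [hε]; ring
  rw [hcε] at q7
  have : 0 < ε * N := by positivity
  linarith

end Pool.Agent.R512.P
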