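import Pool.Agent.R512.G.Two

/-!
Library R512.P (helper512): the two point theorem for two different functions with values in `{-1, 0, 1}`,
at almost all scales, with periodic weights.
-/

set_option autoImplicit false

namespace Pool.Agent.R512.P

open Finset Filter Topology
open Pool.Agent.TH112.BL (Bd QD win)
open Pool.Agent.TH823.MRS (ExpoSmall)
open Pool.Agent.Y958.U
open Pool.Agent.Y958.TC
open Pool.Agent.Y958.E

/-- the alphabet for two functions -/
noncomputable def alp2 (F f : ℕ → ℤ) (q : ℕ) (n : ℕ) : SignType × (SignType × ZMod q) :=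
  (SignType.sign (F n), alp f q n)

lemma alp2_2 {F f : ℕ → ℤ} {q n m : ℕ} (h : alp2 F f q n = alp2 F f q m) : alp f q n = alp f q m := by
  unfold alp2 at h
  rw [Prod.mk.injEq] at h
  exact h.2

lemma alp2_1 {F f : ℕ → ℤ} (hb : ∀ n, |F n| ≤ 1) {q n m : ℕ} (h : alp2 F f q n = alp2 F f q m) :
    F n = F m := by
  have h1 : ∀ n, ((SignType.sign (F n) : SignType) : ℤ) = F n := by
    intro n
    have h2 := abs_le.1 (hb n)
    have h3 : F n = -1 ∨ F n = 0 ∨ F n = 1 := by omega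
    rcases h3 with h3 | h3 | h3 <;> rw [h3] <;> simp
  unfold alp2 at h
  rw [Prod.mk.injEq] at h
  rw [← h1 n, ← h1 m, h.1]

/-- **two point theorem** for two functions, natural averages at almost all scales, with periodic
weights -/
theorem twoFG {Nl : Set ℕ → Prop} (hN : NullId Nl) (F f : ℕ → ℤ) (hBF : ∀ n, |F n| ≤ 1) (hb : ∀ n, |f n| ≤ 1)
    (v u : ℕ → ℤ) (hv : ∀ p, v p = 1 ∨ v p = -1) (hu : ∀ p, u p = 1 ∨ u p = -1)
    (hF : ∀ p n : ℕ, p.Prime → ¬ p ∣ n → F (p * n) = v p * F n)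
    (hf : ∀ p n : ℕ, p.Prime → ¬ p ∣ n → f (p * n) = u p * f n)
    (hE : ExpoSmall (fun n => (f n : ℂ))) (h : ℕ) (hh : 1 ≤ h) (q : ℕ) (hq : 1 ≤ q) (w : ℕ → ℝ)
    (hw1 : ∀ n, |w n| ≤ 1) (hwq : ∀ n, w (n + q) = w n) (δ : ℝ) (hδ : 0 < δ) :
    Nl {N | δ < |Av N (fun n => w n * F n * f (n + h))|} := by
  classical
  set E : Set ℕ := {N | δ < |Av N (fun n => w n * F n * f (n + h))|} with hEd
  have hFr : ∀ n, |(F n : ℝ)| ≤ 1 := by
    intro n; exact_mod_cast hBF n
  by_contra hcon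
  have hLZ0 : Nl (∅ : Set ℕ) := hN.bdd ∅ 0 (fun n hn => absurd hn (Set.notMem_empty n))
  obtain ⟨ε', hε', I₀, hAv⟩ := hN.avc E ∅ hcon hLZ0
  have hsp : ∀ p, |((v p * u p : ℤ) : ℝ)| = 1 := by
    intro p
    rcases hv p with h1 | h1 <;> rcases hu p with h2 | h2 <;> rw [h1, h2] <;> norm_num
  have hfr : ∀ n, |(f n : ℝ)| ≤ 1 := by
    intro n; exact_mod_cast hb n
  haveI : NeZero q := ⟨by omega⟩
  set ε : ℝ := ε' * δ / 16 with hε
  have hε0 : 0 < ε := by positivity
  obtain ⟨I₁, hM3⟩ := mrs3 f hb hE h hh q (ε / 20) (by positivity)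
  set η : ℝ := (ε / 30) * ε / 3 with hη
  have hη0 : 0 < η := by positivity
  have hlim : Tendsto (fun i : ℕ => (i : ℝ) / 2 ^ i) atTop (𝓝 0) := by
    have := tendsto_pow_const_div_const_pow_of_one_lt 1 (show (1 : ℝ) < 2 by norm_num)
    simpa using this
  have hlim2 : Tendsto (fun i : ℕ => (12 : ℝ) / 2 ^ i) atTop (𝓝 0) := by
    have h1 := tendsto_pow_const_div_const_pow_of_one_lt 0 (show (1 : ℝ) < 2 by norm_num)
    have h2 := h1.const_mul 12
    simp only [pow_zero, mul_zero] at h2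
    refine h2.congr fun i => ?_
    ring
  obtain ⟨I₂, hI₂⟩ := eventually_atTop.1 (hlim.eventually_lt_const hη0)
  obtain ⟨I₃, hI₃⟩ := eventually_atTop.1 (hlim2.eventually_lt_const hε0)
  set i₀ : ℕ := I₀ + I₁ + I₂ + I₃ + q + 1 with hi₀
  set c : ℕ := 2 * (1 + h) with hc
  set B : ℝ := c * Real.log (Fintype.card (SignType × (SignType × ZMod q))) / η with hB
  have hB0 : 0 ≤ B := by
    rw [hB]
    have : 0 ≤ Real.log (Fintype.card (SignType × (SignType × ZMod q))) := Real.log_natCast_nonneg _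
    positivity
  obtain ⟨i₁, hi₁, hS⟩ := sum_inv_large i₀ (by omega) (12 * B / ε')
  set S : ℝ := ∑ i ∈ Ico i₀ i₁, (1 : ℝ) / i with hSd
  obtain ⟨𝓤, hU, hmem⟩ := exists_ultra _ (fun M₀ => by
    obtain ⟨M, hM1, hM2, hM3⟩ := hAv i₀ i₁ (by omega) hi₁ M₀
    exact ⟨M, hM1, by
      show ε' * S ≤ _
      convert hM3⟩ : ∀ M₀ : ℕ, ∃ M, M₀ ≤ M ∧ M ∈ {M : ℕ | ε' * S ≤
      ∑ i ∈ Ico i₀ i₁, (1 : ℝ) / i * ∑ p ∈ QQ i, Real.log p / 2 ^ i * (if M / p ∈ E then 1 else 0)})
  set ψ : ℕ → ℝ := fun n => w n * F n * f (n + h) with hψd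
  have hψ : ∀ n, |ψ n| ≤ 1 := by
    intro n
    rw [hψd]
    simp only
    rw [abs_mul, abs_mul]
    calc |w n| * |(F n : ℝ)| * |(f (n + h) : ℝ)| ≤ 1 * 1 * 1 := by
          gcongr
          · exact hw1 n
          · exact hFr n
          · exact hfr _
      _ = 1 := by norm_num
  have hw0 : ∀ i, ∀ p ∈ QD i (i + 1), 0 ≤ Real.log (p : ℝ) / 2 ^ i := fun i p _ =>
    div_nonneg (Real.log_natCast_nonneg _) (by positivity)
  -- the limits of the indicator functions
  set X : ℕ → ℝ := fun p => if {M : ℕ | M / p ∈ E} ∈ (𝓤 : Filter ℕ) then 1 else 0 with hX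
  have hX0 : ∀ p, 0 ≤ X p := fun p => by rw [hX]; simp only; split_ifs <;> norm_num
  have hX1 : ∀ p, X p ≤ 1 := fun p => by rw [hX]; simp only; split_ifs <;> norm_num
  have hXlim : ∀ p, ∀ᶠ M in (𝓤 : Filter ℕ), (if M / p ∈ E then (1 : ℝ) else 0) = X p := by
    intro p
    by_cases hp : {M : ℕ | M / p ∈ E} ∈ (𝓤 : Filter ℕ)
    · filter_upwards [hp] with M hM
      have hM : M / p ∈ E := hM
      rw [hX]
      simp only
      rw [if_pos hp, if_pos hM]
    · have h1 : {M : ℕ | M / p ∈ E}ᶜ ∈ (𝓤 : Filter ℕ) := Ultrafilter.compl_mem_iff_notMem.2 hp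
      filter_upwards [h1] with M hM
      have hM : ¬ (M / p ∈ E) := hM
      rw [hX]
      simp only
      rw [if_neg hp, if_neg hM]
  have hlimineq : ε' * S ≤ ∑ i ∈ Ico i₀ i₁, (1 : ℝ) / i *
      ∑ p ∈ QD i (i + 1), Real.log p / 2 ^ i * X p := by
    have h1 : ∀ᶠ M in (𝓤 : Filter ℕ), ∀ i ∈ Ico i₀ i₁, ∀ p ∈ QD i (i + 1),
        (if M / p ∈ E then (1 : ℝ) else 0) = X p := by
      rw [Filter.eventually_all_finset]
      intro i _
      rw [Filter.eventually_all_finset]
      intro p _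
      exact hXlim p
    obtain ⟨M, hM1, hM2⟩ := (h1.and hmem).exists
    refine le_trans hM2 (le_of_eq ?_)
    apply sum_congr rfl
    intro i hi
    congr 1
    apply sum_congr rfl
    intro p hp
    rw [hM1 i hi p hp]
  have hXs : ∀ p, X p ≤ |sS 𝓤 ψ p| / δ := by
    intro p
    by_cases hp : {M : ℕ | M / p ∈ E} ∈ (𝓤 : Filter ℕ)
    · rw [hX]
      simp only
      rw [if_pos hp, le_div_iff₀ hδ, one_mul]
      apply ge_of_tendsto (sS_tendsto 𝓤 hψ p).abs
      filter_upwards [hp] with M hM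
      have hM : M / p ∈ E := hM
      exact le_of_lt hM
    · rw [hX]
      simp only
      rw [if_neg hp]
      positivity
  -- good scales
  have hgood : ∀ i ∈ Ico i₀ i₁, Df (um 𝓤 hU) (alp2 F f q) b1 () c i ≤ η * 2 ^ i / i →
      ∑ p ∈ QD i (i + 1), Real.log p / 2 ^ i * X p ≤ 4 * ε / δ := by
    intro i hi hD
    rw [mem_Ico] at hi
    by_cases hex : ∃ p₀ ∈ QD i (i + 1), {M : ℕ | M / p₀ ∈ E} ∈ (𝓤 : Filter ℕ)
    swap
    · push Not at hex
      rw [sum_eq_zero]
      · positivity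
      · intro p hp
        rw [hX]
        simp only
        rw [if_neg (hex p hp), mul_zero]
    obtain ⟨p₀, hp₀, hmem0⟩ := hex
    have hp₀2 : p₀ ≤ 2 ^ (i + 1) := by
      unfold QD at hp₀
      rw [mem_filter, mem_Ioc] at hp₀
      exact hp₀.1.2
    have hp₀0 : 0 < p₀ := (QDp hp₀).pos
    set G : ℕ → ℕ → ℝ := fun p n => (F n : ℝ) * w (iv q p * n) * f (n + p * h) with hG
    have hG1 : ∀ p n, |G p n| ≤ 1 := by
      intro p n
      rw [hG]
      simp only
      rw [abs_mul, abs_mul]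
      calc |(F n : ℝ)| * |w (iv q p * n)| * |(f (n + p * h) : ℝ)| ≤ 1 * 1 * 1 := by
            gcongr
            · exact hFr n
            · exact hw1 _
            · exact hfr _
        _ = 1 := by norm_num
    have hqi : q < 2 ^ i := lt_of_le_of_lt (by omega : q ≤ i) Nat.lt_two_pow_self
    set τ : ℝ := ε / 9 with hτ
    have hτ0 : 0 < τ := by positivity
    have hdec := dec2 𝓤 hU (alp2 F f q) c hε0 i (by omega) (hI₂ i (by omega)) hD G hG1 (by
      intro p hp n n' hwin j hj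
      have hp2 : p ≤ 2 ^ (i + 1) := by
        unfold QD at hp
        rw [mem_filter, mem_Ioc] at hp
        exact hp.1.2
      have hidx2 : ∀ t, t < c * 2 ^ i → alp2 F f q (n + t) = alp2 F f q (n' + t) := by
        intro t ht
        exact congrFun hwin ⟨t, ht⟩
      have hidx : ∀ t, t < c * 2 ^ i → alp f q (n + t) = alp f q (n' + t) := fun t ht =>
        alp2_2 (hidx2 t ht)
      have h1 : j + p * h < c * 2 ^ i := by
        have h3 : p * (1 + h) ≤ 2 ^ (i + 1) * (1 + h) := Nat.mul_le_mul_right _ hp2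
        have h4 : 2 ^ (i + 1) * (1 + h) = c * 2 ^ i := by rw [hc, pow_succ]; ring
        have h5 : p * (1 + h) = p + p * h := by ring
        omega
      have h2 : j < c * 2 ^ i := by omega
      have e1 := alp2_1 hBF (hidx2 j h2)
      have e2 := alp_f hb (hidx (j + p * h) h1)
      have e3 := alp_mod (hidx j h2)
      rw [hG]
      simp only
      rw [e1, add_assoc n j, e2, add_assoc n' j, per_congr hwq (Nat.ModEq.mul_left (iv q p) e3)])
      (univ : Finset (Fin 2)) ![0, h] (fun p => ((v p * u p : ℤ) : ℝ)) (fun p => (hsp p).le) ψ hψ τ hτ0.le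
      (QD i (i + 1)) (Subset.refl _) (by
      intro p hp
      have hpp := QDp hp
      have hp2 : p ≤ 2 ^ (i + 1) := by
        unfold QD at hp
        rw [mem_filter, mem_Ioc] at hp
        exact hp.1.2
      refine Filter.Eventually.of_forall fun M => ?_
      intro k _ _ hk
      have h0 : ¬ p ∣ k := by simpa using hk 0 (mem_univ _)
      have h1 : ¬ p ∣ k + h := by simpa using hk 1 (mem_univ _)
      have f1 := hF p k hpp h0
      have f2 := hf p (k + h) hpp h1
      have hcop : p.Coprime q := by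
        rw [Nat.Prime.coprime_iff_not_dvd hpp]
        intro hd
        have := Nat.le_of_dvd (by omega) hd
        unfold QD at hp
        rw [mem_filter, mem_Ioc] at hp
        omega
      have hiv := (iv_spec q p hq hcop).2
      rw [hG, hψd]
      simp only
      have e1 : w (iv q p * (p * k)) = w k := by
        apply per_congr hwq
        have := Nat.ModEq.mul_right k hiv
        rw [one_mul, mul_assoc] at this
        exact this
      rw [e1, f1, show p * k + p * h = p * (k + h) by ring, f2]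
      have e3 : ((v p * F k : ℤ) : ℝ) * w k * ((u p * f (k + h) : ℤ) : ℝ) -
          ((v p * u p : ℤ) : ℝ) * (w k * (F k : ℝ) * (f (k + h) : ℝ)) = 0 := by
        push_cast
        ring
      rw [e3, abs_zero]
      exact hτ0.le)
    have hmr := hM3 i (by omega) 𝓤 hU (fun l n => (F n : ℝ) * w (l * n)) (by
      intro l n
      rw [abs_mul]
      calc |(F n : ℝ)| * |w (l * n)| ≤ 1 * 1 := mul_le_mul (hFr n) (hw1 _) (abs_nonneg _) zero_le_one
        _ = 1 := one_mul 1) (fun p => ⟨iv q p, iv_lt q p hq⟩)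
    simp only at hmr
    have h5 : (0 : ℝ) < 2 ^ i := by positivity
    have hI3 := hI₃ i (by omega)
    have hsum : ∑ p ∈ QD i (i + 1), Real.log p / 2 ^ i * |sS 𝓤 ψ p| ≤ 4 * ε := by
      have h6 : ∑ p ∈ QD i (i + 1), Real.log p / 2 ^ i * |sS 𝓤 ψ p| ≤
          ∑ p ∈ QD i (i + 1), (Real.log p / 2 ^ i * |((v p * u p : ℤ) : ℝ) * sS 𝓤 ψ p - (um 𝓤 hU).m (G p)| +
            Real.log p / 2 ^ i * |(um 𝓤 hU).m (G p)|) := by
        apply sum_le_sum
        intro p hp
        rw [← mul_add]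
        apply mul_le_mul_of_nonneg_left _ (hw0 i p hp)
        have := abs_sub_abs_le_abs_sub (((v p * u p : ℤ) : ℝ) * sS 𝓤 ψ p) ((um 𝓤 hU).m (G p))
        rw [abs_mul, hsp p, one_mul] at this
        linarith
      refine h6.trans ?_
      rw [sum_add_distrib]
      have e7 : (6 : ℝ) * ((univ : Finset (Fin 2)).card : ℝ) / 2 ^ i = 12 / 2 ^ i := by
        rw [card_univ, Fintype.card_fin]; norm_num
      rw [e7] at hdec
      have e8 : (20 : ℝ) * (ε / 20) = ε := by ring
      rw [e8] at hmr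
      have h9 : ∑ p ∈ QD i (i + 1), Real.log p / 2 ^ i * |(um 𝓤 hU).m (G p)| ≤ ε := hmr
      have h10 : 9 * τ = ε := by rw [hτ]; ring
      linarith
    calc ∑ p ∈ QD i (i + 1), Real.log p / 2 ^ i * X p ≤
          ∑ p ∈ QD i (i + 1), Real.log p / 2 ^ i * (|sS 𝓤 ψ p| / δ) :=
          sum_le_sum fun p hp => mul_le_mul_of_nonneg_left (hXs p) (hw0 i p hp)
      _ = (∑ p ∈ QD i (i + 1), Real.log p / 2 ^ i * |sS 𝓤 ψ p|) / δ := by
          rw [sum_div]
          apply sum_congr rfl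
          intro p _
          ring
      _ ≤ 4 * ε / δ := div_le_div_of_nonneg_right hsum hδ.le
  have hall : ∀ i, ∑ p ∈ QD i (i + 1), Real.log p / 2 ^ i * X p ≤ 3 := by
    intro i
    have h5 : (0 : ℝ) < 2 ^ i := by positivity
    calc ∑ p ∈ QD i (i + 1), Real.log p / 2 ^ i * X p ≤
          ∑ p ∈ QD i (i + 1), Real.log p / 2 ^ i * 1 := by
          apply sum_le_sum
          intro p hp
          exact mul_le_mul_of_nonneg_left (hX1 p) (hw0 i p hp)
      _ = (∑ p ∈ QD i (i + 1), Real.log (p : ℝ)) / 2 ^ i := by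
          rw [← sum_mul, sum_div, mul_one]
      _ ≤ 3 := by
          rw [div_le_iff₀ h5]
          exact Pool.Agent.TH575.CW.theta_QD i
  have hbad := bad_sum (um 𝓤 hU) (alp2 F f q) c η hη0 i₀ i₁ (by omega)
  have hfin : ∑ i ∈ Ico i₀ i₁, (1 : ℝ) / i *
      ∑ p ∈ QD i (i + 1), Real.log p / 2 ^ i * X p ≤ 4 * ε / δ * S + 3 * B := by
    rw [← sum_filter_add_sum_filter_not (Ico i₀ i₁)
      (fun i => ¬ Df (um 𝓤 hU) (alp2 F f q) b1 () c i ≤ η * 2 ^ i / i), add_comm]
    apply add_le_add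
    · rw [hSd, mul_comm (4 * ε / δ), sum_mul]
      refine le_trans (sum_le_sum (g := fun i : ℕ => (1 : ℝ) / i * (4 * ε / δ)) fun i hi => ?_)
        (sum_le_sum_of_subset_of_nonneg (filter_subset _ _) fun i _ _ => by positivity)
      rw [mem_filter, not_not] at hi
      exact mul_le_mul_of_nonneg_left (hgood i hi.1 hi.2) (by positivity)
    · refine le_trans (sum_le_sum fun i _ =>
        mul_le_mul_of_nonneg_left (hall i) (by positivity : (0 : ℝ) ≤ 1 / (i : ℝ))) ?_
      rw [← sum_mul, mul_comm]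
      exact mul_le_mul_of_nonneg_left hbad (by norm_num)
  have h1 := hlimineq.trans hfin
  have h2 : 4 * ε / δ = ε' / 4 := by
    rw [hε]; field_simp; ring
  rw [h2] at h1
  have hS0 : 0 < S := by
    refine lt_of_le_of_lt ?_ hS
    positivity
  have h3 : 3 * B < ε' / 4 * S := by
    rw [div_lt_iff₀ (by positivity)] at hS
    nlinarith
  nlinarith


end Pool.Agent.R512.P
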